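import Pool.Agent.P.MP_440ce3_nt.G.Iface

/-! Step B1 of the Fermat quintic project. -/

namespace Pool.Agent.P.MP_440ce3_nt

open Polynomial

namespace B1A

theorem lin_form {U : ℚ[X]} (hU : U.natDegree ≤ 1) (h0 : U ≠ 0) {t : ℚ} (h1 : U.eval t = 0) :
    ∃ u : ℚ, u ≠ 0 ∧ U = C u * (X - C t) := by
  have h2 := lin_eq hU
  have h3 : U.coeff 0 = -(U.coeff 1 * t) := by
    rw [h2] at h1
    simp only [eval_add, eval_mul, eval_C, eval_X] at h1
    linarith
  have h4 : U = C (U.coeff 1) * (X - C t) := by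
    rw [h3, map_neg, map_mul] at h2
    linear_combination h2
  exact ⟨U.coeff 1, fun h => h0 (by rw [h4, h]; simp), h4⟩

theorem lin_dvd {U p : ℚ[X]} (hU : U.natDegree ≤ 1) (h0 : U ≠ 0) {t : ℚ} (h1 : U.eval t = 0)
    (h2 : p.eval t = 0) : U ∣ p := by
  obtain ⟨u, hu, rfl⟩ := lin_form hU h0 h1
  exact (C_mul_dvd hu).2 (dvd_iff_isRoot.2 h2)

theorem lin_root {U : ℚ[X]} (hU : U.natDegree ≤ 1) (h0 : U ≠ 0) {t : ℚ} (h1 : U.eval t = 0)
    (x : ℚ) (h2 : U.eval x = 0) : x = t := by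
  obtain ⟨u, hu, rfl⟩ := lin_form hU h0 h1
  simpa [hu, sub_eq_zero] using h2

theorem deg_mul {p q n : ℚ[X]} (h : n = p * q) (h0 : n ≠ 0) :
    n.natDegree = p.natDegree + q.natDegree := by
  subst h
  exact natDegree_mul (left_ne_zero_of_mul h0) (right_ne_zero_of_mul h0)

theorem fin (hN : S_B1N) {a b c e f U W A B g : ℚ[X]} {r s t t3 : ℚ} (h : D3 a b c e f r s t)
    (hI : Ind U W) (hA : A.natDegree ≤ 1) (hB : B.natDegree ≤ 1) (hg : g.natDegree ≤ 2)
    (ea : a = g * W - U * W * A + U * A * B) (eb : b = g * U - A * B * (W - U))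
    (ec : c = U * (W * A - g - A * B)) (ee : e = -(g * W)) (ef : f = A * B * (W - U))
    (h1 : B.eval t3 = 0) (h2 : B.eval s = W.eval s) (h3 : B.eval r = U.eval r)
    (h4 : (e + c).eval t3 = 0) (h5 : U.eval t = 0) (h6 : ∀ x, U.eval x = 0 → x = t) : False := by
  obtain ⟨g0, g1, g2, eg⟩ := hI.quad hg
  obtain ⟨a0, a1, eA⟩ := hI.lin hA
  obtain ⟨b0, b1, eB⟩ := hI.lin hB
  obtain ⟨g', hg'⟩ : ∃ g' : ℚ[X], g' = C g0 * X ^ 2 + C g1 * X + C g2 := ⟨_, rfl⟩
  obtain ⟨A', hA'⟩ : ∃ A' : ℚ[X], A' = C a0 * X + C a1 := ⟨_, rfl⟩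
  obtain ⟨B', hB'⟩ : ∃ B' : ℚ[X], B' = C b0 * X + C b1 := ⟨_, rfl⟩
  have kg : ∀ x, W.eval x ≠ 0 → g'.eval (U.eval x / W.eval x) = g.eval x / W.eval x ^ 2 :=
    fun x hx => by
      rw [hg', congrArg (eval x) eg]
      simp only [eval_add, eval_mul, eval_pow, eval_C, eval_X]
      field_simp
  have kA : ∀ x, W.eval x ≠ 0 → A'.eval (U.eval x / W.eval x) = A.eval x / W.eval x :=
    fun x hx => by
      rw [hA', congrArg (eval x) eA]
      simp only [eval_add, eval_mul, eval_C, eval_X]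
      field_simp
  have kB : ∀ x, W.eval x ≠ 0 → B'.eval (U.eval x / W.eval x) = B.eval x / W.eval x :=
    fun x hx => by
      rw [hB', congrArg (eval x) eB]
      simp only [eval_add, eval_mul, eval_C, eval_X]
      field_simp
  have ka : ∀ x, W.eval x ≠ 0 → (g' - X * A' + X * A' * B').eval (U.eval x / W.eval x) =
      a.eval x / W.eval x ^ 3 := fun x hx => by
    simp only [ea, eval_add, eval_sub, eval_mul, eval_X, kg x hx, kA x hx, kB x hx]
    field_simp
  have kb : ∀ x, W.eval x ≠ 0 → (g' * X - A' * B' * (1 - X)).eval (U.eval x / W.eval x) =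
      b.eval x / W.eval x ^ 3 := fun x hx => by
    simp only [eb, eval_one, eval_sub, eval_mul, eval_X, kg x hx, kA x hx, kB x hx]
    field_simp
  have kc : ∀ x, W.eval x ≠ 0 → (X * (A' - g' - A' * B')).eval (U.eval x / W.eval x) =
      c.eval x / W.eval x ^ 3 := fun x hx => by
    simp only [ec, eval_sub, eval_mul, eval_X, kg x hx, kA x hx, kB x hx]
    field_simp
  have ke : ∀ x, W.eval x ≠ 0 → (-g').eval (U.eval x / W.eval x) =
      e.eval x / W.eval x ^ 3 := fun x hx => by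
    simp only [ee, eval_neg, eval_mul, kg x hx]
    field_simp
  have kf : ∀ x, W.eval x ≠ 0 → (A' * B' * (1 - X)).eval (U.eval x / W.eval x) =
      f.eval x / W.eval x ^ 3 := fun x hx => by
    simp only [ef, eval_one, eval_sub, eval_mul, eval_X, kA x hx, kB x hx]
    field_simp
  have ne : ∀ x, e.eval x ≠ 0 → g.eval x ≠ 0 ∧ W.eval x ≠ 0 := fun x hx => by
    rw [ee, eval_neg, eval_mul, neg_ne_zero] at hx
    exact mul_ne_zero_iff.1 hx
  have nf : ∀ x, f.eval x ≠ 0 → A.eval x ≠ 0 ∧ B.eval x ≠ 0 ∧ W.eval x ≠ U.eval x :=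
    fun x hx => by
      rw [ef, eval_mul, eval_mul, eval_sub, mul_ne_zero_iff, mul_ne_zero_iff, sub_ne_zero] at hx
      exact ⟨hx.1.1, hx.1.2, hx.2⟩
  have f3 : f.eval t3 = 0 := by rw [ef, eval_mul, eval_mul, h1, mul_zero, zero_mul]
  obtain ⟨g3, w3⟩ := ne t3 fun h0 => h.gd.v1 t3 3 4 (by decide) h0 f3
  obtain ⟨gs, ws⟩ := ne s h.es
  obtain ⟨gr, wr⟩ := ne r h.er
  refine hN (U.eval t3 / W.eval t3) (U.eval s / W.eval s) (U.eval r / W.eval r) g0 g1 g2 a0 a1
    b0 b1 g' A' B' hg' hA' hB' (hI.transfer fun x hx => ?_) ?_ ?_ ?_ ?_ ?_ ?_ ?_ ?_ ?_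
    (div_ne_zero (fun h0 => h.ft (h6 _ h0 ▸ f3)) w3) (div_ne_zero (fun h0 => h.st (h6 _ h0)) ws)
    (fun h0 => (nf s h.fs).2.2 ((div_eq_one_iff_eq ws).1 h0).symm) fun h0 => (nf t h.ft).1 ?_
  · have h7 := congrArg (eval x) h.gd.five
    simp only [eval_add, eval_pow, eval_zero] at h7
    rw [eval_add, eval_add, eval_add, eval_add, eval_pow, eval_pow, eval_pow, eval_pow, eval_pow,
      ka x hx, kb x hx, kc x hx, ke x hx, kf x hx]
    linear_combination (1 / W.eval x ^ 3) ^ 5 * h7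
  · rw [kB t3 w3, h1, zero_div]
  · rw [kB s ws, h2, div_self ws]
  · rw [kB r wr, h3]
  · rw [sub_eq_add_neg, eval_add, kc t3 w3, ke t3 w3, ← add_div, add_comm, ← eval_add, h4,
      zero_div]
  · rw [kb s ws, h.rb, zero_div]
  · rw [ka r wr, h.ra, zero_div]
  · rw [kg t3 w3]
    exact div_ne_zero g3 (pow_ne_zero _ w3)
  · rw [kg s ws]
    exact div_ne_zero gs (pow_ne_zero _ ws)
  · rw [kg r wr]
    exact div_ne_zero gr (pow_ne_zero _ wr)
  · rw [eA, h0]
    simp [h5]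

end B1A

open B1A in
theorem p_B1 (hB1N : S_B1N) :
    S_B1 := by
  intro a b c e f r s t u1 u2 u3 v g h hr hs ht ef d1 d2 d3 k1 k2 k3 ee dg k4 k5
  obtain ⟨W, rfl⟩ : ∃ W, v = -W := ⟨-v, (neg_neg v).symm⟩
  have s1 := h.s1
  have ev : ∀ x, a.eval x + b.eval x + c.eval x + e.eval x + f.eval x = 0 := fun x => by
    simpa using congrArg (eval x) s1
  rw [eval_add] at hr hs ht
  have dW : W.natDegree = 1 := by
    have h1 := deg_mul ee (h.ne 3)
    rw [h.dege, dg, natDegree_neg] at h1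
    omega
  have ne : ∀ x, e.eval x ≠ 0 → g.eval x ≠ 0 ∧ W.eval x ≠ 0 := fun x hx => by
    rw [ee, eval_mul, eval_neg, mul_ne_zero_iff, neg_ne_zero] at hx
    exact hx.symm
  have nf : ∀ x, f.eval x ≠ 0 → u1.eval x ≠ 0 ∧ u3.eval x ≠ 0 := fun x hx => by
    rw [ef, eval_mul, eval_mul, mul_ne_zero_iff, mul_ne_zero_iff] at hx
    exact ⟨hx.1.1, hx.2⟩
  obtain ⟨U, eU⟩ := k5
  obtain ⟨p1 : f + b ≠ 0, p2 : (f + b).natDegree = 3⟩ := h.gd.pair 4 1 (by decide)
  have U0 : U ≠ 0 := fun h0 => p1 (by rw [eU, h0, mul_zero])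
  have dU : U.natDegree = 1 := by
    have h1 := deg_mul eU p1
    omega
  have Ut : U.eval t = 0 := by
    have h1 := congrArg (eval t) eU
    rw [eval_add, eval_mul] at h1
    exact (mul_eq_zero.1 (by linear_combination ev t - h1 - ht - h.rc)).resolve_left (ne t h.et).1
  have Ur := lin_root dU.le U0 Ut
  have hI : Ind U W := Ind.of_root dU.le dW.le U0 Ut (ne t h.et).2
  have eV : a + c = g * (W - U) := by linear_combination s1 - eU - ee
  have cop := h.cop
  have k6 : u2 ∣ W - U := by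
    have h1 : IsCoprime u2 g := by
      rw [ee, ef] at cop
      exact cop.of_mul_left_right.of_mul_right_left.of_mul_right_right.symm
    refine h1.dvd_of_dvd_mul_left ?_
    rw [← eV, show a + c = -(e + b + f) by linear_combination s1, dvd_neg]
    exact dvd_add k2 ⟨u1 * u3, by rw [ef]; ring⟩
  obtain ⟨q, eq⟩ := k6
  have V0 : W - U ≠ 0 := fun h0 => (h.gd.pair 0 2 (by decide)).1 (by
    show a + c = 0
    rw [eV, h0, mul_zero])
  obtain ⟨κ, rfl⟩ : ∃ κ, q = C κ := by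
    have h1 := deg_mul eq V0
    have h2 : (W - U).natDegree ≤ 1 := (natDegree_sub_le _ _).trans (by omega)
    exact ⟨_, eq_C_of_natDegree_eq_zero (by omega)⟩
  have κ0 : κ ≠ 0 := fun h0 => V0 (by rw [eq, h0, map_zero, mul_zero])
  obtain ⟨p, ep⟩ := k1
  obtain ⟨d, rfl⟩ : U ∣ p := by
    have h1 := congrArg (eval t) ep
    rw [eval_add, eval_mul, ht] at h1
    exact lin_dvd dU.le U0 Ut ((mul_eq_zero.1 h1.symm).resolve_left (nf t h.ft).1)
  obtain ⟨p3 : e + a ≠ 0, p4 : (e + a).natDegree = 3⟩ := h.gd.pair 3 0 (by decide)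
  have dd : d.natDegree = 1 := by
    have h1 := deg_mul ep p3
    have h2 := deg_mul rfl (right_ne_zero_of_mul (ep ▸ p3))
    omega
  have ds : d.eval s = 0 := by
    have h1 := congrArg (eval s) ep
    rw [eval_add, eval_mul, eval_mul, hs] at h1
    exact (mul_eq_zero.1 ((mul_eq_zero.1 h1.symm).resolve_left (nf s h.fs).1)).resolve_left
      fun h0 => h.st (Ur s h0)
  obtain ⟨f', ef'⟩ : u1 * W ∣ b + c := by
    have h1 : IsCoprime u1 W := by
      rw [ee, ef] at cop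
      exact ((IsCoprime.neg_left_iff _ _).1
        cop.of_mul_left_left.of_mul_right_left.of_mul_right_left).symm
    refine h1.mul_dvd ⟨-(U * d + u2 * u3), by linear_combination s1 - ep - ef⟩ ?_
    obtain ⟨z, hz⟩ := k4
    exact ⟨z + g, by linear_combination s1 - hz - ee⟩
  obtain ⟨p5 : b + c ≠ 0, p6 : (b + c).natDegree = 3⟩ := h.gd.pair 1 2 (by decide)
  have df : f'.natDegree = 1 := by
    have h1 := deg_mul ef' p5
    have h2 := deg_mul rfl (left_ne_zero_of_mul (ef' ▸ p5))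
    omega
  have fr : f'.eval r = 0 := by
    have h1 := congrArg (eval r) ef'
    rw [eval_add, eval_mul, eval_mul] at h1
    exact (mul_eq_zero.1 (by linear_combination ev r - h1 - hr - h.ra)).resolve_left
      (mul_ne_zero (nf r h.fr).1 (ne r h.er).2)
  obtain ⟨B, eB⟩ : ∃ B, B = C κ⁻¹ * u3 := ⟨_, rfl⟩
  have κ1 : C κ * C κ⁻¹ = 1 := by rw [← map_mul, mul_inv_cancel₀ κ0, map_one]
  have dB : B.natDegree ≤ 1 := eB ▸ (natDegree_C_mul_le _ _).trans d3.le
  have ef2 : f = u1 * B * (W - U) := by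
    rw [eB, eq]
    linear_combination ef - u1 * u2 * u3 * κ1
  have u10 : u1 ≠ 0 := fun h0 => by simp [h0] at d1
  have rel : W * (f' + B) + U * (d - B) = 0 :=
    (mul_eq_zero.1 (by linear_combination eV - ep - ef' + eU - ef2 + ee)).resolve_left u10
  obtain ⟨x0, x1, ex⟩ := hI.lin (l := f' + B) ((natDegree_add_le _ _).trans (by omega))
  obtain ⟨y0, y1, ey⟩ := hI.lin (l := d - B) ((natDegree_sub_le _ _).trans (by omega))
  obtain ⟨-, rfl, z2, rfl⟩ := hI.cubic (c0 := 0) (c1 := y0) (c2 := x0 + y1) (c3 := x1) (by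
    rw [map_add, map_zero]
    linear_combination W * rel - W ^ 2 * ex - W * U * ey)
  obtain rfl : y1 = -x0 := by linarith
  rw [map_zero] at ex ey
  rw [map_neg] at ey
  have Bs : B.eval s = x0 * W.eval s := by
    have h1 := congrArg (eval s) ey
    simp only [eval_add, eval_sub, eval_mul, eval_neg, eval_C, eval_zero] at h1
    linear_combination ds - h1
  have Br : B.eval r = x0 * U.eval r := by
    have h1 := congrArg (eval r) ex
    simp only [eval_add, eval_mul, eval_C, eval_zero] at h1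
    linear_combination h1 - fr
  have x00 : x0 ≠ 0 := fun h0 => h.fs (by
    rw [ef2, eval_mul, eval_mul, Bs, h0, zero_mul, mul_zero, zero_mul])
  have x1 : C x0 * C x0⁻¹ = 1 := by rw [← map_mul, mul_inv_cancel₀ x00, map_one]
  obtain ⟨t3, h3⟩ := exists_root_of_degree_eq_one (p := u3) (by
    rw [degree_eq_natDegree (fun h0 => by simp [h0] at d3), d3]; rfl)
  refine fin hB1N (A := C x0 * u1) (B := C x0⁻¹ * B) (t3 := t3) h hI
    ((natDegree_C_mul_le _ _).trans d1.le) ((natDegree_C_mul_le _ _).trans dB) dg.le ?_ ?_ ?_ ?_ ?_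
    ?_ ?_ ?_ (eval_eq_zero_of_dvd_of_eval_eq_zero k3 h3) Ut Ur
  · linear_combination ep - ee + u1 * U * ey - U * u1 * B * x1
  · linear_combination eU - ef2 + u1 * B * (W - U) * x1
  · linear_combination ef' - eU + ef2 + u1 * W * ex + U * u1 * B * x1
  · linear_combination ee
  · linear_combination ef2 - u1 * B * (W - U) * x1
  · rw [eB, eval_mul, eval_mul, h3.eq_zero, mul_zero, mul_zero]
  · rw [eval_mul, eval_C, Bs, inv_mul_cancel_left₀ x00]
  · rw [eval_mul, eval_C, Br, inv_mul_cancel_left₀ x00]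

end Pool.Agent.P.MP_440ce3_nt
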