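import Pool.Agent.P.MP_440ce3_nt.G.Iface

/-! Step B1N of the Fermat quintic project. -/

namespace Pool.Agent.P.MP_440ce3_nt

open Polynomial

namespace B1nA

/-- First eliminant. -/
def F1 (β δ : ℚ) : ℚ :=
  (-β ^ 4 * δ - β ^ 4 + β ^ 3 * δ ^ 3 + 2 * β ^ 3 * δ ^ 2 - β ^ 3 * δ - 4 * β ^ 3
    - 3 * β ^ 2 * δ ^ 4 + 4 * β ^ 2 * δ ^ 3 + 4 * β ^ 2 * δ ^ 2 + 4 * β ^ 2 * δ - 7 * β ^ 2
    + β * δ ^ 5 - 7 * β * δ ^ 4 + 2 * β * δ ^ 3 + β * δ ^ 2 + 10 * β * δ - 7 * β + 2 * δ ^ 6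
    - δ ^ 5 - 2 * δ ^ 4 - δ ^ 3 - δ ^ 2 + 6 * δ - 3)

/-- Second eliminant. -/
def F5 (β δ : ℚ) : ℚ :=
  (-β ^ 4 * δ - β ^ 4 + 2 * β ^ 3 * δ ^ 2 - β ^ 3 * δ - 2 * β ^ 3 + 4 * β ^ 2 * δ ^ 2 - β ^ 2
    - β * δ ^ 4 - β * δ ^ 3 + β * δ ^ 2 - β * δ - β + δ ^ 3 + 2 * δ ^ 2 - 1)

theorem f1 (g0 g1 g2 x0 x1 β δ : ℚ)
    (e0 : β * ((x0 * β + x1) * (δ - β) - (g0 * β ^ 2 + g1 * β + g2)) - (g0 * β ^ 2 + g1 * β + g2) = 0)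
    (e2 : (g0 * δ ^ 2 + g1 * δ + g2) * δ - (x0 * δ + x1) * (δ - β) * (1 - δ) = 0)
    (e3 : δ ^ 4 * ((2 * x0 * δ + x1) * (δ - β) - (3 * g0 * δ ^ 2 + 2 * g1 * δ + g2)
      + (x0 * (δ - β) + (x0 * δ + x1)) * (1 - 2 * δ) - 2 * (x0 * δ + x1) * (δ - β))
      + δ * (x0 * δ + x1) = 0)
    (e4 : (g0 * β ^ 2 + g1 * β * (β - δ + 1) + g2 * (β - δ + 1) ^ 2) * (β - δ + 1)
      - β * (x0 * β + x1 * (β - δ + 1)) * (δ - β) * (1 - δ) = 0)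
    (e5 : (1 - δ) ^ 4 * (x0 * β + x1 * (β - δ + 1)) * (β - δ + 1) * (δ - β - 1)
      + (β - δ + 1) ^ 4 * (x0 * β * (δ - β) * (1 - δ)
      + (x0 * β + x1 * (β - δ + 1)) * (1 - δ - β * (δ - β))
      - (2 * g0 * β + g1 * (β - δ + 1)) * (β - δ + 1)) = 0) :
    β ^ 2 * δ * (β - δ) ^ 2 * (δ - 1) ^ 2 * (β - δ + 1) ^ 3 * x1 * F1 β δ = 0 := by
  rw [F1]
  linear_combination δ ^ 2 * (δ - 1) ^ 2 * (β - δ + 1) ^ 3 * (β ^ 4 * δ ^ 3 - β ^ 4 * δ ^ 2 - β ^ 4 * δ - β ^ 4 - 2 * β ^ 3 * δ ^ 4 + 6 * β ^ 3 * δ ^ 3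
      - 4 * β ^ 3 - 7 * β ^ 2 * δ ^ 4 + 7 * β ^ 2 * δ ^ 3 + 6 * β ^ 2 * δ - 6 * β ^ 2
      + β * δ ^ 6 + 3 * β * δ ^ 5 - 9 * β * δ ^ 4 + 5 * β * δ ^ 3 - 4 * β * δ ^ 2 + 8 * β * δ
      - 4 * β - δ ^ 7 + 2 * δ ^ 6 - 2 * δ ^ 4 + 2 * δ ^ 3 - 3 * δ ^ 2 + 3 * δ - 1) * e0
    + β ^ 2 * δ * (β - δ + 1) ^ 3 * (-2 * β ^ 5 * δ ^ 3 - β ^ 5 * δ - β ^ 5 + 7 * β ^ 4 * δ ^ 4 - 7 * β ^ 4 * δ ^ 3
      + 2 * β ^ 4 * δ ^ 2 - β ^ 4 * δ - 5 * β ^ 4 - 6 * β ^ 3 * δ ^ 5 + 18 * β ^ 3 * δ ^ 4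
      - 9 * β ^ 3 * δ ^ 3 + 3 * β ^ 3 * δ ^ 2 + 6 * β ^ 3 * δ - 10 * β ^ 3 - 2 * β ^ 2 * δ ^ 6
      - 14 * β ^ 2 * δ ^ 5 + 22 * β ^ 2 * δ ^ 4 - 8 * β ^ 2 * δ ^ 3 - 2 * β ^ 2 * δ ^ 2
      + 14 * β ^ 2 * δ - 10 * β ^ 2 + 5 * β * δ ^ 7 + 2 * β * δ ^ 6 - 23 * β * δ ^ 5
      + 21 * β * δ ^ 4 - 5 * β * δ ^ 3 - 6 * β * δ ^ 2 + 11 * β * δ - 5 * β - 3 * δ ^ 8
      + 5 * δ ^ 7 + 5 * δ ^ 6 - 15 * δ ^ 5 + 10 * δ ^ 4 - δ ^ 3 - 3 * δ ^ 2 + 3 * δ - 1) * e2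
    + β ^ 2 * (β - δ) * (δ - 1) * (β - δ + 1) ^ 3 * (-β ^ 4 + 2 * β ^ 3 * δ - 3 * β ^ 3 + 4 * β ^ 2 * δ - 3 * β ^ 2 - β * δ ^ 3 - 2 * β * δ ^ 2
      + 5 * β * δ - 2 * β + δ ^ 4 - δ ^ 3 - 2 * δ ^ 2 + 3 * δ - 1) * e3
    + δ ^ 2 * (β - δ + 1) ^ 2 * (β ^ 5 * δ ^ 3 + β ^ 5 * δ ^ 2 + β ^ 5 * δ + β ^ 5 - 2 * β ^ 4 * δ ^ 4 + β ^ 4 * δ ^ 3
      + β ^ 4 * δ ^ 2 + β ^ 4 * δ + 3 * β ^ 4 - 5 * β ^ 3 * δ ^ 4 + β ^ 3 * δ ^ 3 + 2 * β ^ 3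
      + β ^ 2 * δ ^ 6 + 5 * β ^ 2 * δ ^ 5 - 10 * β ^ 2 * δ ^ 4 + 4 * β ^ 2 * δ ^ 3
      - 2 * β ^ 2 * δ ^ 2 + 4 * β ^ 2 * δ - 2 * β ^ 2 - β * δ ^ 7 + β * δ ^ 6 + 5 * β * δ ^ 5
      - 9 * β * δ ^ 4 + 5 * β * δ ^ 3 - 5 * β * δ ^ 2 + 7 * β * δ - 3 * β - δ ^ 7 + 2 * δ ^ 6
      - 2 * δ ^ 4 + 2 * δ ^ 3 - 3 * δ ^ 2 + 3 * δ - 1) * e4
    + β * δ ^ 2 * (β - δ) * (δ - 1) * (-β ^ 2 * δ ^ 2 - β ^ 2 * δ - β ^ 2 + β * δ ^ 3 - β * δ ^ 2 - β * δ - 2 * β + δ ^ 4 + δ ^ 3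
      - 1) * e5

theorem f5 (g0 g1 g2 x0 x1 β δ : ℚ)
    (e0 : β * ((x0 * β + x1) * (δ - β) - (g0 * β ^ 2 + g1 * β + g2)) - (g0 * β ^ 2 + g1 * β + g2) = 0)
    (e1 : β ^ 4 * ((2 * g0 * β + g1) * (β + 1) + (g0 * β ^ 2 + g1 * β + g2) - (x0 * β + x1) * (1 - β)
      - (x0 * β + x1) * (δ - β) - β * x0 * (δ - β) + β * (x0 * β + x1))
      + ((x0 * β + x1) * (δ - β) - (g0 * β ^ 2 + g1 * β + g2)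
      + β * (x0 * (δ - β) - (2 * g0 * β + g1) - (x0 * β + x1)) - (2 * g0 * β + g1)) = 0)
    (e2 : (g0 * δ ^ 2 + g1 * δ + g2) * δ - (x0 * δ + x1) * (δ - β) * (1 - δ) = 0)
    (e3 : δ ^ 4 * ((2 * x0 * δ + x1) * (δ - β) - (3 * g0 * δ ^ 2 + 2 * g1 * δ + g2)
      + (x0 * (δ - β) + (x0 * δ + x1)) * (1 - 2 * δ) - 2 * (x0 * δ + x1) * (δ - β))
      + δ * (x0 * δ + x1) = 0)
    (e4 : (g0 * β ^ 2 + g1 * β * (β - δ + 1) + g2 * (β - δ + 1) ^ 2) * (β - δ + 1)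
      - β * (x0 * β + x1 * (β - δ + 1)) * (δ - β) * (1 - δ) = 0) :
    β ^ 2 * δ * (β - δ) ^ 2 * (β - 1) * (δ - 1) ^ 2 * (β + 1) * x1 * F5 β δ = 0 := by
  rw [F5]
  linear_combination δ ^ 2 * (β - 1) * (δ - 1) ^ 2 * (3 * β ^ 6 * δ ^ 2 + 3 * β ^ 6 * δ + 3 * β ^ 6 - 4 * β ^ 5 * δ ^ 3 + 4 * β ^ 5 * δ ^ 2
      + 4 * β ^ 5 * δ + 9 * β ^ 5 - 2 * β ^ 4 * δ ^ 4 - 6 * β ^ 4 * δ ^ 3 + 4 * β ^ 4 * δ ^ 2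
      + 2 * β ^ 4 * δ + 13 * β ^ 4 + β ^ 3 * δ ^ 5 - 2 * β ^ 3 * δ ^ 4 - 7 * β ^ 3 * δ ^ 3
      + 4 * β ^ 3 * δ ^ 2 + β ^ 3 * δ + 14 * β ^ 3 + β ^ 2 * δ ^ 5 - 2 * β ^ 2 * δ ^ 4
      - 8 * β ^ 2 * δ ^ 3 + β ^ 2 * δ ^ 2 - 2 * β ^ 2 * δ + 11 * β ^ 2 + β * δ ^ 5 - β * δ ^ 4
      - 4 * β * δ ^ 3 - 3 * β * δ + 5 * β + δ ^ 5 - δ ^ 3 - δ + 1) * e0
    + β * δ ^ 2 * (β - δ) * (δ - 1) ^ 2 * (β ^ 2 * δ ^ 2 + β ^ 2 * δ + β ^ 2 - β * δ ^ 3 + β * δ ^ 2 + β * δ + 2 * β - δ ^ 4 - δ ^ 3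
      + 1) * e1
    + β ^ 2 * δ * (β - 1) * (β + 1) * (-β ^ 5 * δ ^ 3 + β ^ 5 * δ ^ 2 - β ^ 5 + 4 * β ^ 4 * δ ^ 4 - 7 * β ^ 4 * δ ^ 3
      + 3 * β ^ 4 * δ ^ 2 + β ^ 4 * δ - 3 * β ^ 4 - 2 * β ^ 3 * δ ^ 5 + 14 * β ^ 3 * δ ^ 4
      - 13 * β ^ 3 * δ ^ 3 + 3 * β ^ 3 * δ ^ 2 + 2 * β ^ 3 * δ - 4 * β ^ 3 - 3 * β ^ 2 * δ ^ 6
      - 4 * β ^ 2 * δ ^ 5 + 16 * β ^ 2 * δ ^ 4 - 10 * β ^ 2 * δ ^ 3 + 2 * β ^ 2 * δ ^ 2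
      + 2 * β ^ 2 * δ - 4 * β ^ 2 - 2 * β * δ ^ 5 + 9 * β * δ ^ 4 - 6 * β * δ ^ 3 + β * δ ^ 2
      + 2 * β * δ - 3 * β - 3 * δ ^ 6 - δ ^ 5 + 6 * δ ^ 4 - 2 * δ ^ 3 + δ - 1) * e2
    + β ^ 2 * (β - δ) * (β - 1) * (δ - 1) * (β + 1) * (-β ^ 4 + β ^ 3 * δ - 3 * β ^ 3 + β ^ 2 * δ ^ 2 + 2 * β ^ 2 * δ - 3 * β ^ 2 + β * δ - 2 * β
      + δ ^ 2 + δ - 1) * e3
    + δ ^ 2 * (β - 1) * (β + 1) * (β ^ 4 + 2 * β ^ 3 - β ^ 2 * δ ^ 4 - β ^ 2 * δ ^ 3 + 2 * β ^ 2 - β * δ ^ 3 + 2 * β - δ ^ 4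
      - δ ^ 3 + 1) * e4

theorem res (β δ : ℚ) (h1 : F1 β δ = 0) (h5 : F5 β δ = 0) :
    (β + 1) * hom [64, 432, 1688, 5424, 14314, 32669, 63863, 108337, 161705, 213341, 253065,
      271124, 262106, 229850, 180880, 127848, 81342, 45598, 22442, 9345, 2667, 243, -109, -35, -3]
      β 1 = 0 := by
  rw [F1] at h1
  rw [F5] at h5
  simp only [hom]
  push_cast
  simp only [one_pow]
  linear_combination (β ^ 22 - 2 * β ^ 21 * δ + 6 * β ^ 21 - 10 * β ^ 20 * δ + β ^ 19 * δ ^ 3 - 156 * β ^ 19 * δ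
      - 258 * β ^ 19 + 3 * β ^ 18 * δ ^ 3 + 63 * β ^ 18 * δ ^ 2 - 1723 * β ^ 18 * δ
      - 2159 * β ^ 18 + 91 * β ^ 17 * δ ^ 3 + 784 * β ^ 17 * δ ^ 2 - 8693 * β ^ 17 * δ
      - 9120 * β ^ 17 + 939 * β ^ 16 * δ ^ 3 + 3954 * β ^ 16 * δ ^ 2 - 26760 * β ^ 16 * δ
      - 25452 * β ^ 16 + 3868 * β ^ 15 * δ ^ 3 + 11241 * β ^ 15 * δ ^ 2 - 61666 * β ^ 15 * δ
      - 55197 * β ^ 15 + 9610 * β ^ 14 * δ ^ 3 + 22409 * β ^ 14 * δ ^ 2 - 117519 * β ^ 14 * δ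
      - 100087 * β ^ 14 + 18415 * β ^ 13 * δ ^ 3 + 36791 * β ^ 13 * δ ^ 2 - 189048 * β ^ 13 * δ
      - 154475 * β ^ 13 + 29751 * β ^ 12 * δ ^ 3 + 51423 * β ^ 12 * δ ^ 2 - 262383 * β ^ 12 * δ
      - 207772 * β ^ 12 + 40322 * β ^ 11 * δ ^ 3 + 60283 * β ^ 11 * δ ^ 2 - 322730 * β ^ 11 * δ
      - 248226 * β ^ 11 + 47383 * β ^ 10 * δ ^ 3 + 61411 * β ^ 10 * δ ^ 2 - 352992 * β ^ 10 * δ
      - 264647 * β ^ 10 + 49089 * β ^ 9 * δ ^ 3 + 54156 * β ^ 9 * δ ^ 2 - 346010 * β ^ 9 * δ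
      - 253870 * β ^ 9 + 44680 * β ^ 8 * δ ^ 3 + 40815 * β ^ 8 * δ ^ 2 - 304632 * β ^ 8 * δ
      - 218470 * β ^ 8 + 36196 * β ^ 7 * δ ^ 3 + 26023 * β ^ 7 * δ ^ 2 - 238495 * β ^ 7 * δ
      - 167797 * β ^ 7 + 25463 * β ^ 6 * δ ^ 3 + 12181 * β ^ 6 * δ ^ 2 - 165818 * β ^ 6 * δ
      - 114485 * β ^ 6 + 15046 * β ^ 5 * δ ^ 3 + 2549 * β ^ 5 * δ ^ 2 - 101023 * β ^ 5 * δ
      - 68418 * β ^ 5 + 7407 * β ^ 4 * δ ^ 3 - 1720 * β ^ 4 * δ ^ 2 - 52459 * β ^ 4 * δ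
      - 35189 * β ^ 4 + 2696 * β ^ 3 * δ ^ 3 - 2579 * β ^ 3 * δ ^ 2 - 22997 * β ^ 3 * δ
      - 15117 * β ^ 3 + 728 * β ^ 2 * δ ^ 3 - 1464 * β ^ 2 * δ ^ 2 - 7772 * β ^ 2 * δ
      - 5148 * β ^ 2 + 88 * β * δ ^ 3 - 568 * β * δ ^ 2 - 1952 * β * δ - 1256 * β - 88 * δ ^ 2
      - 248 * δ - 168) * h1
    + (-β ^ 22 + β ^ 21 * δ ^ 2 + β ^ 21 * δ - 5 * β ^ 21 - 3 * β ^ 20 * δ ^ 3
      + 10 * β ^ 20 * δ ^ 2 + β ^ 20 * δ + 18 * β ^ 20 + β ^ 19 * δ ^ 4 - 17 * β ^ 19 * δ ^ 3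
      + 17 * β ^ 19 * δ ^ 2 + 159 * β ^ 19 * δ + 323 * β ^ 19 + 2 * β ^ 18 * δ ^ 5
      - 154 * β ^ 18 * δ ^ 3 - 171 * β ^ 18 * δ ^ 2 + 1922 * β ^ 18 * δ + 2354 * β ^ 18
      + 6 * β ^ 17 * δ ^ 5 + 210 * β ^ 17 * δ ^ 4 - 1901 * β ^ 17 * δ ^ 3
      - 1382 * β ^ 17 * δ ^ 2 + 9069 * β ^ 17 * δ + 11590 * β ^ 17 + 182 * β ^ 16 * δ ^ 5
      + 2240 * β ^ 16 * δ ^ 4 - 11427 * β ^ 16 * δ ^ 3 - 6063 * β ^ 16 * δ ^ 2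
      + 24974 * β ^ 16 * δ + 40964 * β ^ 16 + 1878 * β ^ 15 * δ ^ 5 + 9141 * β ^ 15 * δ ^ 4
      - 39292 * β ^ 15 * δ ^ 3 - 18680 * β ^ 15 * δ ^ 2 + 49951 * β ^ 15 * δ + 108750 * β ^ 15
      + 7736 * β ^ 14 * δ ^ 5 + 22366 * β ^ 14 * δ ^ 4 - 93608 * β ^ 14 * δ ^ 3
      - 43134 * β ^ 14 * δ ^ 2 + 81730 * β ^ 14 * δ + 228908 * β ^ 14 + 19220 * β ^ 13 * δ ^ 5
      + 42139 * β ^ 13 * δ ^ 4 - 176791 * β ^ 13 * δ ^ 3 - 80371 * β ^ 13 * δ ^ 2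
      + 110727 * β ^ 13 * δ + 400666 * β ^ 13 + 36830 * β ^ 12 * δ ^ 5 + 67308 * β ^ 12 * δ ^ 4
      - 280120 * β ^ 12 * δ ^ 3 - 128294 * β ^ 12 * δ ^ 2 + 122970 * β ^ 12 * δ
      + 599872 * β ^ 12 + 59502 * β ^ 11 * δ ^ 5 + 90745 * β ^ 11 * δ ^ 4
      - 377978 * β ^ 11 * δ ^ 3 - 177912 * β ^ 11 * δ ^ 2 + 112104 * β ^ 11 * δ
      + 780043 * β ^ 11 + 80644 * β ^ 10 * δ ^ 5 + 106485 * β ^ 10 * δ ^ 4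
      - 444596 * β ^ 10 * δ ^ 3 - 215128 * β ^ 10 * δ ^ 2 + 79376 * β ^ 10 * δ + 893279 * β ^ 10
      + 94766 * β ^ 9 * δ ^ 5 + 110406 * β ^ 9 * δ ^ 4 - 462103 * β ^ 9 * δ ^ 3
      - 230703 * β ^ 9 * δ ^ 2 + 35478 * β ^ 9 * δ + 908774 * β ^ 9 + 98178 * β ^ 8 * δ ^ 5
      + 100491 * β ^ 8 * δ ^ 4 - 425038 * β ^ 8 * δ ^ 3 - 220770 * β ^ 8 * δ ^ 2
      - 6893 * β ^ 8 * δ + 823405 * β ^ 8 + 89360 * β ^ 7 * δ ^ 5 + 81964 * β ^ 7 * δ ^ 4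
      - 347514 * β ^ 7 * δ ^ 3 - 187537 * β ^ 7 * δ ^ 2 - 39547 * β ^ 7 * δ + 662879 * β ^ 7
      + 72392 * β ^ 6 * δ ^ 5 + 58281 * β ^ 6 * δ ^ 4 - 247920 * β ^ 6 * δ ^ 3
      - 142009 * β ^ 6 * δ ^ 2 - 53804 * β ^ 6 * δ + 468372 * β ^ 6 + 50926 * β ^ 5 * δ ^ 5
      + 35411 * β ^ 5 * δ ^ 4 - 151161 * β ^ 5 * δ ^ 3 - 92759 * β ^ 5 * δ ^ 2
      - 50187 * β ^ 5 * δ + 284989 * β ^ 5 + 30092 * β ^ 4 * δ ^ 5 + 18293 * β ^ 4 * δ ^ 4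
      - 77242 * β ^ 4 * δ ^ 3 - 50957 * β ^ 4 * δ ^ 2 - 35304 * β ^ 4 * δ + 145569 * β ^ 4
      + 14814 * β ^ 3 * δ ^ 5 + 7127 * β ^ 3 * δ ^ 4 - 31003 * β ^ 3 * δ ^ 3
      - 23098 * β ^ 3 * δ ^ 2 - 18595 * β ^ 3 * δ + 60007 * β ^ 3 + 5392 * β ^ 2 * δ ^ 5
      + 2296 * β ^ 2 * δ ^ 4 - 9604 * β ^ 2 * δ ^ 3 - 7620 * β ^ 2 * δ ^ 2 - 7348 * β ^ 2 * δ
      + 18844 * β ^ 2 + 1456 * β * δ ^ 5 + 368 * β * δ ^ 4 - 1848 * β * δ ^ 3 - 1888 * β * δ ^ 2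
      - 1800 * β * δ + 4008 * β + 176 * δ ^ 5 + 56 * δ ^ 4 - 200 * δ ^ 3 - 176 * δ ^ 2 - 264 * δ
      + 440) * h5

theorem elim (β δ : ℚ) (hδ : δ ≠ 0) (h1 : F1 β δ = 0) (h5 : β ≠ 1 → β ≠ -1 → F5 β δ = 0) :
    False := by
  by_cases hb1 : β = 1
  · refine noRat [-11, 9, 3, 3, -6, 0, 1] 3 (by norm_num) (by decide) δ ?_
    rw [hb1, F1] at h1
    simp only [hom]
    push_cast
    simp only [one_pow]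
    linear_combination (1 / 2) * h1
  by_cases hb2 : β = -1
  · rw [hb2, F1] at h1
    have h2 : δ ^ 4 * (δ ^ 2 - δ + 1) = 0 := by linear_combination (1 / 2) * h1
    exact mul_ne_zero (pow_ne_zero _ hδ) (by nlinarith [sq_nonneg (2 * δ - 1)]) h2
  exact mul_ne_zero (fun h => hb2 (by linarith)) (noRat _ 7 (by norm_num) (by decide) β)
    (res β δ h1 (h5 hb1 hb2))

theorem tang {a b c e f : ℚ[X]} (h : a ^ 5 + b ^ 5 + c ^ 5 + e ^ 5 + f ^ 5 = 0)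
    (h0 : a + b + c + e + f = 0) (r p G : ℚ) (hG : G ≠ 0) (h1 : (c + e).eval r = 0)
    (h3 : f.eval r = 0) (ha : a.eval r = G * p) (hc : c.eval r = -G) :
    p ^ 4 * (derivative (a + b)).eval r + (derivative (c + e)).eval r = 0 := by
  have h2 : (a + b).eval r = 0 := by
    have := congrArg (eval r) h0
    simp only [eval_add, eval_zero] at this h1 ⊢
    linarith
  have := tangent h r h2 h1 h3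
  rw [ha, hc] at this
  exact mul_left_cancel₀ (pow_ne_zero 4 hG) (by linear_combination this)

end B1nA

open B1nA in
theorem p_B1N :
    S_B1N := by
  intro β δ φ g0 g1 g2 a0 a1 b0 b1 g A B hg hA hB hS bβ bδ bφ vβ vδ vφ gβ gδ gφ hβ hδ hδ1 ha1
  have t1 := tang (a := g * X - A * B * (1 - X)) (b := g - X * A + X * A * B) (c := -g)
    (e := X * (A - g - A * B)) (f := A * B * (1 - X)) (by linear_combination hS) (by ring) β β _ gβ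
    (by rw [← vβ]; simp only [eval_add, eval_sub, eval_neg]; ring) (by simp [bβ]) (by simp [bβ])
    (by simp)
  have t3 := tang (a := A * B * (1 - X)) (b := X * (A - g - A * B)) (c := -g)
    (e := g - X * A + X * A * B) (f := g * X - A * B * (1 - X)) (by linear_combination hS)
    (by ring) δ δ _ gδ (by simp [bδ]) vδ
    (by simp only [eval_sub, eval_mul, eval_X] at vδ ⊢; linarith) (by simp)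
  have t5 := tang (a := X * (A - g - A * B)) (b := g * X - A * B * (1 - X)) (c := -g)
    (e := A * B * (1 - X)) (f := g - X * A + X * A * B) (by linear_combination hS)
    (by ring) φ (1 - φ) _ gφ
    (by simp only [eval_add, eval_sub, eval_mul, eval_neg, eval_X, eval_one, bφ] at vφ ⊢; linarith)
    vφ
    (by simp only [eval_add, eval_sub, eval_mul, eval_X, bφ] at vφ ⊢; linarith) (by simp)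
  subst hg hA hB
  simp at t1 t3 t5 vβ vδ vφ bβ bδ bφ
  have hD : b0 * (δ - β) = 1 := by linear_combination bδ - bβ
  have hD0 : δ - β ≠ 0 := right_ne_zero_of_mul_eq_one hD
  have hφ : φ * (β - δ + 1) = β := by
    linear_combination (δ - β) * bφ - (δ - β) * bβ - (φ - β) * hD
  have hw : β - δ + 1 ≠ 0 := fun h => hβ (by rw [← hφ, h, mul_zero])
  obtain ⟨x0, rfl⟩ : ∃ x0, a0 = x0 * (δ - β) := ⟨a0 / (δ - β), by field_simp⟩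
  obtain ⟨x1, rfl⟩ : ∃ x1, a1 = x1 * (δ - β) := ⟨a1 / (δ - β), by field_simp⟩
  have hx1 : x1 ≠ 0 := left_ne_zero_of_mul ha1
  obtain rfl : b1 = -(b0 * β) := by linear_combination bβ
  obtain rfl : b0 = (δ - β)⁻¹ := eq_inv_of_mul_eq_one_left hD
  obtain hφ' : φ = β / (β - δ + 1) := by field_simp; exact hφ
  subst hφ'
  have hβδ : β - δ ≠ 0 := fun h => hD0 (by linarith)
  have hδ1' : δ - 1 ≠ 0 := sub_ne_zero.mpr hδ1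
  have k1 := f1 g0 g1 g2 x0 x1 β δ (by linear_combination (norm := (field_simp; ring)) vβ)
    (by linear_combination (norm := (field_simp; ring)) vδ)
    (by linear_combination (norm := (field_simp; ring)) t3)
    (by linear_combination (norm := (field_simp; ring)) (β - δ + 1) ^ 3 * vφ)
    (by linear_combination (norm := (field_simp; ring)) (β - δ + 1) ^ 6 * t5)
  have k5 := f5 g0 g1 g2 x0 x1 β δ (by linear_combination (norm := (field_simp; ring)) vβ)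
    (by linear_combination (norm := (field_simp; ring)) t1)
    (by linear_combination (norm := (field_simp; ring)) vδ)
    (by linear_combination (norm := (field_simp; ring)) t3)
    (by linear_combination (norm := (field_simp; ring)) (β - δ + 1) ^ 3 * vφ)
  refine elim β δ hδ ((mul_eq_zero.mp k1).resolve_left (by positivity)) fun h1 h2 => ?_
  have h3 : β - 1 ≠ 0 := sub_ne_zero.mpr h1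
  have h4 : β + 1 ≠ 0 := fun h => h2 (by linarith)
  exact (mul_eq_zero.mp k5).resolve_left (by positivity)

end Pool.Agent.P.MP_440ce3_nt
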