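import Pool.Agent.P.MP_440ce3_nt.G.Iface

/-! Step BI of the Fermat quintic project. -/

namespace Pool.Agent.P.MP_440ce3_nt

open Polynomial

namespace BiA

theorem one1 {r : ℚ} {y1 y2 y3 y4 : ℚ[X]} (h : One4 r y1 y2 y3 y4) (h1 : y1.eval r = 0) :
    y2.eval r ≠ 0 ∧ y3.eval r ≠ 0 ∧ y4.eval r ≠ 0 := by
  unfold One4 at h
  refine ⟨fun h2 => ?_, fun h2 => ?_, fun h2 => ?_⟩ <;>
  · rw [if_pos h1, if_pos h2] at h
    omega

theorem one2 {r : ℚ} {y1 y2 y3 y4 : ℚ[X]} (h : One4 r y1 y2 y3 y4) (h1 : y2.eval r = 0) :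
    y3.eval r ≠ 0 ∧ y4.eval r ≠ 0 := by
  unfold One4 at h
  refine ⟨fun h2 => ?_, fun h2 => ?_⟩ <;>
  · rw [if_pos h1, if_pos h2] at h
    omega

theorem deg3 {u1 u2 u3 : ℚ[X]} (h : (u1 * u2 * u3).natDegree = 3) :
    u1 ≠ 0 ∧ u2 ≠ 0 ∧ u3 ≠ 0 ∧ u1.natDegree + u2.natDegree + u3.natDegree = 3 := by
  have h0 : u1 * u2 * u3 ≠ 0 := fun h0 => by simp [h0] at h
  have h1 := left_ne_zero_of_mul h0
  rw [natDegree_mul h1 (right_ne_zero_of_mul h0),
    natDegree_mul (left_ne_zero_of_mul h1) (right_ne_zero_of_mul h1)] at h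
  exact ⟨left_ne_zero_of_mul h1, right_ne_zero_of_mul h1, right_ne_zero_of_mul h0, h⟩

theorem unit {v : ℚ[X]} (h0 : v ≠ 0) (h : v.natDegree = 0) : IsUnit v :=
  isUnit_iff_degree_eq_zero.2 (by rw [degree_eq_natDegree h0, h]; rfl)

end BiA

open BiA in
theorem p_BI (hFAC : S_FAC) (hB1 : S_B1) :
    S_BI := by
  intro a b c e f r s t h hr hs ht
  obtain ⟨o1, o2, o3, -, u1, u2, u3, hf, d1, d2, d3, p1, p2, p3⟩ := hFAC a b c e f r s t h
  obtain ⟨-, -, -, -, v1, v2, v3, he, d1', d2', d3', q1, q2, q3⟩ := hFAC a b c f e r s t h.swap45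
  obtain ⟨r1, r2, r3⟩ := one1 o1 hr
  obtain ⟨s2, s3⟩ := one2 o2 hs
  obtain ⟨t2, t3⟩ := one2 o3 ht
  have S := fun x => congrArg (eval x) h.s1
  have Sr := S r
  have Ss := S s
  have St := S t
  have ra := h.ra
  have rb := h.rb
  have rc := h.rc
  have fr := h.fr
  have fs := h.fs
  have ft := h.ft
  rw [nz, if_neg r1, if_pos hs, if_pos ht] at p1
  rw [nz, if_neg r2, if_neg s2, if_neg t2] at p2
  rw [nz, if_neg r3, if_neg s3, if_neg t3] at p3
  simp only [eval_add, eval_zero] at Sr Ss St r1 r2 r3 s2 s3 t2 t3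
  have hs' := hs
  have ht' := ht
  rw [eval_add] at hs' ht'
  rw [nz, if_neg (by rw [eval_add]; intro h0; exact fr (by linarith)),
    if_neg (by rw [eval_add]; intro h0; exact s3 (by linarith)),
    if_neg (by rw [eval_add]; intro h0; exact t2 (by linarith))] at q1
  rw [nz, if_neg (by rw [eval_add]; intro h0; exact r3 (by linarith)),
    if_neg (by rw [eval_add]; intro h0; exact fs (by linarith)),
    if_pos (by rw [eval_add]; linarith)] at q2
  rw [nz, if_neg (by rw [eval_add]; intro h0; exact r2 (by linarith)),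
    if_pos (by rw [eval_add]; linarith),
    if_neg (by rw [eval_add]; intro h0; exact ft (by linarith))] at q3
  obtain ⟨n1, -, -, du⟩ := deg3 (hf ▸ h.degf)
  obtain ⟨m1, m2, m3, dv⟩ := deg3 (he ▸ h.dege)
  rw [Nat.odd_iff] at p1 p2 p3 q1 q2 q3
  have k1 : u1 ∣ f := hf ▸ (dvd_mul_right u1 u2).mul_right u3
  have k2 : v1 ∣ e := he ▸ (dvd_mul_right v1 v2).mul_right v3
  have k3 : u1 * v1 ∣ b + c := by
    refine IsCoprime.mul_dvd ((h.cop.symm.of_isCoprime_of_dvd_left k1).of_isCoprime_of_dvd_right k2)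
      ?_ ?_
    · rw [show b + c = -(e + a + f) by linear_combination h.s1]
      exact (dvd_add d1 k1).neg_right
    · rw [show b + c = -(f + a + e) by linear_combination h.s1]
      exact (dvd_add d1' k2).neg_right
  have k4 := h.gd.pair 1 2 (by decide)
  have k5 := natDegree_le_of_dvd k3 k4.1
  have k6 : (b + c).natDegree = 3 := k4.2
  rw [natDegree_mul n1 m1, k6] at k5
  by_cases h3 : v3.natDegree = 0
  · exact hB1 a b c e f r s t u1 u2 u3 v1 (v2 * v3) h hr hs ht hf (by omega) (by omega) (by omega)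
      d1 d2 d3 (by rw [he, mul_assoc]) (by rw [natDegree_mul m2 m3]; omega) d1'
      ((unit m3 h3).mul_right_dvd.2 d2')
  · exact hB1 a c b e f r t s u1 u3 u2 v1 (v3 * v2) h.swap23 hr ht hs (by rw [hf]; ring)
      (by omega) (by omega) (by omega) d1 d3 d2 (by rw [he]; ring)
      (by rw [natDegree_mul m3 m2]; omega) d1' ((unit m2 (by omega)).mul_right_dvd.2 d3')

end Pool.Agent.P.MP_440ce3_nt
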