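import Pool.Agent.P.MP_440ce3_nt.G.Iface

/-! Step D2 of the Fermat quintic project. -/

namespace Pool.Agent.P.MP_440ce3_nt

open Polynomial

namespace D2A

theorem r1 (k : ℚ) : -8 * k ^ 2 - 11 * k + 1 ≠ 0 := fun h =>
  noRat [1, -11, -8] 5 (by norm_num) (by decide) k
    (by simp only [hom]; push_cast; simp; linarith)

theorem r2 (k : ℚ) : k ^ 4 - 3 * k ^ 3 + 2 * k ^ 2 + 1 ≠ 0 := fun h =>
  noRat [1, 0, 2, -3, 1] 5 (by norm_num) (by decide) k
    (by simp only [hom]; push_cast; simp; linarith)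

end D2A

theorem p_D2 (hHESSE : S_HESSE) :
    S_D2 := by
  intro a b c e f κ hg hs hne h2
  have h5 := hg.five
  have he : e ≠ 0 := hne 3
  have hf : f ≠ 0 := hne 4
  obtain ⟨k, rfl⟩ : ∃ k : ℚ, κ = -2 * k := ⟨-κ / 2, by ring⟩
  have hC : C (-2 * k) = -2 * C k := by
    rw [map_mul, map_neg, map_ofNat]
  rw [hC] at h2
  have hfe : f = -(a + b + c + e) := by linear_combination hs
  have hid : 30 * (a * b * c) * (e * f) =
      -5 * (a ^ 2 + b ^ 2 + c ^ 2 + e ^ 2 + f ^ 2) * (a ^ 3 + b ^ 3 + c ^ 3 + e ^ 3 + f ^ 3) +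
        6 * (a ^ 5 + b ^ 5 + c ^ 5 + e ^ 5 + f ^ 5) := by
    rw [hfe]; ring
  have h30 : (30 : ℚ[X]) ≠ 0 := by
    rw [← map_ofNat C 30]; exact C_ne_zero.mpr (by norm_num)
  have h2' : (2 : ℚ[X]) ≠ 0 := by
    rw [← map_ofNat C 2]; exact C_ne_zero.mpr (by norm_num)
  have hp3 : a ^ 3 + b ^ 3 + c ^ 3 + e ^ 3 + f ^ 3 = 3 * (e * f * (a + b + c) -
      (a + b + c) * (a * b + b * c + c * a) + a * b * c) := by
    rw [hfe]; ring
  have hp2 : a ^ 2 + b ^ 2 + c ^ 2 + e ^ 2 + f ^ 2 = 2 * ((a + b + c) ^ 2 -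
      (a * b + b * c + c * a) - e * f) := by
    rw [hfe]; ring
  have e3 : a * b * c = C k * (e * f * (a + b + c) -
      (a + b + c) * (a * b + b * c + c * a) + a * b * c) := by
    refine mul_left_cancel₀ (mul_ne_zero h30 (mul_ne_zero he hf)) ?_
    rw [h2, h5, hp3] at hid
    linear_combination hid
  have e2 : e * f - (a + b + c) ^ 2 + (a * b + b * c + c * a) = C k * (e * f) := by
    refine mul_left_cancel₀ h2' ?_
    rw [hp2] at h2
    linear_combination -h2
  have hk0 : k ≠ 0 := by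
    rintro rfl
    have h3 := congrArg (eval 0) h2
    simp only [eval_add, eval_pow, map_zero, mul_zero, zero_mul, eval_zero] at h3
    refine hg.v1 0 0 1 (by decide) ?_ ?_
    · show a.eval 0 = 0
      nlinarith [sq_nonneg (a.eval 0), sq_nonneg (b.eval 0), sq_nonneg (c.eval 0),
        sq_nonneg (e.eval 0), sq_nonneg (f.eval 0)]
    · show b.eval 0 = 0
      nlinarith [sq_nonneg (a.eval 0), sq_nonneg (b.eval 0), sq_nonneg (c.eval 0),
        sq_nonneg (e.eval 0), sq_nonneg (f.eval 0)]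
  have hk1 : k ≠ 1 := by
    rintro rfl
    have h3 : (a + b) ^ 2 + (b + c) ^ 2 + (c + a) ^ 2 = 0 := by
      rw [map_one] at e2
      linear_combination -2 * e2
    have h4 := congrArg (eval 0) h3
    simp only [eval_add, eval_pow, eval_zero] at h4
    have q1 : a.eval 0 + b.eval 0 = 0 := by
      nlinarith [sq_nonneg (a.eval 0 + b.eval 0), sq_nonneg (b.eval 0 + c.eval 0),
        sq_nonneg (c.eval 0 + a.eval 0)]
    have q2 : b.eval 0 + c.eval 0 = 0 := by
      nlinarith [sq_nonneg (a.eval 0 + b.eval 0), sq_nonneg (b.eval 0 + c.eval 0),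
        sq_nonneg (c.eval 0 + a.eval 0)]
    have q3 : c.eval 0 + a.eval 0 = 0 := by
      nlinarith [sq_nonneg (a.eval 0 + b.eval 0), sq_nonneg (b.eval 0 + c.eval 0),
        sq_nonneg (c.eval 0 + a.eval 0)]
    refine hg.v1 0 0 1 (by decide) ?_ ?_
    · show a.eval 0 = 0
      linarith
    · show b.eval 0 = 0
      linarith
  have hd := hHESSE ((k - 1) ^ 2) (k * (k - 2)) k a b c (pow_ne_zero 2 (sub_ne_zero.mpr hk1))
    (fun h => D2A.r1 k (by linear_combination h))
    (fun h => mul_ne_zero hk0 (D2A.r2 k) (by linear_combination -h))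
    (fun π hπ h1 h2 h3 => hg.v3 π hπ 0 1 2 (by decide) (by decide) (by decide) h1 h2 h3)
    (by
      simp only [map_pow, map_sub, map_mul, map_one, map_ofNat]
      linear_combination (1 - C k) * e3 + C k * (a + b + c) * e2)
  have := (hg.deg 0).resolve_left (hne 0)
  have h6 : a.natDegree = 2 := this
  omega

end Pool.Agent.P.MP_440ce3_nt
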