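import Pool.Agent.P.MP_440ce3_nt.G.Iface

/-! Step D3 of the Fermat quintic project. -/

namespace Pool.Agent.P.MP_440ce3_nt

open Polynomial

namespace D3A

theorem core (hFAC : S_FAC) (hBI : S_BI) (hBIII : S_BIII) {a b c e f : ℚ[X]} {r s t : ℚ}
    (h : D3 a b c e f r s t) (hr : (e + f).eval r = 0) (hs : (e + f).eval s ≠ 0)
    (ht : (e + f).eval t ≠ 0) : False := by
  obtain ⟨-, h2, h3, -⟩ := hFAC a b c e f r s t h
  have eb : (e + b).eval s ≠ 0 := by rw [eval_add, h.rb, add_zero]; exact h.es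
  have ec : (e + c).eval t ≠ 0 := by rw [eval_add, h.rc, add_zero]; exact h.et
  have k2 : (e + a).eval s = 0 ∨ (e + c).eval s = 0 := by
    by_contra hn
    rw [One4, if_neg hs, if_neg eb, if_neg (not_or.1 hn).1, if_neg (not_or.1 hn).2] at h2
    omega
  have k3 : (e + a).eval t = 0 ∨ (e + b).eval t = 0 := by
    by_contra hn
    rw [One4, if_neg ht, if_neg ec, if_neg (not_or.1 hn).1, if_neg (not_or.1 hn).2] at h3
    omega
  rcases k2 with k2 | k2 <;> rcases k3 with k3 | k3
  · exact hBI _ _ _ _ _ _ _ _ h hr k2 k3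
  · exact hBIII _ _ _ _ _ _ _ _ h hr k2 k3
  · exact hBIII _ _ _ _ _ _ _ _ h.swap23 hr k3 k2
  · have e1 := congrArg (eval s) h.s1
    have e2 := congrArg (eval t) h.s1
    have e3 := h.rb
    have e4 := h.rc
    refine hBI _ _ _ _ _ _ _ _ h.swap45 (add_comm e f ▸ hr) ?_ ?_ <;>
      simp only [eval_add, eval_zero] at * <;> linarith

end D3A

open D3A in
theorem p_D3 (hFAC : S_FAC) (hDA : S_DA) (hBI : S_BI) (hBIII : S_BIII) :
    S_D3 := by
  intro a b c e f r s t h
  have ho := (hFAC a b c e f r s t h).2.2.2.1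
  by_cases hr : (e + f).eval r = 0 <;> by_cases hs : (e + f).eval s = 0 <;>
    by_cases ht : (e + f).eval t = 0
  · exact hDA _ _ _ _ _ _ _ _ h hr hs ht
  · rw [nz, if_pos hr, if_pos hs, if_neg ht] at ho; exact absurd ho (by decide)
  · rw [nz, if_pos hr, if_neg hs, if_pos ht] at ho; exact absurd ho (by decide)
  · exact core hFAC hBI hBIII h hr hs ht
  · rw [nz, if_neg hr, if_pos hs, if_pos ht] at ho; exact absurd ho (by decide)
  · exact core hFAC hBI hBIII h.swap12 hs hr ht
  · exact core hFAC hBI hBIII h.swap23.swap12 ht hr hs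
  · rw [nz, if_neg hr, if_neg hs, if_neg ht] at ho; exact absurd ho (by decide)

end Pool.Agent.P.MP_440ce3_nt
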