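import Pool.Agent.P.MP_440ce3_nt.G.Iface

/-! Step DA of the Fermat quintic project. -/

namespace Pool.Agent.P.MP_440ce3_nt

open Polynomial

theorem p_DA (hHESSE : S_HESSE) :
    S_DA := by
  intro a b c e f r s t h hr hs ht
  obtain ⟨p0, pd⟩ : e + f ≠ 0 ∧ (e + f).natDegree = 3 := h.gd.pair 3 4 (by decide)
  have cp : ∀ x y : ℚ, x ≠ y → IsCoprime (X - C x) (X - C y) := fun x y hxy =>
    isCoprime_X_sub_C_of_isUnit_sub (sub_ne_zero.2 hxy).isUnit
  obtain ⟨g, hg⟩ : (X - C r) * (X - C s) * (X - C t) ∣ e + f :=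
    ((cp r t h.rt).mul_left (cp s t h.st)).mul_dvd
      ((cp r s h.rs).mul_dvd (dvd_iff_isRoot.2 hr) (dvd_iff_isRoot.2 hs)) (dvd_iff_isRoot.2 ht)
  have g0 : g ≠ 0 := fun e0 => p0 (by rw [hg, e0, mul_zero])
  have g1 : g.natDegree = 0 := by
    have m1 := ((monic_X_sub_C r).mul (monic_X_sub_C s)).mul (monic_X_sub_C t)
    rw [hg, natDegree_mul m1.ne_zero g0, ((monic_X_sub_C r).mul (monic_X_sub_C s)).natDegree_mul
      (monic_X_sub_C t), (monic_X_sub_C r).natDegree_mul (monic_X_sub_C s), natDegree_X_sub_C,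
      natDegree_X_sub_C, natDegree_X_sub_C] at pd
    omega
  obtain ⟨z, rfl⟩ := natDegree_eq_zero.1 g1
  have z0 : z ≠ 0 := fun e0 => g0 (by rw [e0, map_zero])
  obtain ⟨k, k0, hk⟩ := h.p3
  obtain ⟨κ, κ0, rfl⟩ : ∃ κ : ℚ, κ ≠ 0 ∧ k = 3 * κ * z :=
    ⟨k / (3 * z), div_ne_zero k0 (mul_ne_zero three_ne_zero z0), by field_simp⟩
  have h5 := h.gd.five
  have hf : f = -(a + b + c) - e := by linear_combination h.s1
  have s0 : a + b + c ≠ 0 := fun e0 => p0 (by linear_combination h.s1 - e0)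
  have m0 : e * f ≠ 0 := mul_ne_zero (h.ne 3) (h.ne 4)
  rw [map_mul, map_mul, map_ofNat] at hk
  have a0 : a ^ 3 + b ^ 3 + c ^ 3 + e ^ 3 + f ^ 3 = 3 * C κ * (e + f) * (e * f) := by
    rw [hg]
    linear_combination hk
  have a1 : e * f * (a + b + c) - (a + b + c) * (a * b + b * c + c * a) + a * b * c =
      -C κ * (e * f) * (a + b + c) := by
    refine mul_left_cancel₀ (show (3 : ℚ[X]) ≠ 0 by norm_num) ?_
    subst hf
    linear_combination a0
  have a2 : e * f * (a * b * c) = (e * f - (a + b + c) ^ 2 + (a * b + b * c + c * a)) *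
      (e * f * (a + b + c) - (a + b + c) * (a * b + b * c + c * a) + a * b * c) := by
    refine mul_left_cancel₀ (show (5 : ℚ[X]) ≠ 0 by norm_num) ?_
    subst hf
    linear_combination h5
  have a3 : a * b * c =
      -C κ * (a + b + c) * (e * f - (a + b + c) ^ 2 + (a * b + b * c + c * a)) := by
    refine mul_left_cancel₀ m0 ?_
    rw [a2, a1]
    ring
  have a4 : e * f = (1 + C κ) * (a * b + b * c + c * a) - C κ * (a + b + c) ^ 2 := by
    refine mul_left_cancel₀ s0 ?_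
    linear_combination a1 - a3
  rw [a4] at a3
  have κ1 : κ + 1 ≠ 0 := fun e0 => by
    have e1 : C κ = -1 := by rw [eq_neg_of_add_eq_zero_left e0, map_neg, map_one]
    rw [e1] at a3
    have q1 : a + b ≠ 0 := (h.gd.pair 0 1 (by decide)).1
    have q2 : b + c ≠ 0 := (h.gd.pair 1 2 (by decide)).1
    have q3 : c + a ≠ 0 := (h.gd.pair 2 0 (by decide)).1
    exact mul_ne_zero (mul_ne_zero q1 q2) q3 (by linear_combination -a3)
  have n1 : 1 - 9 * κ - 18 * κ ^ 2 ≠ 0 := fun e0 =>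
    noRat [1, -9, -18] 5 (by norm_num) (by decide) κ
      (by simp only [hom]; push_cast; simp; linarith)
  have n2 : κ ^ 4 + 5 * κ ^ 3 + 8 * κ ^ 2 + 4 * κ + 1 ≠ 0 := fun e0 =>
    noRat [1, 4, 8, 5, 1] 2 (by norm_num) (by decide) κ
      (by simp only [hom]; push_cast; simp; linarith)
  have := hHESSE 1 (-κ * (2 + κ)) (κ * (1 + κ)) a b c one_ne_zero
    (fun e0 => n1 (by linear_combination e0))
    (fun e0 => mul_ne_zero (mul_ne_zero κ0 κ1) n2 (by linear_combination -e0))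
    (fun π hπ => h.gd.v3 π hπ 0 1 2 (by decide) (by decide) (by decide)) (by
      simp only [map_one, map_mul, map_neg, map_add, map_ofNat]
      linear_combination a3)
  have d3 : a.natDegree = 3 := (h.gd.deg 0).resolve_left (h.ne 0)
  omega

end Pool.Agent.P.MP_440ce3_nt
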