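import Pool.Agent.P.MP_440ce3_nt.G.Iface

/-! Step E1N of the Fermat quintic project. -/

namespace Pool.Agent.P.MP_440ce3_nt

open Polynomial

theorem p_E1N :
    S_E1N := by
  intro ρ η g0 g1 g2 g h T M hg hh hT hM hS hρ hη hg2 h1 hv
  have t1 := tangent (a := -(h * M)) (b := -g) (c := -(g * X) - h * T) (e := g + h * T)
    (f := g * X + h * M) (by linear_combination hS) 1
    (by simp only [eval_add, eval_neg, eval_mul, eval_X] at hv ⊢; linarith) (by simp) hv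
  have d1 := congrArg (fun p => eval 0 (derivative p)) hS
  have d2 := congrArg (fun p => eval 0 (derivative (derivative p))) hS
  subst hM hT hh hg
  simp [derivative_pow] at d1 d2 t1 hv
  have e2 : g2 = -(ρ * η) := by
    have h3 : g2 ^ 3 = (-(ρ * η)) ^ 3 := by
      have : g2 * η * ρ ^ 5 * (g2 ^ 3 - (-(ρ * η)) ^ 3) = 0 := by linear_combination (1 / 5) * d1
      exact sub_eq_zero.mp ((mul_eq_zero.mp this).resolve_left (by positivity))
    exact (Odd.pow_inj (by decide)).mp h3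
  subst e2
  have e1 : 3 * g1 - η * (5 - 4 * ρ ^ 4 - 2 * ρ ^ 5) = 0 := by
    have : η ^ 4 * ρ ^ 8 * (3 * g1 - η * (5 - 4 * ρ ^ 4 - 2 * ρ ^ 5)) = 0 := by
      linear_combination (-1 / 10) * d2
    exact (mul_eq_zero.mp this).resolve_left (by positivity)
  have hq : 1 - ρ + ρ ^ 2 ≠ 0 := by nlinarith [sq_nonneg (2 * ρ - 1)]
  have hA : g0 + g1 - ρ * η = -(η * (1 - ρ + ρ ^ 2) * (1 + ρ ^ 3)) := by linear_combination hv
  have hB : (1 + ρ ^ 3) ^ 4 * (-(η * (2 - ρ) * (1 + ρ ^ 3) + η * (1 - ρ + ρ ^ 2) * ρ ^ 3)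
      - (2 * g0 + g1)) - (g0 + g1 - ρ * η) = 0 := by
    have e0 : g0 = -(η * (1 - ρ + ρ ^ 2) * (1 + ρ ^ 3)) - g1 + ρ * η := by linear_combination hA
    have : (η * (1 - ρ + ρ ^ 2)) ^ 4 * ((1 + ρ ^ 3) ^ 4 * (-(η * (2 - ρ) * (1 + ρ ^ 3) +
        η * (1 - ρ + ρ ^ 2) * ρ ^ 3) - (2 * g0 + g1)) - (g0 + g1 - ρ * η)) = 0 := by
      subst e0
      linear_combination t1
    exact (mul_eq_zero.mp this).resolve_left (pow_ne_zero _ (mul_ne_zero hη hq))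
  have hd : η * ((1 + ρ ^ 3) * (1 - ρ + ρ ^ 2)) *
      hom [8, -4, -3, 13, -15, -9, 12, -18, -9, 5, -7, -3, 1] ρ 1 = 0 := by
    simp only [hom]
    push_cast
    simp only [one_pow]
    linear_combination (6 * ρ ^ 12 + 24 * ρ ^ 9 + 36 * ρ ^ 6 + 24 * ρ ^ 3 + 9) * hA + 3 * hB
      - (ρ ^ 12 + 4 * ρ ^ 9 + 6 * ρ ^ 6 + 4 * ρ ^ 3 + 1) * e1
  exact mul_ne_zero (mul_ne_zero hη (mul_ne_zero h1 hq))
    (noRat _ 5 (by norm_num) (by decide) ρ) hd

end Pool.Agent.P.MP_440ce3_nt
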