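import Pool.Agent.P.MP_440ce3_nt.G.Iface

/-! Step E2N of the Fermat quintic project. -/

namespace Pool.Agent.P.MP_440ce3_nt

open Polynomial

namespace E2nA

theorem rel (α g0 g1 g2 h0 h1 h2 : ℚ) (g h T M : ℚ[X]) (hg : g = C g0 * X ^ 2 + C g1 * X + C g2)
    (hh : h = C h0 * X ^ 2 + C h1 * X + C h2) (hM : M = -(C α * (1 - X))) (hT : T = M - 1)
    (hS : (g * X + h * M) ^ 5 + (-(g * X) - h * T) ^ 5 + (g + h * T) ^ 5 + (-(h * M)) ^ 5 +
      (-g) ^ 5 = 0) (hα : α ≠ 0) (hh2 : h2 ≠ 0) (v0 : (g + h * T).eval 0 = 0)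
    (v1 : (g * X + h * M).eval ((1 + α) / α) = 0) (hg0 : g.eval ((1 + α) / α) ≠ 0) :
    (α ^ 6 + 9 * α ^ 5 + 24 * α ^ 4 + 30 * α ^ 3 + 20 * α ^ 2 + 7 * α + 1) * h0 +
      (α ^ 5 - 3 * α ^ 4 - 12 * α ^ 3 - 13 * α ^ 2 - 6 * α - 1) * h1 +
      (4 * α ^ 5 + 7 * α ^ 4 + 9 * α ^ 3 + 9 * α ^ 2 + 5 * α + 1) * h2 = 0 := by
  obtain ⟨σ, hσ⟩ : ∃ σ, σ = (1 + α) / α := ⟨_, rfl⟩
  rw [← hσ] at v1 hg0
  have hσ' : α * σ = 1 + α := by rw [hσ]; field_simp
  have hT0 : T.eval σ = 0 := by rw [hT, hM]; simp; linear_combination hσ'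
  have hM0 : M.eval σ = 1 := by rw [hM]; simp; linear_combination hσ'
  have t1 := tangent (a := -(h * M)) (b := g * X + h * M) (c := -(g * X) - h * T) (e := -g)
    (f := g + h * T) (by linear_combination hS) 0 (by simp)
    (by simp only [eval_add, eval_neg, eval_mul, eval_X, eval_sub] at v0 ⊢; linarith) v0
  have t2 := tangent (a := -(g * X) - h * T) (b := -(h * M)) (c := -g) (e := g + h * T)
    (f := g * X + h * M) (by linear_combination hS) σ
    (by simp only [eval_add, eval_neg, eval_mul, eval_X, eval_sub, hT0] at v1 ⊢; linarith)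
    (by simp [hT0]) v1
  have t3 : σ ^ 4 * (derivative (-(g * X) - h * T + -(h * M))).eval σ +
      (derivative (-g + (g + h * T))).eval σ = 0 := by
    have : g.eval σ ^ 4 * (σ ^ 4 * (derivative (-(g * X) - h * T + -(h * M))).eval σ +
        (derivative (-g + (g + h * T))).eval σ) = 0 := by
      simp only [eval_sub, eval_neg, eval_mul, eval_X, hT0] at t2
      linear_combination t2
    exact (mul_eq_zero.mp this).resolve_left (pow_ne_zero _ hg0)
  simp only [derivative_add, derivative_sub, derivative_neg, derivative_mul, eval_add, eval_sub,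
    eval_neg, eval_mul, hT0, hM0, eval_X] at t3 v1
  subst hT hM hh hg
  simp at t1 t3 v0 v1
  have E2 : α ^ 4 * g2 + (1 + α) ^ 4 * (-g2 - g1 + h1 * (1 + α) - h2 * α) = 0 := by
    have : h2 ^ 4 * (α ^ 4 * g2 + (1 + α) ^ 4 * (-g2 - g1 + h1 * (1 + α) - h2 * α)) = 0 := by
      linear_combination t1
    exact (mul_eq_zero.mp this).resolve_left (pow_ne_zero _ hh2)
  subst hσ
  field_simp at t3 v1
  apply mul_left_cancel₀ hα
  linear_combination (-α * (1 + α)) * E2 - 3 * (1 + α) ^ 3 * v1 - t3 +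
    α * (1 + α) * (2 * α ^ 4 + 2 * α ^ 3 - 2 * α - 1) * v0

end E2nA

theorem p_E2N :
    S_E2N := by
  intro ρ η α g0 g1 g2 g h T M hg hh hα hM hT hS hρ hη hα0 v0 v1 hg0
  have hq : 1 + ρ + ρ ^ 2 ≠ 0 := by nlinarith [sq_nonneg (2 * ρ + 1)]
  have hq2 : ρ ^ 2 + 1 ≠ 0 := by positivity
  have hq1 : ρ + 1 ≠ 0 := fun h0 => hα0 (by rw [hα, h0]; ring)
  rcases hh with hh | hh
  · have := E2nA.rel α g0 g1 g2 η (η * (1 + ρ)) (η * (1 + ρ + ρ ^ 2)) g h T M hg
      (by rw [hh]; simp only [map_mul, map_add, map_pow, map_one]; ring) hM hT hS hα0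
      (mul_ne_zero hη hq) v0 v1 hg0
    have hd : η * (1 + ρ + ρ ^ 2) ^ 3 * (ρ ^ 2 + 1) *
        hom [1, 5, 15, 30, 43, 47, 38, 22, 8, 1, -1] ρ 1 = 0 := by
      simp only [hom]
      push_cast
      simp only [one_pow]
      subst hα
      linear_combination (-1) * this
    exact mul_ne_zero (mul_ne_zero (mul_ne_zero hη (pow_ne_zero _ hq)) hq2)
      (noRat _ 2 (by norm_num) (by decide) ρ) hd
  · have := E2nA.rel α g0 g1 g2 (-η) (η * (1 + ρ)) (-(η * ρ)) g h T M hg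
      (by rw [hh]; simp only [map_mul, map_add, map_neg, map_one]; ring) hM hT hS hα0
      (neg_ne_zero.mpr (mul_ne_zero hη hρ)) v0 v1 hg0
    have hd : η * ρ ^ 3 * (ρ + 1) *
        hom [-1, -5, -16, -38, -71, -103, -117, -101, -58, -14, 15, 20, 13, 5, 1] ρ 1 = 0 := by
      simp only [hom]
      push_cast
      simp only [one_pow]
      subst hα
      linear_combination (-1) * this
    exact mul_ne_zero (mul_ne_zero (mul_ne_zero hη (pow_ne_zero _ hρ)) hq1)
      (noRat _ 3 (by norm_num) (by decide) ρ) hd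

end Pool.Agent.P.MP_440ce3_nt
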