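import Pool.Agent.P.MP_440ce3_nt.G.Iface

/-! Step FAC of the Fermat quintic project. -/

namespace Pool.Agent.P.MP_440ce3_nt

open Polynomial

namespace FacA

theorem peel {y M : ℚ[X]} {r : ℚ} (h0 : y ≠ 0) (h : y ∣ (X - C r) * M) :
    ∃ z, z ≠ 0 ∧ z ∣ M ∧ z ∣ y ∧ y.natDegree = z.natDegree + (if y.eval r = 0 then 1 else 0) ∧
      ∀ s, r ≠ s → (y.eval s = 0 ↔ z.eval s = 0) := by
  by_cases hr : y.eval r = 0
  · obtain ⟨z, rfl⟩ := dvd_iff_isRoot.2 hr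
    have hz := right_ne_zero_of_mul h0
    refine ⟨z, hz, (mul_dvd_mul_iff_left (X_sub_C_ne_zero r)).1 h, dvd_mul_left _ _, ?_,
      fun s hs => ?_⟩
    · rw [if_pos hr, natDegree_mul (X_sub_C_ne_zero r) hz, natDegree_X_sub_C, add_comm]
    · simp [sub_ne_zero.2 hs.symm]
  · refine ⟨y, h0, ?_, dvd_rfl, by rw [if_neg hr, add_zero], fun _ _ => Iff.rfl⟩
    exact (((irreducible_X_sub_C r).coprime_iff_not_dvd.2
      fun a => hr (dvd_iff_isRoot.1 a)).symm).dvd_of_dvd_mul_left h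

theorem par {y Q : ℚ[X]} {r s t : ℚ} (rs : r ≠ s) (rt : r ≠ t) (st : s ≠ t) (h0 : y ≠ 0)
    (h : y ∣ (X - C r) * ((X - C s) * ((X - C t) * Q)))
    (hR : ∀ ρ : ℝ, aeval ρ Q = 0 → aeval ρ y = 0 → False) :
    ∃ m, y.natDegree = 2 * m + nz y r s t := by
  obtain ⟨z1, a1, b1, c1, d1, e1⟩ := peel h0 h
  obtain ⟨z2, a2, b2, c2, d2, e2⟩ := peel a1 b1
  obtain ⟨z3, -, b3, c3, d3, -⟩ := peel a2 b2
  have ev : Even z3.natDegree := Nat.not_odd_iff_even.1 fun ho => by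
    obtain ⟨ρ, hρ⟩ := odd_root ho
    exact hR ρ (aeval_eq_zero_of_dvd_aeval_eq_zero b3 hρ)
      (aeval_eq_zero_of_dvd_aeval_eq_zero (c3.trans (c2.trans c1)) hρ)
  obtain ⟨m, hm⟩ := ev
  refine ⟨m, ?_⟩
  rw [nz, d1, d2, d3, hm]
  simp only [e1 s rs, e1 t rt, e2 t st]
  omega

theorem odd {y u z f Q : ℚ[X]} {r s t : ℚ} (rs : r ≠ s) (rt : r ≠ t) (st : s ≠ t)
    (hy : y ≠ 0 ∧ y.natDegree = 3) (e : y = u * z) (hu : u ∣ f) (fr : f.eval r ≠ 0)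
    (fs : f.eval s ≠ 0) (ft : f.eval t ≠ 0) (h : z ∣ (X - C r) * ((X - C s) * ((X - C t) * Q)))
    (hR : ∀ ρ : ℝ, aeval ρ Q = 0 → aeval ρ y = 0 → False) : Odd (u.natDegree + nz y r s t) := by
  subst e
  obtain ⟨v, rfl⟩ := hu
  obtain ⟨m, hm⟩ := par rs rt st (right_ne_zero_of_mul hy.1) h fun ρ a b =>
    hR ρ a (by rw [map_mul, b, mul_zero])
  have h3 := hy.2
  rw [natDegree_mul (left_ne_zero_of_mul hy.1) (right_ne_zero_of_mul hy.1)] at h3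
  rw [eval_mul] at fr fs ft
  have e : nz (u * z) r s t = nz z r s t := by
    simp only [nz, eval_mul, mul_eq_zero, left_ne_zero_of_mul fr, left_ne_zero_of_mul fs,
      left_ne_zero_of_mul ft, false_or]
  rw [e, Nat.odd_iff]
  omega

theorem one4 {y1 y2 y3 y4 M Q : ℚ[X]} {r : ℚ} (h : y1 * y2 * y3 * y4 = (X - C r) * (M * Q))
    (hM : M.eval r ≠ 0) (hR : ∀ ρ : ℝ, aeval ρ Q = 0 → aeval ρ y1 ≠ 0 ∧ aeval ρ y2 ≠ 0 ∧
      aeval ρ y3 ≠ 0 ∧ aeval ρ y4 ≠ 0) : One4 r y1 y2 y3 y4 := by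
  have h1 := congrArg (eval r) h
  have h2 := congrArg (fun p => (derivative p).eval r) h
  simp only [eval_mul, eval_sub, eval_X, eval_C, sub_self, zero_mul, derivative_mul, eval_add,
    derivative_sub, derivative_X, derivative_C, sub_zero, one_mul, add_zero] at h1 h2
  have hQ : Q.eval r ≠ 0 := fun h0 => by
    have e : ∀ p : ℚ[X], aeval (algebraMap ℚ ℝ r) p = algebraMap ℚ ℝ (p.eval r) := fun p => by
      rw [aeval_algebraMap_apply, coe_aeval_eq_eval]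
    have := hR (algebraMap ℚ ℝ r) (by rw [e, h0, map_zero])
    simp only [e, ne_eq, map_eq_zero] at this
    exact mul_ne_zero (mul_ne_zero (mul_ne_zero this.1 this.2.1) this.2.2.1) this.2.2.2 h1
  have h3 := h2 ▸ mul_ne_zero hM hQ
  unfold One4
  by_cases a1 : y1.eval r = 0 <;> by_cases a2 : y2.eval r = 0 <;> by_cases a3 : y3.eval r = 0 <;>
    by_cases a4 : y4.eval r = 0 <;> simp_all

theorem sq3 {x y z : ℝ} (h : x ^ 2 + y ^ 2 + z ^ 2 = 0) : x = 0 ∧ y = 0 ∧ z = 0 :=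
  ⟨by nlinarith [sq_nonneg y, sq_nonneg z], by nlinarith [sq_nonneg x, sq_nonneg z],
    by nlinarith [sq_nonneg x, sq_nonneg y]⟩

end FacA

theorem p_FAC :
    S_FAC := by
  intro a b c e f r s t h
  obtain ⟨k, hk, h3⟩ := h.p3
  have h5 := h.gd.five
  set Q : ℚ[X] := C (k / 6) * (e ^ 2 - a ^ 2 - b ^ 2 - c ^ 2 - f ^ 2) with hQ
  have key : (e + f) * (e + a) * (e + b) * (e + c) =
      f * ((X - C r) * ((X - C s) * ((X - C t) * Q))) := by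
    have h6 : C k = 6 * C (k / 6) := by rw [← map_ofNat C 6, ← C_mul]; congr 1; ring
    have hf : f = -(a + b + c + e) := by linear_combination h.s1
    have i1 : 30 * e * ((e + f) * (e + a) * (e + b) * (e + c)) =
        5 * (a ^ 3 + b ^ 3 + c ^ 3 + e ^ 3 + f ^ 3) * (e ^ 2 - a ^ 2 - b ^ 2 - c ^ 2 - f ^ 2) +
          6 * (a ^ 5 + b ^ 5 + c ^ 5 + e ^ 5 + f ^ 5) := by rw [hf]; ring
    refine mul_left_cancel₀ (mul_ne_zero (show (30 : ℚ[X]) ≠ 0 by norm_num) (h.ne 3)) ?_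
    change 30 * e * _ = 30 * e * _
    rw [i1, h5, h3, h6, hQ]
    ring
  have hR : ∀ ρ : ℝ, aeval ρ Q = 0 → aeval ρ (e + f) ≠ 0 ∧ aeval ρ (e + a) ≠ 0 ∧
      aeval ρ (e + b) ≠ 0 ∧ aeval ρ (e + c) ≠ 0 := fun ρ h0 => by
    rw [hQ, map_mul, aeval_C, mul_eq_zero, map_eq_zero, or_iff_right (by positivity)] at h0
    simp only [map_sub, map_pow, map_add] at h0 ⊢
    refine ⟨fun h1 => ?_, fun h1 => ?_, fun h1 => ?_, fun h1 => ?_⟩
    · obtain ⟨x, y, z⟩ := FacA.sq3 (x := aeval ρ a) (y := aeval ρ b) (z := aeval ρ c)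
        (by linear_combination (aeval ρ e - aeval ρ f) * h1 - h0)
      exact h.gd.v3R ρ 0 1 2 (by decide) (by decide) (by decide) x y z
    · obtain ⟨x, y, z⟩ := FacA.sq3 (x := aeval ρ b) (y := aeval ρ c) (z := aeval ρ f)
        (by linear_combination (aeval ρ e - aeval ρ a) * h1 - h0)
      exact h.gd.v3R ρ 1 2 4 (by decide) (by decide) (by decide) x y z
    · obtain ⟨x, y, z⟩ := FacA.sq3 (x := aeval ρ a) (y := aeval ρ c) (z := aeval ρ f)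
        (by linear_combination (aeval ρ e - aeval ρ b) * h1 - h0)
      exact h.gd.v3R ρ 0 2 4 (by decide) (by decide) (by decide) x y z
    · obtain ⟨x, y, z⟩ := FacA.sq3 (x := aeval ρ a) (y := aeval ρ b) (z := aeval ρ f)
        (by linear_combination (aeval ρ e - aeval ρ c) * h1 - h0)
      exact h.gd.v3R ρ 0 1 4 (by decide) (by decide) (by decide) x y z
  have rs := h.rs
  have rt := h.rt
  have st := h.st
  have d1 : f ∣ (e + a) * (e + b) * (e + c) := by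
    refine (h.cop.symm.add_mul_left_right 1).dvd_of_dvd_mul_left ⟨_, Eq.trans ?_ key⟩
    ring
  obtain ⟨u, u3, d2, ⟨z3, e3⟩, hf⟩ := exists_dvd_and_dvd_of_dvd_mul d1
  obtain ⟨u1, u2, ⟨z1, e1⟩, ⟨z2, e2⟩, rfl⟩ := exists_dvd_and_dvd_of_dvd_mul d2
  have k2 : (X - C r) * ((X - C s) * ((X - C t) * Q)) = (e + f) * z1 * z2 * z3 := by
    refine mul_left_cancel₀ (h.ne 4) ?_
    change f * _ = f * _
    rw [← key, e1, e2, e3]
    linear_combination (-(e + f) * z1 * z2 * z3) * hf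
  refine ⟨FacA.one4 (M := f * (X - C s) * (X - C t)) (by rw [key]; ring) ?_ hR,
    FacA.one4 (M := f * (X - C r) * (X - C t)) (by rw [key]; ring) ?_ hR,
    FacA.one4 (M := f * (X - C r) * (X - C s)) (by rw [key]; ring) ?_ hR, ?_,
    u1, u2, u3, hf, ⟨z1, e1⟩, ⟨z2, e2⟩, ⟨z3, e3⟩,
    FacA.odd rs rt st (h.gd.pair 3 0 (by decide)) e1 ⟨u2 * u3, by rw [hf]; ring⟩ h.fr h.fs h.ft
      ⟨(e + f) * z2 * z3, by rw [k2]; ring⟩ fun ρ x => (hR ρ x).2.1,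
    FacA.odd rs rt st (h.gd.pair 3 1 (by decide)) e2 ⟨u1 * u3, by rw [hf]; ring⟩ h.fr h.fs h.ft
      ⟨(e + f) * z1 * z3, by rw [k2]; ring⟩ fun ρ x => (hR ρ x).2.2.1,
    FacA.odd rs rt st (h.gd.pair 3 2 (by decide)) e3 ⟨u1 * u2, by rw [hf]; ring⟩ h.fr h.fs h.ft
      ⟨(e + f) * z1 * z2, by rw [k2]; ring⟩ fun ρ x => (hR ρ x).2.2.2⟩
  · simp [h.fr, sub_ne_zero.2 rs, sub_ne_zero.2 rt]
  · simp [h.fs, sub_ne_zero.2 rs.symm, sub_ne_zero.2 st]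
  · simp [h.ft, sub_ne_zero.2 rt.symm, sub_ne_zero.2 st.symm]
  · simpa using FacA.odd (y := e + f) rs rt st (h.gd.pair 3 4 (by decide)) (one_mul _).symm
      (one_dvd f) h.fr h.fs h.ft ⟨z1 * z2 * z3, by rw [k2]; ring⟩ fun ρ x => (hR ρ x).1

end Pool.Agent.P.MP_440ce3_nt
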