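import Pool.Agent.P.MP_440ce3_nt.G.Iface

/-! Step GEN of the Fermat quintic project. -/

namespace Pool.Agent.P.MP_440ce3_nt

open Polynomial

namespace GenA

theorem ex3 (i j k : Fin 5) (h1 : i ≠ j) (h2 : i ≠ k) (h3 : j ≠ k) :
    ∃ σ : Equiv.Perm (Fin 5), σ 0 = i ∧ σ 1 = j ∧ σ 2 = k := by
  have : ∀ i j k : Fin 5, i ≠ j → i ≠ k → j ≠ k →
      ∃ l m : Fin 5, Function.Injective ![i, j, k, l, m] := by decide +kernel
  obtain ⟨l, m, h⟩ := this i j k h1 h2 h3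
  exact ⟨Equiv.ofBijective _ (Finite.injective_iff_bijective.mp h), rfl, rfl, rfl⟩

theorem ex2 (i j : Fin 5) (h1 : i ≠ j) : ∃ σ : Equiv.Perm (Fin 5), σ 0 = i ∧ σ 1 = j := by
  have : ∀ i j : Fin 5, ∃ k, i ≠ k ∧ j ≠ k := by decide
  obtain ⟨k, h2, h3⟩ := this i j
  obtain ⟨σ, e0, e1, -⟩ := ex3 i j k h1 h2 h3
  exact ⟨σ, e0, e1⟩

variable {d : ℕ} {x : Fin 5 → ℚ[X]}

theorem dvd_s (hPP : S_PP) (h : Gd d x) {i j : Fin 5} (hij : i ≠ j) {π : ℚ[X]}
    (hπ : Irreducible π) (hd : π ∣ x i + x j) : π ∣ ∑ k, x k := by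
  have h3 : π.natDegree ≤ 3 :=
    (natDegree_le_of_dvd hd (h.pair i j hij).1).trans ((h.pair i j hij).2.le.trans h.d3)
  obtain ⟨σ, rfl, rfl⟩ := ex2 i j hij
  have e5 := (h.perm σ).sum5
  rw [← Equiv.sum_comp σ x]
  simp only [Fin.sum_univ_five] at e5 ⊢
  have h5 : π ∣ x (σ 0) ^ 5 + x (σ 1) ^ 5 := hd.trans (Odd.add_dvd_pow_add_pow _ _ (by decide))
  have h6 : π ∣ x (σ 2) ^ 5 + x (σ 3) ^ 5 + x (σ 4) ^ 5 := by
    rw [show x (σ 2) ^ 5 + x (σ 3) ^ 5 + x (σ 4) ^ 5 = -(x (σ 0) ^ 5 + x (σ 1) ^ 5) by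
      linear_combination e5]
    exact h5.neg_right
  rw [show x (σ 0) + x (σ 1) + x (σ 2) + x (σ 3) + x (σ 4) =
    x (σ 0) + x (σ 1) + (x (σ 2) + x (σ 3) + x (σ 4)) by ring]
  exact dvd_add hd (hPP.1 π _ _ _ hπ h3 h6)

theorem ex_zero (hPP : S_PP) (h : Gd d x) {i j : Fin 5} (hij : i ≠ j) {r : ℚ}
    (hr : (x i + x j).eval r = 0) : ∃ m, (x m).eval r = 0 := by
  obtain ⟨σ, rfl, rfl⟩ := ex2 i j hij
  have e5 := congrArg (eval r) (h.perm σ).sum5
  simp only [Fin.sum_univ_five, eval_add, eval_pow, eval_zero] at e5 hr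
  have e1 : (x (σ 1)).eval r = -(x (σ 0)).eval r := by linarith
  rw [e1] at e5
  have := hPP.2 ((x (σ 2)).eval r) ((x (σ 3)).eval r) ((x (σ 4)).eval r) (by linear_combination e5)
  rcases mul_eq_zero.mp this with h1 | h1
  · rcases mul_eq_zero.mp h1 with h2 | h2
    exacts [⟨_, h2⟩, ⟨_, h2⟩]
  · exact ⟨_, h1⟩

theorem colour (h : Gd d x) {π : ℚ[X]} (hπ : Irreducible π) (hm : π.Monic) :
    ∃ χ : Fin 5 → Prop, ∀ i j, i ≠ j → π ∣ x i + x j → ¬ (χ i ↔ χ j) := by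
  refine ⟨fun i => (π ∣ x i ∧ ∀ k, π ∣ x k → i ≤ k) ∨ 0 < (x i %ₘ π).leadingCoeff,
    fun i j hij hd => ?_⟩
  have e : x j %ₘ π = -(x i %ₘ π) := by
    have := (modByMonic_eq_zero_iff_dvd hm).mpr hd
    rw [add_modByMonic] at this
    linear_combination this
  by_cases hi : π ∣ x i
  · have hj : π ∣ x j := (dvd_add_right hi).mp hd
    have zi := (modByMonic_eq_zero_iff_dvd hm).mpr hi
    have zj := (modByMonic_eq_zero_iff_dvd hm).mpr hj
    have k3 : ∀ k, π ∣ x k → k = i ∨ k = j := fun k hk => by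
      by_contra hn
      push Not at hn
      exact h.v3 π hπ i j k hij hn.1.symm hn.2.symm hi hj hk
    simp only [zi, zj, leadingCoeff_zero, lt_irrefl, or_false, hi, hj, true_and]
    intro hh
    rcases lt_or_gt_of_ne hij with l | l
    · exact absurd (hh.mp (fun k hk => by rcases k3 k hk with rfl | rfl; exacts [le_rfl, l.le]) i hi)
        (not_le.mpr l)
    · exact absurd (hh.mpr (fun k hk => by rcases k3 k hk with rfl | rfl; exacts [l.le, le_rfl]) j hj)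
        (not_le.mpr l)
  · have hj : ¬ π ∣ x j := fun hj => hi ((dvd_add_left hj).mp hd)
    have zi : (x i %ₘ π).leadingCoeff ≠ 0 := fun z =>
      hi ((modByMonic_eq_zero_iff_dvd hm).mp (leadingCoeff_eq_zero.mp z))
    simp only [hi, hj, false_and, false_or, e, leadingCoeff_neg]
    intro hh
    rcases lt_or_gt_of_ne zi with l | l
    · linarith [hh.mpr (by linarith)]
    · linarith [hh.mp l]

theorem third (h : Gd d x) {p q : ℚ[X]} (hp : Irreducible p) (hpm : p.Monic) (hq : Irreducible q)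
    (hqm : q.Monic) : ∃ (π : ℚ[X]) (i j : Fin 5), Irreducible π ∧ π.Monic ∧ i ≠ j ∧
      π ∣ x i + x j ∧ p ≠ π ∧ q ≠ π := by
  classical
  obtain ⟨χ, h1⟩ := colour h hp hpm
  obtain ⟨ψ, h2⟩ := colour h hq hqm
  obtain ⟨i, j, hij, e⟩ := Fintype.exists_ne_map_eq_of_card_lt
    (fun i => (decide (χ i), decide (ψ i))) (by simp)
  simp only [Prod.mk.injEq, decide_eq_decide] at e
  obtain ⟨π, hm, hi, hd⟩ := exists_monic_irreducible_factor (x i + x j) fun hu => by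
    have := natDegree_eq_zero_of_isUnit hu
    have := (h.pair i j hij).2
    have := h.d1
    omega
  exact ⟨π, i, j, hi, hm, hij, hd, fun e' => h1 i j hij (e' ▸ hd) e.1,
    fun e' => h2 i j hij (e' ▸ hd) e.2⟩

theorem cop {p q : ℚ[X]} (hp : Irreducible p) (hpm : p.Monic) (hq : Irreducible q)
    (hqm : q.Monic) (hne : p ≠ q) : IsCoprime p q :=
  hp.coprime_iff_not_dvd.mpr fun hd =>
    hne (eq_of_monic_of_associated hpm hqm (hp.associated_of_dvd hq hd))

/-- All prime factors of pair sums sit at the three points. -/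
def At (x : Fin 5 → ℚ[X]) (r s t : ℚ) : Prop :=
  ∀ i j, i ≠ j → ∀ π : ℚ[X], Irreducible π → π ∣ x i + x j →
    π ∣ X - C r ∨ π ∣ X - C s ∨ π ∣ X - C t

theorem three (hPP : S_PP) (h : Gd d x) (hs : ∑ k, x k ≠ 0) : d = 3 ∧ ∃ r s t : ℚ,
    r ≠ s ∧ r ≠ t ∧ s ≠ t ∧ At x r s t ∧ (∃ m, (x m).eval r = 0) ∧ (∃ m, (x m).eval s = 0) ∧
      ∃ m, (x m).eval t = 0 := by
  obtain ⟨p, i1, j1, hp, hpm, n1, d1, -⟩ := third h irreducible_X monic_X irreducible_X monic_X
  obtain ⟨q, i2, j2, hq, hqm, n2, d2, pq, -⟩ := third h hp hpm hp hpm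
  obtain ⟨w, i3, j3, hw, hwm, n3, d3, pw, qw⟩ := third h hp hpm hq hqm
  obtain ⟨u, hu⟩ : p * q * w ∣ ∑ k, x k :=
    ((cop hp hpm hw hwm pw).mul_left (cop hq hqm hw hwm qw)).mul_dvd
      ((cop hp hpm hq hqm pq).mul_dvd (dvd_s hPP h n1 hp d1) (dvd_s hPP h n2 hq d2))
      (dvd_s hPP h n3 hw d3)
  have hsd : (∑ k, x k).natDegree ≤ d := natDegree_sum_le_of_forall_le _ _ fun k _ => by
    rcases h.deg k with e | e
    · simp [e]
    · exact e.le
  have u0 : u ≠ 0 := fun e => hs (by rw [hu, e, mul_zero])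
  rw [hu, natDegree_mul ((hpm.mul hqm).mul hwm).ne_zero u0, (hpm.mul hqm).natDegree_mul hwm,
    hpm.natDegree_mul hqm] at hsd
  have := hp.natDegree_pos
  have := hq.natDegree_pos
  have := hw.natDegree_pos
  have := h.d3
  have lin : ∀ y : ℚ[X], y.Monic → y.natDegree = 1 → ∃ r, y = X - C r := fun y hy e =>
    ⟨-y.coeff 0, by rw [map_neg, sub_neg_eq_add]; exact hy.eq_X_add_C e⟩
  obtain ⟨r, rfl⟩ := lin p hpm (by omega)
  obtain ⟨s, rfl⟩ := lin q hqm (by omega)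
  obtain ⟨t, rfl⟩ := lin w hwm (by omega)
  have uu : IsUnit u := isUnit_iff_degree_eq_zero.mpr (by
    rw [degree_eq_natDegree u0, show u.natDegree = 0 by omega]; rfl)
  refine ⟨by omega, r, s, t, fun e => pq (by rw [e]), fun e => pw (by rw [e]),
    fun e => qw (by rw [e]), fun i j hij π hπ hd => ?_, ex_zero hPP h n1 (dvd_iff_isRoot.mp d1),
    ex_zero hPP h n2 (dvd_iff_isRoot.mp d2), ex_zero hPP h n3 (dvd_iff_isRoot.mp d3)⟩
  have h1 := dvd_s hPP h hij hπ hd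
  rw [hu, uu.dvd_mul_right] at h1
  rcases hπ.prime.dvd_or_dvd h1 with h2 | h2
  · exact (hπ.prime.dvd_or_dvd h2).imp id Or.inl
  · exact Or.inr (Or.inr h2)

theorem At.s12 {r s t : ℚ} (H : At x r s t) : At x s r t := fun i j hij π hπ hd => by
  have := H i j hij π hπ hd; tauto

theorem At.s23 {r s t : ℚ} (H : At x r s t) : At x r t s := fun i j hij π hπ hd => by
  have := H i j hij π hπ hd; tauto

theorem pw_dvd (h : Gd d x) {r s t : ℚ} (H : At x r s t) {i j : Fin 5} (hij : i ≠ j)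
    (hr : (x i + x j).eval r ≠ 0) (hs : (x i + x j).eval s ≠ 0) : (X - C t) ^ d ∣ x i + x j := by
  obtain ⟨y0, yd⟩ := h.pair i j hij
  obtain ⟨q, e, hq⟩ := exists_eq_pow_rootMultiplicity_mul_and_not_dvd _ y0 t
  have q0 : q ≠ 0 := fun z => hq (z ▸ dvd_zero _)
  have uq : IsUnit q := by
    by_contra hn
    obtain ⟨π, hπ, hd⟩ := WfDvdMonoid.exists_irreducible_factor hn q0
    have hd' : π ∣ x i + x j := by rw [e]; exact hd.mul_left _
    have as : ∀ z : ℚ, π ∣ X - C z → X - C z ∣ π := fun z hz =>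
      (hπ.associated_of_dvd (irreducible_X_sub_C z) hz).symm.dvd
    rcases H i j hij π hπ hd' with h1 | h1 | h1
    · exact hr (dvd_iff_isRoot.mp ((as _ h1).trans hd'))
    · exact hs (dvd_iff_isRoot.mp ((as _ h1).trans hd'))
    · exact hq ((as _ h1).trans hd)
  have := congrArg natDegree e
  rw [natDegree_mul (pow_ne_zero _ (X_sub_C_ne_zero t)) q0, natDegree_eq_zero_of_isUnit uq,
    natDegree_pow, natDegree_X_sub_C, yd, mul_one, add_zero] at this
  rw [this]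
  exact ⟨q, e⟩

theorem not_same (h : Gd d x) {r s t : ℚ} (H : At x r s t) {m : Fin 5} (hr : (x m).eval r = 0)
    (hs : (x m).eval s = 0) : False := by
  have k : ∀ j, m ≠ j → (x j).eval t = -(x m).eval t := fun j hj => by
    have h1 := pw_dvd h H hj (by rw [eval_add, hr, zero_add]; exact h.v1 r m j hj hr)
      (by rw [eval_add, hs, zero_add]; exact h.v1 s m j hj hs)
    have h2 := dvd_iff_isRoot.mp ((dvd_pow_self _ (by have := h.d1; omega)).trans h1)
    rw [IsRoot, eval_add] at h2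
    linarith
  have : ∀ i : Fin 5, ∃ k, i ≠ k := by decide
  obtain ⟨j, hj⟩ := this m
  obtain ⟨σ, rfl, rfl⟩ := ex2 m j hj
  have e5 := congrArg (eval t) (h.perm σ).sum5
  simp only [Fin.sum_univ_five, eval_add, eval_pow, eval_zero] at e5
  rw [k _ hj, k (σ 2) (σ.injective.ne (by decide)), k (σ 3) (σ.injective.ne (by decide)),
    k (σ 4) (σ.injective.ne (by decide))] at e5
  have z : (x (σ 0)).eval t = 0 := pow_eq_zero_iff (n := 5) (by norm_num) |>.mp (by
    linear_combination (-1 / 3) * e5)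
  exact h.v1 t _ _ hj z (by rw [k _ hj, z, neg_zero])

theorem cube {a b c e f : ℚ[X]} {t : ℚ} (h5 : a ^ 5 + b ^ 5 + c ^ 5 + e ^ 5 + f ^ 5 = 0)
    (hab : (X - C t) ^ 3 ∣ a + b) (hc : c.eval t = 0) (he : e.eval t ≠ 0) :
    (X - C t) ^ 3 ∣ e + f := by
  have h1 : (X - C t) ^ 3 ∣ e ^ 5 + f ^ 5 := by
    rw [show e ^ 5 + f ^ 5 = -(a ^ 5 + b ^ 5 + c ^ 5) by linear_combination h5]
    exact (dvd_add (hab.trans (Odd.add_dvd_pow_add_pow _ _ (by decide)))
      (pow_dvd_pow_of_dvd_of_le (dvd_iff_isRoot.mpr hc) (by norm_num))).neg_right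
  have h2 := dvd_iff_isRoot.mp ((dvd_pow_self _ (by norm_num)).trans h1)
  simp only [IsRoot, eval_add, eval_pow] at h2
  have h3 : f.eval t = -e.eval t :=
    (Odd.pow_injective (n := 5) (by decide)) (by simp only; linear_combination h2)
  rw [show e ^ 5 + f ^ 5 = (e + f) * (e ^ 4 - e ^ 3 * f + e ^ 2 * f ^ 2 - e * f ^ 3 + f ^ 4) by
    ring] at h1
  refine (IsCoprime.pow_left ((irreducible_X_sub_C t).coprime_iff_not_dvd.mpr fun hd => he ?_)
    ).dvd_of_dvd_mul_right h1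
  have h4 := dvd_iff_isRoot.mp hd
  simp only [IsRoot, eval_add, eval_sub, eval_mul, eval_pow, h3] at h4
  exact pow_eq_zero_iff (n := 4) (by norm_num) |>.mp (by linear_combination (1 / 5) * h4)

theorem last (h : Gd 3 x) {r s t : ℚ} (st : s ≠ t) (H : At x r s t) (h0 : (x 0).eval r = 0)
    (h1 : (x 1).eval s = 0) (h2 : (x 2).eval t = 0) : False := by
  have e5 := h.sum5
  simp only [Fin.sum_univ_five] at e5
  have k1 := cube e5 (pw_dvd h H (by decide)
    (by rw [eval_add, h0, zero_add]; exact h.v1 r 0 1 (by decide) h0)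
    (by rw [eval_add, h1, add_zero]; exact h.v1 s 1 0 (by decide) h1)) h2
    (h.v1 t 2 3 (by decide) h2)
  have k2 := cube (a := x 0) (b := x 2) (c := x 1) (e := x 3) (f := x 4)
    (by linear_combination e5) (pw_dvd h H.s23 (by decide)
    (by rw [eval_add, h0, zero_add]; exact h.v1 r 0 2 (by decide) h0)
    (by rw [eval_add, h2, add_zero]; exact h.v1 t 2 0 (by decide) h2)) h1
    (h.v1 s 1 3 (by decide) h1)
  have k3 := natDegree_le_of_dvd ((isCoprime_X_sub_C_of_isUnit_sub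
    (sub_ne_zero.mpr st).isUnit).pow.mul_dvd k2 k1) (h.pair 3 4 (by decide)).1
  rw [(h.pair 3 4 (by decide)).2, natDegree_mul (pow_ne_zero _ (X_sub_C_ne_zero s))
    (pow_ne_zero _ (X_sub_C_ne_zero t))] at k3
  simp at k3

end GenA

open GenA in
theorem p_GEN (hPP : S_PP) :
    S_GEN := by
  intro d x h
  by_contra hs
  obtain ⟨rfl, r, s, t, -, -, st, H, ⟨i, hi⟩, ⟨j, hj⟩, k, hk⟩ := three hPP h hs
  obtain ⟨σ, rfl, rfl, rfl⟩ := ex3 i j k (fun e => not_same h H hi (e ▸ hj))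
    (fun e => not_same h H.s23 hi (e ▸ hk)) (fun e => not_same h H.s12.s23 hj (e ▸ hk))
  exact last (h.perm σ) st (fun a b hab => H _ _ (σ.injective.ne hab)) hi hj hk

end Pool.Agent.P.MP_440ce3_nt
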