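import Pool.Agent.P.MP_440ce3_nt.G.Iface

/-! Step MAIN of the Fermat quintic project. -/

namespace Pool.Agent.P.MP_440ce3_nt

open Polynomial

theorem p_MAIN (hNORM : S_NORM) (hVL : S_VL) (hTRIV : S_TRIV) (hGEN : S_GEN) (hSPLIT : S_SPLIT)
    (hD2 : S_D2) (hD3 : S_D3) :
    S_MAIN := by
  intro x h5 hd
  by_contra hn
  rw [not_or] at hn
  have hp : ∀ i j, i ≠ j → x i + x j ≠ 0 := fun i j hij h0 => hn.2 (hTRIV x i j h5 hij h0)
  obtain ⟨d, y, hy⟩ := hNORM x h5 hd hn.1 hp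
  have hg := hVL d y hy
  obtain ⟨a, b, c, e, f, h | ⟨r, s, t, h⟩⟩ := hSPLIT d y hg (hGEN d y hg)
  · obtain ⟨h1, h2, h3, κ, h4⟩ := h
    exact hD2 a b c e f κ h1 h2 h3 h4
  · exact hD3 a b c e f r s t h

end Pool.Agent.P.MP_440ce3_nt
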