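import Pool.Agent.P.MP_440ce3_nt.G.Iface
import Pool.Agent.P.MP_440ce3_nt.A.Iface

/-! Step PP of the Fermat quintic project. -/

namespace Pool.Agent.P.MP_440ce3_nt

open Polynomial

theorem p_PP (hPT : S_PT) :
    S_PP := by
  refine ⟨fun π x y z hπ hd h => ?_, fun x y z h => ?_⟩
  · have : Fact (Irreducible π) := ⟨hπ⟩
    have hr : Module.finrank ℚ (AdjoinRoot π) = π.natDegree :=
      (AdjoinRoot.powerBasis hπ.ne_zero).finrank
    have key := @hPT (AdjoinRoot π) inferInstance (AdjoinRoot.instAlgebra π)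
      (hr.symm ▸ hπ.natDegree_pos) (hr.symm ▸ hd) (AdjoinRoot.mk π x) (AdjoinRoot.mk π y)
      (AdjoinRoot.mk π z) (by
        rw [← map_pow, ← map_pow, ← map_pow, ← map_add, ← map_add]
        exact AdjoinRoot.mk_eq_zero.2 h)
    rw [← map_add, ← map_add] at key
    exact AdjoinRoot.mk_eq_zero.1 key
  · have key := hPT ℚ (by simp) (by simp) x y z h
    obtain rfl : z = -x - y := by linarith
    have h1 : x * y * (-x - y) * (x ^ 2 + y ^ 2 + (-x - y) ^ 2) = 0 := by
      linear_combination (2 / 5) * h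
    refine (mul_eq_zero.1 h1).elim id fun h2 => ?_
    have : x = 0 := by nlinarith [sq_nonneg x, sq_nonneg y, sq_nonneg (-x - y)]
    simp [this]

end Pool.Agent.P.MP_440ce3_nt
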