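import Pool.Agent.P.MP_440ce3_nt.G.Iface

/-! Step SPLIT of the Fermat quintic project. -/

namespace Pool.Agent.P.MP_440ce3_nt

open Polynomial

namespace SplitA

variable {d : ℕ} {x : Fin 5 → ℚ[X]}

theorem ident (h : Gd d x) (hs : ∑ i, x i = 0) :
    6 * (x 0 * x 1 * x 2 * x 3 * x 4) = -(∑ i, x i ^ 2) * ∑ i, x i ^ 3 := by
  have h5 := h.sum5
  simp only [Fin.sum_univ_five] at hs h5 ⊢
  have e : x 4 = -(x 0 + x 1 + x 2 + x 3) := by linear_combination hs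
  refine mul_left_cancel₀ (show (5 : ℚ[X]) ≠ 0 by norm_num) ?_
  rw [e] at h5 ⊢
  linear_combination 6 * h5

theorem noroot (h : Gd d x) (ρ : ℝ) : aeval ρ (∑ i, x i ^ 2) ≠ 0 := fun h0 => by
  rw [map_sum] at h0
  simp only [map_pow] at h0
  have h1 := fun i => pow_eq_zero_iff (two_ne_zero) |>.1
    ((Finset.sum_eq_zero_iff_of_nonneg fun i _ => sq_nonneg _).1 h0 i (Finset.mem_univ i))
  exact h.v3R ρ 0 1 2 (by decide) (by decide) (by decide) (h1 0) (h1 1) (h1 2)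

theorem ne4 (h : Gd d x) (hs : ∑ i, x i = 0) : x 4 ≠ 0 := fun h4 => by
  have h1 := ident h hs
  have h2 : ∑ i, x i ^ 2 ≠ 0 := fun h0 => noroot h 0 (by rw [h0, map_zero])
  have h3 : ∑ i, x i ^ 3 = 3 * ((x 0 + x 1) * (x 0 + x 2) * (x 0 + x 3)) := by
    simp only [Fin.sum_univ_five, h4] at hs ⊢
    rw [show x 3 = -(x 0 + x 1 + x 2) by linear_combination hs]
    ring
  rw [h4, mul_zero, mul_zero, h3] at h1
  exact mul_ne_zero (neg_ne_zero.2 h2) (mul_ne_zero (by norm_num) (mul_ne_zero (mul_ne_zero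
    (h.pair 0 1 (by decide)).1 (h.pair 0 2 (by decide)).1) (h.pair 0 3 (by decide)).1)) h1.symm

theorem ne (h : Gd d x) (hs : ∑ i, x i = 0) (i : Fin 5) : x i ≠ 0 := by
  have := ne4 (h.perm (Equiv.swap i 4)) ((Equiv.sum_comp _ x).trans hs)
  rwa [Equiv.swap_apply_right] at this

theorem dg (h : Gd d x) (hs : ∑ i, x i = 0) (i : Fin 5) : (x i).natDegree = d :=
  (h.deg i).resolve_left (ne h hs i)

theorem deg2 (h : Gd d x) (hs : ∑ i, x i = 0) : (∑ i, x i ^ 2).natDegree = 2 * d := by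
  refine natDegree_eq_of_le_of_coeff_ne_zero (natDegree_sum_le_of_forall_le _ _ fun i _ => ?_) ?_
  · rw [natDegree_pow, dg h hs]
  · rw [finsetSum_coeff]
    refine (Finset.sum_pos (fun i _ => ?_) Finset.univ_nonempty).ne'
    rw [coeff_pow_of_natDegree_le (dg h hs i).le, ← dg h hs i]
    exact sq_pos_of_ne_zero (leadingCoeff_ne_zero.2 (ne h hs i))

theorem split (h : Gd d x) (hs : ∑ i, x i = 0) :
    ∃ D : Fin 5 → ℚ[X], (∀ i, D i ∣ x i) ∧ ∑ i, x i ^ 2 = ∏ i, D i := by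
  have h1 : ∑ i, x i ^ 2 ∣ x 0 * x 1 * x 2 * x 3 * x 4 := by
    have h6 : IsUnit (6 : ℚ[X]) := by
      rw [← map_ofNat C 6]
      exact isUnit_C.2 (by norm_num)
    rw [← h6.dvd_mul_left, ident h hs]
    exact (dvd_neg.2 dvd_rfl).mul_right _
  obtain ⟨_, d4, h2, k4, e4⟩ := exists_dvd_and_dvd_of_dvd_mul h1
  obtain ⟨_, d3, h3, k3, rfl⟩ := exists_dvd_and_dvd_of_dvd_mul h2
  obtain ⟨_, d2, h4, k2, rfl⟩ := exists_dvd_and_dvd_of_dvd_mul h3
  obtain ⟨d0, d1, k0, k1, rfl⟩ := exists_dvd_and_dvd_of_dvd_mul h4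
  refine ⟨![d0, d1, d2, d3, d4], fun i => ?_, by rw [e4, Fin.prod_univ_five]; rfl⟩
  fin_cases i
  exacts [k0, k1, k2, k3, k4]

theorem const {p : ℚ[X]} (h0 : p ≠ 0) (h : p.natDegree = 0) : ∃ c : ℚ, c ≠ 0 ∧ p = C c := by
  obtain ⟨c, rfl⟩ := natDegree_eq_zero.1 h
  exact ⟨c, fun e => h0 (by rw [e, map_zero]), rfl⟩

theorem cof0 {p q : ℚ[X]} (h : p ∣ q) (h0 : q ≠ 0) (e : q.natDegree = p.natDegree) :
    ∃ c : ℚ, c ≠ 0 ∧ q = p * C c := by
  obtain ⟨u, rfl⟩ := h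
  rw [natDegree_mul (left_ne_zero_of_mul h0) (right_ne_zero_of_mul h0)] at e
  obtain ⟨c, h1, rfl⟩ := const (right_ne_zero_of_mul h0) (by omega)
  exact ⟨c, h1, rfl⟩

theorem cof1 {p q : ℚ[X]} (h : p ∣ q) (h0 : q ≠ 0) (e : q.natDegree = p.natDegree + 1) :
    ∃ c r : ℚ, c ≠ 0 ∧ q = p * (C c * (X - C r)) := by
  obtain ⟨u, rfl⟩ := h
  rw [natDegree_mul (left_ne_zero_of_mul h0) (right_ne_zero_of_mul h0)] at e
  obtain ⟨a, h1, b, rfl⟩ := natDegree_eq_one.1 (show u.natDegree = 1 by omega)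
  refine ⟨a, -b / a, h1, ?_⟩
  rw [mul_sub, ← C_mul, mul_div_cancel₀ _ h1, map_neg, sub_neg_eq_add]

theorem core (h : Gd d x) (hs : ∑ i, x i = 0) {D : Fin 5 → ℚ[X]} (hD : ∀ i, D i ∣ x i)
    (hP : ∑ i, x i ^ 2 = ∏ i, D i) (hm : Monotone fun i => (D i).natDegree) : ∃ a b c e f : ℚ[X],
    (Gd 2 ![a, b, c, e, f] ∧ a + b + c + e + f = 0 ∧ (∀ i, ![a, b, c, e, f] i ≠ 0) ∧
      ∃ κ : ℚ, a ^ 2 + b ^ 2 + c ^ 2 + e ^ 2 + f ^ 2 = C κ * e * f) ∨
    ∃ r s t : ℚ, D3 a b c e f r s t := by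
  have hn := ne h hs
  have hd := dg h hs
  have h0 : ∀ i, D i ≠ 0 := fun i => ne_zero_of_dvd_ne_zero (hn i) (hD i)
  have hle : ∀ i, (D i).natDegree ≤ d := fun i => hd i ▸ natDegree_le_of_dvd (hD i) (hn i)
  have hev : ∀ i, (D i).natDegree % 2 = 0 := fun i => by
    by_contra h1
    obtain ⟨ρ, hρ⟩ := odd_root (p := D i) (Nat.odd_iff.2 (by omega))
    obtain ⟨u, hu⟩ := Finset.dvd_prod_of_mem D (Finset.mem_univ i)
    exact noroot h ρ (by rw [hP, hu, map_mul, hρ, zero_mul])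
  have hsum := deg2 h hs
  rw [hP, natDegree_prod _ _ fun i _ => h0 i, Fin.sum_univ_five] at hsum
  have m1 : (D 0).natDegree ≤ (D 1).natDegree := hm (by decide)
  have m2 : (D 1).natDegree ≤ (D 2).natDegree := hm (by decide)
  have m3 : (D 2).natDegree ≤ (D 3).natDegree := hm (by decide)
  have m4 : (D 3).natDegree ≤ (D 4).natDegree := hm (by decide)
  have v0 := hev 0
  have v1 := hev 1
  have v2 := hev 2
  have v3 := hev 3
  have v4 := hev 4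
  have l4 := hle 4
  have d1 := h.d1
  have d3 := h.d3
  have hid := ident h hs
  rw [hP] at hid
  obtain ⟨c0, k0, e0⟩ := const (h0 0) (by omega)
  obtain ⟨c1, k1, e1⟩ := const (h0 1) (by omega)
  rw [Fin.sum_univ_five] at hs hP hid
  rw [Fin.prod_univ_five, e0, e1] at hP hid
  obtain rfl | rfl : d = 2 ∨ d = 3 := by omega
  · obtain ⟨c2, -, e2⟩ := const (h0 2) (by omega)
    obtain ⟨c3, k3, e3⟩ := cof0 (hD 3) (hn 3) (by rw [hd]; omega)
    obtain ⟨c4, k4, e4⟩ := cof0 (hD 4) (hn 4) (by rw [hd]; omega)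
    refine ⟨x 0, x 1, x 2, x 3, x 4, Or.inl ⟨h.perm' 1 fun i => by fin_cases i <;> rfl, hs,
      fun i => by fin_cases i <;> exact hn _, c0 * c1 * c2 / (c3 * c4), ?_⟩⟩
    have e : C (c0 * c1 * c2 / (c3 * c4)) * (C c3 * C c4) = C c0 * C c1 * C c2 := by
      simp only [← C_mul]
      rw [div_mul_cancel₀ _ (mul_ne_zero k3 k4)]
    rw [hP, e3, e4, e2]
    linear_combination (-D 3 * D 4) * e
  · obtain ⟨c2, r, k2, e2⟩ := cof1 (hD 2) (hn 2) (by rw [hd]; omega)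
    obtain ⟨c3, s, k3, e3⟩ := cof1 (hD 3) (hn 3) (by rw [hd]; omega)
    obtain ⟨c4, t, k4, e4⟩ := cof1 (hD 4) (hn 4) (by rw [hd]; omega)
    refine ⟨x 2, x 3, x 4, x 0, x 1, Or.inr ⟨r, s, t,
      h.perm' (Equiv.addRight 2) fun i => by fin_cases i <;> rfl, by linear_combination hs,
      fun i => by fin_cases i <;> exact hn _, by simp [e2], by simp [e3], by simp [e4],
      -6 * (c2 * c3 * c4) / (c0 * c1), by positivity, ?_⟩⟩
    have e : C (-6 * (c2 * c3 * c4) / (c0 * c1)) * (C c0 * C c1) = -6 * (C c2 * C c3 * C c4) := by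
      rw [← C_mul, ← C_mul, div_mul_cancel₀ _ (mul_ne_zero k0 k1)]
      simp only [map_mul, map_neg, map_ofNat]
    refine mul_left_cancel₀ (a := C c0 * C c1 * D 2 * D 3 * D 4) (mul_ne_zero (mul_ne_zero
      (mul_ne_zero (mul_ne_zero (C_ne_zero.2 k0) (C_ne_zero.2 k1)) (h0 2)) (h0 3)) (h0 4)) ?_
    have hq : x 2 * x 3 * x 4 =
        D 2 * (C c2 * (X - C r)) * (D 3 * (C c3 * (X - C s))) * (D 4 * (C c4 * (X - C t))) := by
      rw [← e2, ← e3, ← e4]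
    linear_combination hid - 6 * x 0 * x 1 * hq -
      D 2 * D 3 * D 4 * ((X - C r) * (X - C s) * (X - C t)) * x 0 * x 1 * e

end SplitA

theorem p_SPLIT :
    S_SPLIT := by
  intro d x h hs
  obtain ⟨D, hD, hP⟩ := SplitA.split h hs
  let σ := Tuple.sort fun i => (D i).natDegree
  exact SplitA.core (h.perm σ) ((Equiv.sum_comp σ x).trans hs) (D := fun i => D (σ i))
    (fun i => hD _) ((Equiv.sum_comp σ fun i => x i ^ 2).trans (hP.trans (Equiv.prod_comp σ D).symm))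
    (Tuple.monotone_sort fun i => (D i).natDegree)

end Pool.Agent.P.MP_440ce3_nt
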