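import Pool.Agent.P.MP_440ce3_nt.G.Iface

/-! Step T2 of the Fermat quintic project. -/

namespace Pool.Agent.P.MP_440ce3_nt

open Polynomial

namespace T2A

theorem deg_of_mul {p q : ℚ[X]} {n : ℕ} (hp : p.natDegree = 2) (h0 : p * q ≠ 0)
    (h : (p * q).natDegree = n + 2) : q.natDegree = n := by
  rw [natDegree_mul (left_ne_zero_of_mul h0) (right_ne_zero_of_mul h0)] at h
  omega

theorem shape {U W h : ℚ[X]} {α : ℚ} (hI : Ind U W) (hh : h.natDegree = 2)
    (hd : h ∣ U ^ 3 + C α * W ^ 3) : ∃ ρ η : ℚ, η ≠ 0 ∧ α = ρ ^ 3 ∧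
      h = C η * (U ^ 2 - C ρ * U * W + C ρ ^ 2 * W ^ 2) := by
  obtain ⟨l, hl⟩ := hd
  have h0 : h ≠ 0 := by rintro rfl; simp at hh
  have h1 : l.natDegree ≤ 1 := by
    by_cases h2 : l = 0
    · simp [h2]
    have h3 : (U ^ 3 + C α * W ^ 3).natDegree ≤ 3 := by
      have := hI.1
      have := hI.2.1
      refine natDegree_add_le_of_degree_le (natDegree_pow_le.trans (by omega))
        ((natDegree_C_mul_le _ _).trans (natDegree_pow_le.trans (by omega)))
    rw [hl, natDegree_mul h0 h2] at h3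
    omega
  obtain ⟨l0, l1, e1⟩ := hI.lin h1
  obtain ⟨h0, h1, h2, e2⟩ := hI.quad hh.le
  obtain ⟨a0, a1, a2, a3⟩ := hI.cubic (c0 := h0 * l0 - 1) (c1 := h0 * l1 + h1 * l0)
    (c2 := h1 * l1 + h2 * l0) (c3 := h2 * l1 - α) (by
      simp only [map_add, map_sub, map_mul, map_one]
      rw [e1, e2] at hl
      linear_combination -hl)
  have b1 : h1 = -(h0 * (l1 * h0)) := by linear_combination h0 * a1 - h1 * a0
  have b2 : h2 = h0 * (l1 * h0) ^ 2 := by linear_combination h0 * a2 - h2 * a0 - l1 * h0 * b1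
  refine ⟨l1 * h0, h0, fun h3 => by simp [h3] at a0, by linear_combination l1 * b2 - a3, ?_⟩
  rw [e2, b1, b2]
  simp only [map_neg, map_mul, map_pow]
  ring

theorem core (hE : S_E1N) {U W g h : ℚ[X]} {α r s : ℚ} (hI : Ind U W) (hg : g.natDegree = 2)
    (hh : h.natDegree = 2) (hα : α ≠ 0) (hU : U.natDegree = 1)
    (h5 : (g * U + h * (W + C α * U)) ^ 5 + (-(g * U) - h * (C α * U)) ^ 5 +
      (g * W + h * (C α * U)) ^ 5 + (-(h * (W + C α * U))) ^ 5 + (-(g * W)) ^ 5 = 0)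
    (hc : IsCoprime h (g * W)) (s1 : U.eval s = 0) (s2 : h.eval s ≠ 0) (s3 : g.eval s ≠ 0)
    (r1 : U.eval r = W.eval r) (r2 : W.eval r ≠ 0) (r3 : (W + C α * U).eval r ≠ 0)
    (r4 : (g * U + h * (W + C α * U)).eval r = 0) : False := by
  have g0 : g ≠ 0 := by rintro rfl; simp at hg
  have h0 : h ≠ 0 := by rintro rfl; simp at hh
  have hcU : IsCoprime U h :=
    (irreducible_of_degree_eq_one
      ((degree_eq_iff_natDegree_eq_of_pos one_pos).2 hU)).coprime_iff_not_dvd.2 fun hd =>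
      s2 (by obtain ⟨q, rfl⟩ := hd; rw [eval_mul, s1, zero_mul])
  have h6 : (U ^ 3 + C α * W ^ 3) * (U * W * g ^ 3) + h *
      (2 * (U ^ 3 * ((W + C α * U) ^ 2 - (C α * U) ^ 2) + W ^ 3 * (C α * U) ^ 2) * g ^ 2 +
      2 * (U ^ 2 * ((W + C α * U) ^ 3 - (C α * U) ^ 3) + W ^ 2 * (C α * U) ^ 3) * g * h +
      (U * ((W + C α * U) ^ 4 - (C α * U) ^ 4) + W * (C α * U) ^ 4) * h ^ 2) = 0 := by
    refine (mul_eq_zero.1 (?_ : 5 * g * h * _ = 0)).resolve_left
      (mul_ne_zero (mul_ne_zero (by norm_num) g0) h0)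
    linear_combination h5
  have h7 : h ∣ U ^ 3 + C α * W ^ 3 :=
    ((hcU.symm.mul_right hc.of_mul_right_right).mul_right
      hc.of_mul_right_left.pow_right).dvd_of_dvd_mul_right ⟨_, eq_neg_of_add_eq_zero_left h6 |>.trans
        (mul_neg _ _).symm⟩
  obtain ⟨ρ, η, hη, rfl, e2⟩ := shape hI hh h7
  obtain ⟨g0, g1, g2, e1⟩ := hI.quad hg.le
  refine hE ρ η g0 g1 g2 _ _ _ _ rfl rfl rfl rfl (hI.transfer fun t ht => ?_)
    (fun h1 => hα (by simp [h1])) hη (fun h1 => s3 (by simp [e1, s1, h1])) (fun h1 => r3 ?_) ?_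
  · have h8 := congrArg (eval t) h5
    rw [e1, e2] at h8
    simp only [eval_add, eval_mul, eval_pow, eval_C, eval_X, eval_zero, eval_sub, eval_neg,
      eval_one] at h8 ⊢
    obtain ⟨x, hx⟩ : ∃ x, U.eval t = x * W.eval t := ⟨_, (div_mul_cancel₀ _ ht).symm⟩
    rw [hx] at h8
    rw [hx, mul_div_cancel_right₀ _ ht]
    refine (mul_eq_zero.1 (?_ : W.eval t ^ 15 * _ = 0)).resolve_left (pow_ne_zero _ ht)
    linear_combination h8
  · simp only [eval_add, eval_mul, eval_C, r1]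
    linear_combination W.eval r * h1
  · rw [e1, e2] at r4
    simp only [eval_add, eval_mul, eval_pow, eval_C, eval_X, eval_sub, eval_one, r1] at r4 ⊢
    refine (mul_eq_zero.1 (?_ : W.eval r ^ 3 * _ = 0)).resolve_left (pow_ne_zero _ r2)
    linear_combination r4

end T2A

open T2A in
theorem p_T2 (hE1N : S_E1N) :
    S_T2 := by
  intro a b c e f r s t g u h v D hr hs hf hg ⟨U, hU⟩ ⟨z, hz⟩ he hh ⟨T, hT⟩
  have p1 : e + a ≠ 0 ∧ (e + a).natDegree = 3 := D.gd.pair 3 0 (by decide)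
  have p2 : f + c ≠ 0 ∧ (f + c).natDegree = 3 := D.gd.pair 4 2 (by decide)
  have p3 : a + b ≠ 0 := (D.gd.pair 0 1 (by decide)).1
  have e0 : e ≠ 0 := D.ne 3
  have f0 : f ≠ 0 := D.ne 4
  have dU : U.natDegree = 1 := deg_of_mul hg (hU ▸ p1.1) (hU ▸ p1.2)
  have dT : T.natDegree = 1 := deg_of_mul hh (hT ▸ p2.1) (hT ▸ p2.2)
  have du : u.natDegree = 1 := deg_of_mul hg (hf ▸ f0) (hf ▸ D.degf)
  have dv : v.natDegree = 1 := deg_of_mul hh (he ▸ e0) (he ▸ D.dege)
  have fs := D.fs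
  have es := D.es
  have fr := D.fr
  have er := D.er
  rw [hf, eval_mul] at fs fr
  rw [he, eval_mul] at es er
  have s1 : U.eval s = 0 := by
    rw [hU, eval_mul] at hs
    exact (mul_eq_zero.1 hs).resolve_left (left_ne_zero_of_mul fs)
  have hI : Ind U (-u) := Ind.of_root dU.le (by rw [natDegree_neg, du])
    (by rintro rfl; simp at dU) s1 (by rw [eval_neg]; exact neg_ne_zero.2 (right_ne_zero_of_mul fs))
  have ea : a = g * U - h * v := by linear_combination hU - he
  have ec : c = h * T - g * u := by linear_combination hT - hf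
  have eb : b = -(g * U) - h * T := by linear_combination D.s1 - hU - hT
  have s2 : T.eval s = 0 := by
    have := D.rb
    rw [eb] at this
    simp only [eval_sub, eval_neg, eval_mul, s1, mul_zero, neg_zero, zero_sub, neg_eq_zero] at this
    exact (mul_eq_zero.1 this).resolve_left (left_ne_zero_of_mul es)
  obtain ⟨t0, t1, eT⟩ := hI.lin dT.le
  obtain ⟨m0, m1, eM⟩ := hI.lin (l := -v - T)
    ((natDegree_sub_le _ _).trans (by rw [natDegree_neg, dv, dT, max_self]))
  have ht1 : t1 = 0 := by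
    rw [eT] at s2
    simpa [s1, right_ne_zero_of_mul fs] using s2
  obtain ⟨w, hw⟩ : ∃ w, u.eval w = 0 := exists_root_of_degree_eq_one
    ((degree_eq_iff_natDegree_eq_of_pos one_pos).2 du)
  have w1 : e.eval w ≠ 0 := fun h1 => D.gd.v1 w 3 4 (by decide) h1
    (by change f.eval w = 0; rw [hf, eval_mul, hw, mul_zero])
  have w2 : U.eval w ≠ 0 := fun h1 => hI.not_both w h1 (by rw [eval_neg, hw, neg_zero])
  have eab : a + b = h * (C m0 * U + C m1 * -u) := by linear_combination ea + eb + h * eM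
  have hm0 : m0 = 0 := by
    have h1 : a + b = -(u * (z + g)) := by linear_combination D.s1 - hz - hf
    have h2 := congrArg (eval w) (h1.symm.trans eab)
    rw [he, eval_mul] at w1
    simpa [hw, w2, left_ne_zero_of_mul w1] using h2
  subst ht1 hm0
  have hm1 : m1 ≠ 0 := fun h1 => p3 (by simp [eab, h1])
  have ht0 : t0 ≠ 0 := fun h1 => by simp [eT, h1] at dT
  have k1 : C m1 * C (t0 / m1) = C t0 := by rw [← C_mul, mul_div_cancel₀ _ hm1]
  have k2 : h * T = C m1 * h * (C (t0 / m1) * U) := by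
    rw [eT, ← k1, C_0]
    ring
  have k3 : h * v = -(C m1 * h * (-u + C (t0 / m1) * U)) := by
    rw [C_0] at eM
    linear_combination -k2 - h * eM
  have r1 : U.eval r = (-u).eval r := by
    have h1 : e + f = g * (U + u) - a := by linear_combination hU + hf
    rw [h1, eval_sub, D.ra, sub_zero, eval_mul, eval_add] at hr
    rw [eval_neg]
    linear_combination (mul_eq_zero.1 hr).resolve_left (left_ne_zero_of_mul fr)
  refine core hE1N (h := C m1 * h) (α := t0 / m1) (r := r) (s := s) hI hg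
    (by rw [natDegree_C_mul hm1, hh]) (div_ne_zero ht0 hm1) dU ?_ ?_ s1 ?_
    (left_ne_zero_of_mul fs) r1 ?_ ?_ ?_
  · have h5 := D.gd.five
    rw [ea, eb, ec, he, hf, k2, k3] at h5
    linear_combination h5
  · have hc := D.cop
    rw [he, k3, hf] at hc
    rw [mul_neg]
    exact ((IsCoprime.neg_left_iff _ _).1 hc).of_mul_left_left.neg_right
  · rw [eval_mul, eval_C]
    exact mul_ne_zero hm1 (left_ne_zero_of_mul es)
  · rw [eval_neg]
    exact neg_ne_zero.2 (right_ne_zero_of_mul fr)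
  · intro h1
    refine er ?_
    rw [← eval_mul, k3, eval_neg, eval_mul, h1, mul_zero, neg_zero]
  · have h1 := D.ra
    rwa [ea, k3, sub_neg_eq_add] at h1

end Pool.Agent.P.MP_440ce3_nt
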