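import Pool.Agent.P.MP_440ce3_nt.G.Iface

/-! Step T3 of the Fermat quintic project. -/

namespace Pool.Agent.P.MP_440ce3_nt

open Polynomial

namespace T3A

theorem deg_right {p q : ℚ[X]} {m n : ℕ} (hp : p.natDegree = m) (h0 : p ≠ 0)
    (h : (p * q).natDegree ≤ m + n) : q.natDegree ≤ n := by
  by_cases hq : q = 0
  · simp [hq]
  · rw [natDegree_mul h0 hq] at h
    omega

theorem const {p q : ℚ[X]} (hp : p.natDegree = 1) (hq : q.natDegree ≤ 1) (h0 : q ≠ 0)
    (h : p ∣ q) : ∃ k : ℚ, k ≠ 0 ∧ q = C k * p := by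
  obtain ⟨w, rfl⟩ := h
  have h1 : w.natDegree ≤ 0 := deg_right hp (left_ne_zero_of_mul h0) hq
  rw [eq_C_of_natDegree_le_zero h1] at h0 ⊢
  exact ⟨_, fun h => h0 (by simp [h]), mul_comm _ _⟩

theorem split {U W q l : ℚ[X]} {α : ℚ} (hI : Ind U W) (hq : q.natDegree ≤ 2) (hl : l.natDegree ≤ 1)
    (h : U ^ 3 + U ^ 2 * W + U * W ^ 2 + C (1 + α) * W ^ 3 = q * l) :
    ∃ ρ η : ℚ, η ≠ 0 ∧ α = -((ρ + 1) * (ρ ^ 2 + 1)) ∧ l = C η * (U - C ρ * W) ∧
      q = C η⁻¹ * (U ^ 2 + (1 + C ρ) * U * W + (1 + C ρ + C ρ ^ 2) * W ^ 2) := by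
  obtain ⟨q0, q1, q2, rfl⟩ := hI.quad hq
  obtain ⟨l0, l1, rfl⟩ := hI.lin hl
  obtain ⟨h0, h1, h2, h3⟩ := hI.cubic (c0 := q0 * l0 - 1) (c1 := q0 * l1 + q1 * l0 - 1)
    (c2 := q1 * l1 + q2 * l0 - 1) (c3 := q2 * l1 - (1 + α)) (by
      simp only [map_sub, map_add, map_mul, map_one] at h ⊢
      linear_combination -h)
  have hl0 : l0 ≠ 0 := by rintro rfl; simp at h0
  obtain ⟨ρ, rfl⟩ : ∃ ρ, l1 = -(l0 * ρ) := ⟨-l1 / l0, by field_simp⟩
  have e0 : q0 = l0⁻¹ := by field_simp; linear_combination h0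
  have e1 : q1 = l0⁻¹ * (1 + ρ) := by field_simp; linear_combination h1 + ρ * h0
  have e2 : q2 = l0⁻¹ * (1 + ρ + ρ ^ 2) := by
    field_simp; linear_combination h2 + ρ * h1 + ρ ^ 2 * h0
  refine ⟨ρ, l0, hl0, ?_, ?_, ?_⟩
  · linear_combination -h3 - ρ * h2 - ρ ^ 2 * h1 - ρ ^ 3 * h0
  · simp only [map_neg, map_mul]; ring
  · rw [e0, e1, e2]
    simp only [map_add, map_mul, map_pow, map_one]; ring

theorem core (hE2N : S_E2N) {U W g h M T : ℚ[X]} {α s t : ℚ} (hI : Ind U W)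
    (hg : g.natDegree = 2) (hh : h.natDegree = 2) (hV : (W - U).natDegree = 1) (hα : α ≠ 0)
    (hM : M = -(C α * (W - U))) (hT : T = M - W)
    (h5 : (g * U + h * M) ^ 5 + (-(g * U) - h * T) ^ 5 + (g * W + h * T) ^ 5 + (-(h * M)) ^ 5 +
      (-(g * W)) ^ 5 = 0) (hc : IsCoprime h (g * W)) (hUt : U.eval t = 0)
    (hct : (g * W + h * T).eval t = 0) (hTs : T.eval s = 0) (hWs : W.eval s ≠ 0)
    (hbs : (g * U + h * M).eval s = 0) (hgs : g.eval s ≠ 0) (hUs : U.eval s ≠ 0) : False := by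
  have hg0 : g ≠ 0 := by rintro rfl; simp at hg
  have hh0 : h ≠ 0 := by rintro rfl; simp at hh
  have hV0 : W - U ≠ 0 := fun e => by simp [e] at hV
  set K := U ^ 3 + U ^ 2 * W + U * W ^ 2 + C (1 + α) * W ^ 3 with hK
  have hKd : K.natDegree ≤ 3 := by
    have h1 := hI.1
    have h2 := hI.2.1
    rw [hK]
    compute_degree
    omega
  have hd : h ∣ (W - U) * K := by
    have h1 : h ∣ g ^ 3 * W * ((W - U) * K) := by
      refine ⟨2 * (U ^ 3 * (M ^ 2 - T ^ 2) + W ^ 3 * T ^ 2) * g ^ 2 +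
        2 * (U ^ 2 * (M ^ 3 - T ^ 3) + W ^ 2 * T ^ 3) * g * h +
        (U * (M ^ 4 - T ^ 4) + W * T ^ 4) * h ^ 2, ?_⟩
      refine mul_left_cancel₀ (mul_ne_zero (mul_ne_zero (show (5 : ℚ[X]) ≠ 0 by
        exact_mod_cast (by norm_num : (5 : ℕ) ≠ 0)) hg0) hh0) ?_
      have h2 : U ^ 4 * (M - T) + W ^ 4 * T = -(W * ((W - U) * K)) := by
        rw [hT, hM, hK, map_add, map_one]; ring
      linear_combination -h5 + 5 * g ^ 4 * h * h2
    exact (hc.of_mul_right_left.pow_right.mul_right hc.of_mul_right_right).dvd_of_dvd_mul_left h1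
  obtain ⟨ρ, η, H, hη, hρ, hH, hH'⟩ : ∃ (ρ η : ℚ) (H : ℚ[X]), η ≠ 0 ∧
      α = -((ρ + 1) * (ρ ^ 2 + 1)) ∧ (H = C η * (X ^ 2 + (1 + C ρ) * X + (1 + C ρ + C ρ ^ 2)) ∨
        H = C η * ((1 - X) * (X - C ρ))) ∧
      ∀ y x, U.eval y = x * W.eval y → h.eval y = W.eval y ^ 2 * H.eval x := by
    by_cases e : W - U ∣ h
    · obtain ⟨l, rfl⟩ := e
      obtain ⟨q, hq⟩ := (mul_dvd_mul_iff_left hV0).1 hd
      have hl0 := right_ne_zero_of_mul hh0
      have hl : l.natDegree = 1 := by rw [natDegree_mul hV0 hl0] at hh; omega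
      obtain ⟨ρ, η, h1, h2, h3, -⟩ := split hI (deg_right hl hl0 (hq ▸ hKd)) hl.le
        (hK.symm.trans (hq.trans (mul_comm _ _)))
      refine ⟨ρ, η, _, h1, h2, Or.inr rfl, fun y x hy => ?_⟩
      rw [h3]
      simp only [eval_mul, eval_sub, eval_C, eval_X, eval_one, hy]
      ring
    · have hirr : Irreducible (W - U) :=
        irreducible_of_degree_eq_one ((degree_eq_iff_natDegree_eq hV0).2 hV)
      obtain ⟨l, hl⟩ := (hirr.coprime_iff_not_dvd.2 e).symm.dvd_of_dvd_mul_left hd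
      obtain ⟨ρ, η, h1, h2, -, h3⟩ := split hI hh.le (deg_right hh hh0 (hl ▸ hKd))
        (hK.symm.trans hl)
      refine ⟨ρ, η⁻¹, _, inv_ne_zero h1, h2, Or.inl rfl, fun y x hy => ?_⟩
      rw [h3]
      simp only [eval_mul, eval_add, eval_pow, eval_C, eval_X, eval_one, hy]
      ring
  obtain ⟨g0, g1, g2, hG⟩ := hI.quad hg.le
  set G : ℚ[X] := C g0 * X ^ 2 + C g1 * X + C g2 with hGd
  have hG' : ∀ y x, U.eval y = x * W.eval y → g.eval y = W.eval y ^ 2 * G.eval x := by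
    intro y x hy
    rw [hG, hGd]
    simp only [eval_mul, eval_add, eval_pow, eval_C, eval_X, hy]
    ring
  have hs : U.eval s = (1 + α) / α * W.eval s := by
    rw [hT, hM] at hTs
    simp only [eval_mul, eval_sub, eval_neg, eval_C] at hTs
    field_simp
    linear_combination hTs
  have hWt : W.eval t ≠ 0 := hI.not_both t hUt
  subst hT hM
  refine hE2N ρ η α g0 g1 g2 G H _ _ hGd hH hρ rfl rfl (hI.transfer fun y hy => ?_) ?_ hη hα ?_ ?_ ?_
  · have h1 : U.eval y = U.eval y / W.eval y * W.eval y := by field_simp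
    have h2 := congrArg (eval y) h5
    generalize U.eval y / W.eval y = x at h1 ⊢
    simp only [eval_mul, eval_add, eval_sub, eval_neg, eval_pow, eval_C, eval_X, eval_one,
      eval_zero, hG' y x h1, hH' y x h1, h1] at h2 ⊢
    refine mul_left_cancel₀ (pow_ne_zero 15 hy) ?_
    linear_combination h2
  · rintro rfl
    refine hUs ?_
    rw [hs, hρ]
    norm_num
  · have h1 : U.eval t = 0 * W.eval t := by rw [hUt, zero_mul]
    simp only [eval_mul, eval_add, eval_sub, eval_neg, eval_C, eval_X, eval_one,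
      hG' t 0 h1, hH' t 0 h1, hUt] at hct ⊢
    refine mul_left_cancel₀ (pow_ne_zero 3 hWt) ?_
    linear_combination hct
  · simp only [eval_mul, eval_add, eval_sub, eval_neg, eval_C, eval_X, eval_one,
      hG' s _ hs, hH' s _ hs, hs] at hbs ⊢
    refine mul_left_cancel₀ (pow_ne_zero 3 hWs) ?_
    linear_combination hbs
  · intro h1
    exact hgs (by rw [hG' s _ hs, h1, mul_zero])

end T3A

open T3A in
theorem p_T3 (hE2N : S_E2N) :
    S_T3 := by
  intro a b c e f r s t g u h v hD hs ht hf hg ⟨U, hU⟩ hu he hh ⟨T, hT⟩ hv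
  have hg0 : g ≠ 0 := by rintro rfl; simp at hg
  have hh0 : h ≠ 0 := by rintro rfl; simp at hh
  have hf0 : f ≠ 0 := hD.ne 4
  have he0 : e ≠ 0 := hD.ne 3
  have hu1 : u.natDegree = 1 := by
    have := hD.degf
    rw [hf, natDegree_mul hg0 (right_ne_zero_of_mul (hf ▸ hf0))] at this
    omega
  have hv1 : v.natDegree = 1 := by
    have := hD.dege
    rw [he, natDegree_mul hh0 (right_ne_zero_of_mul (he ▸ he0))] at this
    omega
  have heb : e + b ≠ 0 ∧ (e + b).natDegree = 3 := hD.gd.pair 3 1 (by decide)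
  have hfc : f + c ≠ 0 ∧ (f + c).natDegree = 3 := hD.gd.pair 4 2 (by decide)
  have hab : a + b ≠ 0 ∧ (a + b).natDegree = 3 := hD.gd.pair 0 1 (by decide)
  have hac : a + c ≠ 0 ∧ (a + c).natDegree = 3 := hD.gd.pair 0 2 (by decide)
  have hU1 : U.natDegree ≤ 1 := deg_right hg hg0 (hU ▸ heb.2.le)
  have hT1 : T.natDegree ≤ 1 := deg_right hh hh0 (hT ▸ hfc.2.le)
  have hcop : IsCoprime (h * v) (g * u) := he ▸ hf ▸ hD.cop
  have hft := hD.ft
  have hfs := hD.fs
  have hes := hD.es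
  rw [hf, eval_mul] at hft hfs
  rw [he, eval_mul] at hes
  have hUt : U.eval t = 0 := by
    rw [hU, eval_mul] at ht
    exact (mul_eq_zero.1 ht).resolve_left (left_ne_zero_of_mul hft)
  have hI : Ind U (-u) := Ind.of_root hU1 (by rw [natDegree_neg, hu1])
    (right_ne_zero_of_mul (hU ▸ heb.1)) hUt (by simpa using right_ne_zero_of_mul hft)
  have s1 := hD.s1
  have e1 : a + b = h * (-v - T) := by linear_combination s1 - hT - he
  have e2 : a + c = g * (-u - U) := by linear_combination s1 - hU - hf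
  obtain ⟨γ, hγ, h1⟩ := const (q := -v - T) hu1 (deg_right hh hh0 (e1 ▸ hab.2.le))
    (right_ne_zero_of_mul (e1 ▸ hab.1)) (hcop.of_mul_left_left.of_mul_right_right.symm.dvd_of_dvd_mul_left
      (by
        rw [← e1, show a + b = -(e + c) - g * u by linear_combination s1 - hf]
        exact dvd_sub (dvd_neg.2 hu) (dvd_mul_left _ _)))
  obtain ⟨κ, hκ, h2⟩ := const (q := -u - U) hv1 (deg_right hg hg0 (e2 ▸ hac.2.le))
    (right_ne_zero_of_mul (e2 ▸ hac.1)) (hcop.of_mul_left_right.of_mul_right_left.dvd_of_dvd_mul_left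
      (by
        rw [← e2, show a + c = -(f + b) - h * v by linear_combination s1 - he]
        exact dvd_sub (dvd_neg.2 hv) (dvd_mul_left _ _)))
  have hi : C γ * C γ⁻¹ = 1 := by rw [← C_mul, mul_inv_cancel₀ hγ, C_1]
  have hk : C κ * C κ⁻¹ = 1 := by rw [← C_mul, mul_inv_cancel₀ hκ, C_1]
  have hb : b = g * U + -(C γ * h) * (C γ⁻¹ * v) := by linear_combination hU - he + h * v * hi
  have hc : c = g * -u + -(C γ * h) * -(C γ⁻¹ * T) := by linear_combination hT - hf - h * T * hi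
  have hTs : T.eval s = 0 := by
    have h3 := congrArg (eval s) (show h * T = -(e + a) - b by linear_combination s1 - hT)
    rw [eval_mul, eval_sub, eval_neg, hs, hD.rb] at h3
    exact (mul_eq_zero.1 (by simpa using h3)).resolve_left (left_ne_zero_of_mul hes)
  refine core hE2N (h := -(C γ * h)) (M := C γ⁻¹ * v) (T := -(C γ⁻¹ * T)) (α := -(γ⁻¹ * κ⁻¹))
    (s := s) hI hg (by rw [natDegree_neg, natDegree_C_mul hγ, hh])
    (by rw [h2, natDegree_C_mul hκ, hv1]) (by simp [hγ, hκ]) ?_ ?_ ?_ ?_ hUt (hc ▸ hD.rc)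
    (by simp [hTs]) (by simpa using right_ne_zero_of_mul hfs) (hb ▸ hD.rb)
    (left_ne_zero_of_mul hfs) fun h3 => ?_
  · rw [h2, map_neg, map_mul]
    linear_combination -(C γ⁻¹ * v) * hk
  · linear_combination C γ⁻¹ * h1 + u * hi
  · have ha : a = -(g * U) - -(C γ * h) * -(C γ⁻¹ * T) := by
      linear_combination s1 - hU - hT + h * T * hi
    have he' : e = -(-(C γ * h) * (C γ⁻¹ * v)) := by linear_combination he - h * v * hi
    have hf' : f = -(g * -u) := by linear_combination hf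
    rw [← hb, ← ha, ← hc, ← he', ← hf']
    linear_combination hD.gd.five
  · rw [mul_neg]
    exact ((isCoprime_mul_unit_left_left (isUnit_C.2 (isUnit_iff_ne_zero.2 hγ)) _ _).2
      hcop.of_mul_left_left).neg_neg
  · have h4 := lin_eq hU1
    have h5 : U ≠ 0 := right_ne_zero_of_mul (hU ▸ heb.1)
    rw [h4] at h3 hUt h5
    simp only [eval_add, eval_mul, eval_C, eval_X] at h3 hUt
    have h6 : U.coeff 1 = 0 := (mul_eq_zero.1 (show U.coeff 1 * (s - t) = 0 by
      linear_combination h3 - hUt)).resolve_right (sub_ne_zero.2 hD.st)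
    rw [h6] at h3 h5
    exact h5 (by rw [show U.coeff 0 = 0 by simpa using h3]; simp)

end Pool.Agent.P.MP_440ce3_nt
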