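import Pool.Agent.P.MP_440ce3_nt.G.Iface

/-! Step TRI of the Fermat quintic project. -/

namespace Pool.Agent.P.MP_440ce3_nt

open Polynomial

namespace TriA

theorem const_mul {p q : ℚ[X]} (h : p ∣ q) (hq : q ≠ 0) (hd : q.natDegree = p.natDegree) :
    ∃ θ : ℚ, θ ≠ 0 ∧ q = C θ * p := by
  obtain ⟨u, rfl⟩ := h
  rw [natDegree_mul (left_ne_zero_of_mul hq) (right_ne_zero_of_mul hq)] at hd
  obtain ⟨θ, rfl⟩ := natDegree_eq_zero.1 (show u.natDegree = 0 by omega)
  exact ⟨θ, fun h0 => hq (by simp [h0]), mul_comm _ _⟩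

end TriA

open TriA in
theorem p_TRI :
    S_TRI := by
  intro a b c e f r s t h hr hs ht hf hcase
  have hec := h.gd.pair 3 2 (by decide)
  obtain ⟨θ, θ0, hθ⟩ := const_mul hf hec.1 (hec.2.trans h.degf.symm)
  have ev : ∀ x : ℚ, a.eval x + b.eval x + c.eval x + e.eval x + f.eval x = 0 := fun x => by
    simpa only [eval_add, eval_zero] using congrArg (eval x) h.s1
  have eθ : ∀ x : ℚ, e.eval x + c.eval x = θ * f.eval x := fun x => by
    simpa only [eval_add, eval_mul, eval_C] using congrArg (eval x) hθ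
  rw [eval_add] at hr hs ht
  rcases hcase with he | ⟨g, hg, ⟨W, hW⟩, ⟨U, hU⟩⟩
  · have hfb := h.gd.pair 4 1 (by decide)
    obtain ⟨θ', -, hθ'⟩ := const_mul he hfb.1 (hfb.2.trans h.dege.symm)
    have eθ' : ∀ x : ℚ, f.eval x + b.eval x = θ' * e.eval x := fun x => by
      simpa only [eval_add, eval_mul, eval_C] using congrArg (eval x) hθ'
    have h1 : θ = θ' := mul_right_cancel₀ h.fr (by
      linear_combination -eθ r - eθ' r + ev r - h.ra - θ' * hr)
    refine noRat_ex θ (mul_right_cancel₀ h.fs ?_)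
    subst h1
    linear_combination -θ * eθ s - eθ' s + θ * (ev s - hs - h.rb) + h.rb
  · have hfa := h.gd.pair 4 0 (by decide)
    have h1 : f + a ≠ 0 := hfa.1
    have h2 : (f + a).natDegree = 3 := hfa.2
    have h3 : e ≠ 0 := h.ne 3
    have h4 := h.dege
    rw [hU] at h1 h2
    rw [hW] at h3 h4
    rw [natDegree_mul (left_ne_zero_of_mul h1) (right_ne_zero_of_mul h1)] at h2
    rw [natDegree_mul (left_ne_zero_of_mul h3) (right_ne_zero_of_mul h3)] at h4
    have g0 : g ≠ 0 := left_ne_zero_of_mul h1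
    have f0 : f ≠ 0 := h.ne 4
    have ea : a = g * U - f := by linear_combination hU
    have ec : c = C θ * f - g * W := by linear_combination hθ - hW
    have eb : b = -(C θ * f) - g * U := by linear_combination h.s1 - hθ - hU
    have h5 := h.gd.five
    rw [ea, eb, ec, hW] at h5
    have h6 : 5 * g * f * ((U - C θ ^ 4 * (U + W)) * f ^ 3 +
        g * (2 * (-U ^ 2 - C θ ^ 3 * U ^ 2 + C θ ^ 3 * W ^ 2) * f ^ 2 +
          2 * (U ^ 3 - C θ ^ 2 * U ^ 3 - C θ ^ 2 * W ^ 3) * g * f +
          (C θ * W ^ 4 - (1 + C θ) * U ^ 4) * g ^ 2)) = 0 := by linear_combination h5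
    have h7 := (mul_eq_zero.1 h6).resolve_left
      (mul_ne_zero (mul_ne_zero (by norm_num) g0) f0)
    have hc : IsCoprime g (f ^ 3) := (IsCoprime.of_isCoprime_of_dvd_left h.cop ⟨W, hW⟩).pow_right
    have h8 : g ∣ U - C θ ^ 4 * (U + W) := hc.dvd_of_dvd_mul_right
      (dvd_neg.1 ⟨_, neg_eq_of_add_eq_zero_right h7⟩)
    have h9 : U - C θ ^ 4 * (U + W) = 0 := by
      refine eq_zero_of_dvd_of_natDegree_lt h8 (lt_of_le_of_lt (b := 1) ?_ (by omega))
      rw [← C_pow]
      exact (natDegree_sub_le _ _).trans (max_le (by omega) ((natDegree_C_mul_le _ _).trans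
        ((natDegree_add_le _ _).trans (max_le (by omega) (by omega)))))
    have k1 := h.et
    rw [hW, eval_mul] at k1
    have k2 : g.eval t * U.eval t = 0 := by
      rw [← eval_mul, ← hU, eval_add]
      linear_combination ev t - ht - h.rc
    have k3 := (mul_eq_zero.1 k2).resolve_left (left_ne_zero_of_mul k1)
    have k4 := congrArg (eval t) h9
    simp only [eval_sub, eval_mul, eval_pow, eval_C, eval_add, k3, eval_zero, zero_add, zero_sub,
      neg_eq_zero] at k4
    exact mul_ne_zero (pow_ne_zero 4 θ0) (right_ne_zero_of_mul k1) k4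

end Pool.Agent.P.MP_440ce3_nt
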