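import Pool.Agent.P.MP_440ce3_nt.G.Iface

/-! Step TRIV of the Fermat quintic project. -/

namespace Pool.Agent.P.MP_440ce3_nt

open Polynomial

namespace TrivA

theorem three {x : Fin 5 → ℚ[X]} (τ : Equiv.Perm (Fin 5)) (h : ∑ k, x k ^ 5 = 0)
    (h1 : x (τ 0) + x (τ 1) = 0) : x (τ 2) ^ 5 + x (τ 3) ^ 5 + x (τ 4) ^ 5 = 0 := by
  rw [← Equiv.sum_comp τ, Fin.sum_univ_five, eq_neg_of_add_eq_zero_left h1] at h
  linear_combination h

theorem core {x : Fin 5 → ℚ[X]} (τ : Equiv.Perm (Fin 5)) (h : ∑ k, x k ^ 5 = 0)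
    (h1 : x (τ 0) + x (τ 1) = 0) (h2 : x (τ 4) = 0) :
    ∃ σ : Equiv.Perm (Fin 5), σ * σ = 1 ∧ ∀ k, x (σ k) = -x k := by
  have h3 := three τ h h1
  have h4 : x (τ 2) = -x (τ 3) := Polynomial.funext fun t => by
    have h5 := congrArg (eval t) h3
    simp only [h2, eval_add, eval_pow, eval_zero] at h5
    refine (Odd.strictMono_pow (n := 5) (by decide)).injective ?_
    simp only [eval_neg]
    linear_combination h5
  refine ⟨τ * (Equiv.swap 0 1 * Equiv.swap 2 3) * τ⁻¹, ?_, fun k => ?_⟩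
  · rw [conj_mul, show (Equiv.swap 0 1 * Equiv.swap 2 3) * (Equiv.swap 0 1 * Equiv.swap 2 3) =
      (1 : Equiv.Perm (Fin 5)) by decide, mul_one, mul_inv_cancel]
  · obtain ⟨k, rfl⟩ := τ.surjective k
    rw [Equiv.Perm.mul_apply, Equiv.Perm.inv_def, Equiv.symm_apply_apply]
    fin_cases k
    · exact eq_neg_of_add_eq_zero_right h1
    · exact eq_neg_of_add_eq_zero_left h1
    · exact (by rw [h4, neg_neg] : x (τ 3) = -x (τ 2))
    · exact h4
    · exact (h2.trans (neg_eq_zero.2 h2).symm : x (τ 4) = -x (τ 4))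

end TrivA

theorem p_TRIV (hPP : S_PP) :
    S_TRIV := by
  intro x i j h hij h1
  obtain ⟨τ, rfl, rfl⟩ : ∃ τ : Equiv.Perm (Fin 5), τ 0 = i ∧ τ 1 = j :=
    ⟨Equiv.swap 0 i * Equiv.swap 1 (Equiv.swap 0 i j), by clear h1; revert i j; decide⟩
  have h2 : x (τ 2) * x (τ 3) * x (τ 4) = 0 := Polynomial.funext fun t => by
    simpa only [eval_mul, eval_zero] using hPP.2 _ _ _ (by
      simpa only [eval_add, eval_pow, eval_zero] using congrArg (eval t) (TrivA.three τ h h1))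
  rcases mul_eq_zero.1 h2 with h3 | h3
  · rcases mul_eq_zero.1 h3 with h4 | h4
    · exact TrivA.core (τ * Equiv.swap 2 4) h h1 h4
    · exact TrivA.core (τ * Equiv.swap 3 4) h h1 h4
  · exact TrivA.core τ h h1 h3

end Pool.Agent.P.MP_440ce3_nt
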