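import Pool.Agent.P.MP_440ce3_nt.G.Iface

/-! Step VL of the Fermat quintic project. -/

namespace Pool.Agent.P.MP_440ce3_nt

open Polynomial

namespace VlA

theorem rest (i j k : Fin 5) (hij : i ≠ j) (hik : i ≠ k) (hjk : j ≠ k) :
    ∃ l m : Fin 5, l ≠ m ∧ (∀ n, n = i ∨ n = j ∨ n = k ∨ n = l ∨ n = m) ∧
      (Finset.univ : Finset (Fin 5)).val = {i, j, k, l, m} := by
  revert i j k; decide

theorem sum_eq {T : Type} [AddCommMonoid T] (f : Fin 5 → T) {i j k l m : Fin 5}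
    (h : (Finset.univ : Finset (Fin 5)).val = {i, j, k, l, m}) :
    ∑ n, f n = f i + (f j + (f k + (f l + f m))) := by
  rw [Finset.sum, h]; simp

theorem v3 (hPP : S_PP) {d : ℕ} {x : Fin 5 → ℚ[X]} (h : Nm d x) (π : ℚ[X]) (hπ : Irreducible π)
    (i j k : Fin 5) (hij : i ≠ j) (hik : i ≠ k) (hjk : j ≠ k) (hi : π ∣ x i) (hj : π ∣ x j)
    (hk : π ∣ x k) : False := by
  obtain ⟨l, m, hlm, hall, hu⟩ := rest i j k hij hik hjk
  have hs := h.sum5
  rw [sum_eq _ hu] at hs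
  have hd : π.natDegree ≤ 3 :=
    (natDegree_le_of_dvd (dvd_add hi hj) (h.pair i j hij).1).trans
      ((h.pair i j hij).2.le.trans h.d3)
  have h5 : π ^ 5 ∣ x l ^ 5 + x m ^ 5 := by
    rw [show x l ^ 5 + x m ^ 5 = -(x i ^ 5 + x j ^ 5 + x k ^ 5) by linear_combination hs]
    exact (dvd_add (dvd_add (pow_dvd_pow_of_dvd hi 5) (pow_dvd_pow_of_dvd hj 5))
      (pow_dvd_pow_of_dvd hk 5)).neg_right
  have h1 : π ∣ x l + x m := by
    have := hPP.1 π (x l) (x m) 0 hπ hd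
      (by simpa using (dvd_pow_self π (by norm_num)).trans h5)
    simpa using this
  have hl : ¬ π ∣ x l := fun hl => h.cop π hπ fun n => by
    rcases hall n with e | e | e | e | e <;> rw [e]
    exacts [hi, hj, hk, hl, (dvd_add_right hl).mp h1]
  have e : x l ^ 5 + x m ^ 5 = (x l + x m) * (C 5 * x l ^ 4 + (x l + x m) *
      (x m ^ 3 - 2 * x l * x m ^ 2 + 3 * x l ^ 2 * x m - 4 * x l ^ 3)) := by
    rw [map_ofNat C 5]; ring
  rw [e] at h5
  have h2 : π ^ 5 ∣ x l + x m := by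
    refine hπ.prime.pow_dvd_of_dvd_mul_right 5 (fun h3 => hl ?_) h5
    have h4 := (dvd_add_left (h1.mul_right _)).mp h3
    exact hπ.prime.dvd_of_dvd_pow
      ((isUnit_C.mpr (by norm_num : (5 : ℚ) ≠ 0).isUnit).dvd_mul_left.mp h4)
  have h3 := natDegree_le_of_dvd h2 (h.pair l m hlm).1
  rw [natDegree_pow, (h.pair l m hlm).2] at h3
  have := hπ.natDegree_pos
  have := h.d3
  omega

theorem two (i j : Fin 5) (hij : i ≠ j) :
    ∃ k l m : Fin 5, (i ≠ k ∧ j ≠ k) ∧ (i ≠ l ∧ j ≠ l) ∧ (i ≠ m ∧ j ≠ m) ∧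
      (Finset.univ : Finset (Fin 5)).val = {i, j, k, l, m} := by
  revert i j; decide

end VlA

theorem p_VL (hPP : S_PP) :
    S_VL := by
  intro d x h
  refine ⟨h.sum5, h.d1, h.d3, h.deg, h.pair, VlA.v3 hPP h, fun r i j hij hi hj => ?_⟩
  obtain ⟨k, l, m, hk, hl, hm, hu⟩ := VlA.two i j hij
  have hs := h.sum5
  rw [VlA.sum_eq _ hu] at hs
  have h1 := congrArg (eval r) hs
  simp only [eval_add, eval_pow, hi, hj, eval_zero] at h1
  have h2 := hPP.2 ((x k).eval r) ((x l).eval r) ((x m).eval r) (by linear_combination h1)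
  have h3 : ∀ n, i ≠ n ∧ j ≠ n → (x n).eval r ≠ 0 := fun n hn h0 =>
    VlA.v3 hPP h _ (irreducible_X_sub_C r) i j n hij hn.1 hn.2 (dvd_iff_isRoot.mpr hi)
      (dvd_iff_isRoot.mpr hj) (dvd_iff_isRoot.mpr h0)
  exact mul_ne_zero (mul_ne_zero (h3 k hk) (h3 l hl)) (h3 m hm) h2

end Pool.Agent.P.MP_440ce3_nt
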