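import Mathlib

/-! Toolbox for polynomial solutions of x0^5 + ... + x4^5 = 0 of degree at most 3. -/

namespace Pool.Agent.P.MP_440ce3_nt

open Polynomial

/-- A normalised solution: no common factor, all entries and pair sums of exact degree d. -/
structure Nm (d : ℕ) (x : Fin 5 → ℚ[X]) : Prop where
  sum5 : ∑ i, x i ^ 5 = 0
  d1 : 1 ≤ d
  d3 : d ≤ 3
  deg : ∀ i, x i = 0 ∨ (x i).natDegree = d
  pair : ∀ i j, i ≠ j → x i + x j ≠ 0 ∧ (x i + x j).natDegree = d
  cop : ∀ π : ℚ[X], Irreducible π → ¬ ∀ i, π ∣ x i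

/-- A normalised solution with no factor common to three entries and no rational root common
to two entries. -/
structure Gd (d : ℕ) (x : Fin 5 → ℚ[X]) : Prop where
  sum5 : ∑ i, x i ^ 5 = 0
  d1 : 1 ≤ d
  d3 : d ≤ 3
  deg : ∀ i, x i = 0 ∨ (x i).natDegree = d
  pair : ∀ i j, i ≠ j → x i + x j ≠ 0 ∧ (x i + x j).natDegree = d
  v3 : ∀ π : ℚ[X], Irreducible π → ∀ i j k, i ≠ j → i ≠ k → j ≠ k →
    π ∣ x i → π ∣ x j → π ∣ x k → False
  v1 : ∀ (r : ℚ) i j, i ≠ j → (x i).eval r = 0 → (x j).eval r = 0 → False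

theorem Gd.perm {d : ℕ} {x : Fin 5 → ℚ[X]} (h : Gd d x) (σ : Equiv.Perm (Fin 5)) :
    Gd d fun i => x (σ i) where
  sum5 := by rw [← h.sum5]; exact Equiv.sum_comp σ fun i => x i ^ 5
  d1 := h.d1
  d3 := h.d3
  deg := fun i => h.deg _
  pair := fun _ _ hij => h.pair _ _ (σ.injective.ne hij)
  v3 := fun π hπ _ _ _ h1 h2 h3 =>
    h.v3 π hπ _ _ _ (σ.injective.ne h1) (σ.injective.ne h2) (σ.injective.ne h3)
  v1 := fun r _ _ hij => h.v1 r _ _ (σ.injective.ne hij)

theorem Gd.perm' {d : ℕ} {x y : Fin 5 → ℚ[X]} (h : Gd d x) (σ : Equiv.Perm (Fin 5))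
    (e : ∀ i, y i = x (σ i)) : Gd d y := by
  rw [funext e]; exact h.perm σ

theorem Gd.five {d : ℕ} {a b c e f : ℚ[X]} (h : Gd d ![a, b, c, e, f]) :
    a ^ 5 + b ^ 5 + c ^ 5 + e ^ 5 + f ^ 5 = 0 := by
  simpa [Fin.sum_univ_five] using h.sum5

/-- A rational polynomial of odd degree has a real root. -/
theorem odd_root {p : ℚ[X]} (hp : Odd p.natDegree) : ∃ ρ : ℝ, aeval ρ p = 0 := by
  have key : ∀ q : ℝ[X], q ≠ 0 → (∀ ρ, ¬ q.IsRoot ρ) → Even q.natDegree := by
    intro q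
    induction q using WfDvdMonoid.induction_on_irreducible with
    | zero => exact fun h => absurd rfl h
    | unit u hu => exact fun _ _ => by rw [natDegree_eq_zero_of_isUnit hu]; exact Even.zero
    | mul a i ha hi ih =>
      intro _ hr
      rw [natDegree_mul hi.ne_zero ha]
      refine Even.add ?_ (ih ha fun ρ h => hr ρ (root_mul_left_of_isRoot i h))
      have h1 := hi.natDegree_le_two
      have h2 := hi.natDegree_pos
      have h3 : i.natDegree ≠ 1 := fun h => by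
        obtain ⟨ρ, hρ⟩ := exists_root_of_degree_eq_one
          (p := i) (by rw [degree_eq_natDegree hi.ne_zero, h]; rfl)
        exact hr ρ (root_mul_right_of_isRoot a hρ)
      rw [show i.natDegree = 2 by omega]
      exact even_two
  by_contra hn
  push Not at hn
  have h0 : p ≠ 0 := by rintro rfl; simp at hp
  have := key (p.map (algebraMap ℚ ℝ)) (Polynomial.map_ne_zero h0) fun ρ h =>
    hn ρ (by rwa [IsRoot, eval_map_algebraMap] at h)
  rw [natDegree_map] at this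
  exact (Nat.not_even_iff_odd.mpr hp) this

/-- Three entries have no common real root. -/
theorem Gd.v3R {d : ℕ} {x : Fin 5 → ℚ[X]} (h : Gd d x) (ρ : ℝ) (i j k : Fin 5) (hij : i ≠ j)
    (hik : i ≠ k) (hjk : j ≠ k) (hi : aeval ρ (x i) = 0) (hj : aeval ρ (x j) = 0)
    (hk : aeval ρ (x k) = 0) : False := by
  have hal : IsAlgebraic ℚ ρ := ⟨x i + x j, (h.pair i j hij).1, by rw [map_add, hi, hj, add_zero]⟩
  exact h.v3 _ (minpoly.irreducible hal.isIntegral) i j k hij hik hjk (minpoly.dvd ℚ ρ hi)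
    (minpoly.dvd ℚ ρ hj) (minpoly.dvd ℚ ρ hk)

/-- The tangent condition at a rational point of shape (p, -p, q, -q, 0). -/
theorem tangent {a b c e f : ℚ[X]} (h : a ^ 5 + b ^ 5 + c ^ 5 + e ^ 5 + f ^ 5 = 0) (r : ℚ)
    (h1 : (a + b).eval r = 0) (h2 : (c + e).eval r = 0) (h3 : f.eval r = 0) :
    a.eval r ^ 4 * (derivative (a + b)).eval r + c.eval r ^ 4 * (derivative (c + e)).eval r = 0 := by
  have h4 := congrArg (fun p => (derivative p).eval r) h
  simp only [derivative_add, derivative_pow, eval_add, eval_mul, eval_pow, eval_C, derivative_zero,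
    eval_zero] at h4 h1 h2 ⊢
  have e1 : b.eval r = -a.eval r := by linarith
  have e2 : e.eval r = -c.eval r := by linarith
  rw [e1, e2, h3] at h4
  norm_num at h4
  linear_combination (1 / 5) * h4

/-- Data of a cubic solution on the surface where the entries add up to zero. -/
structure D3 (a b c e f : ℚ[X]) (r s t : ℚ) : Prop where
  gd : Gd 3 ![a, b, c, e, f]
  s1 : a + b + c + e + f = 0
  ne : ∀ i, ![a, b, c, e, f] i ≠ 0
  ra : a.eval r = 0
  rb : b.eval s = 0
  rc : c.eval t = 0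
  p3 : ∃ k : ℚ, k ≠ 0 ∧ a ^ 3 + b ^ 3 + c ^ 3 + e ^ 3 + f ^ 3 =
    C k * ((X - C r) * (X - C s) * (X - C t)) * e * f

section
variable {a b c e f : ℚ[X]} {r s t : ℚ}

theorem D3.swap12 (h : D3 a b c e f r s t) : D3 b a c e f s r t where
  gd := h.gd.perm' (Equiv.swap 0 1) (fun i => by fin_cases i <;> rfl)
  s1 := by linear_combination h.s1
  ne := fun i => by
    fin_cases i
    exacts [h.ne 1, h.ne 0, h.ne 2, h.ne 3, h.ne 4]
  ra := h.rb
  rb := h.ra
  rc := h.rc
  p3 := by obtain ⟨k, hk, e⟩ := h.p3; exact ⟨k, hk, by linear_combination e⟩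

theorem D3.swap23 (h : D3 a b c e f r s t) : D3 a c b e f r t s where
  gd := h.gd.perm' (Equiv.swap 1 2) (fun i => by fin_cases i <;> rfl)
  s1 := by linear_combination h.s1
  ne := fun i => by
    fin_cases i
    exacts [h.ne 0, h.ne 2, h.ne 1, h.ne 3, h.ne 4]
  ra := h.ra
  rb := h.rc
  rc := h.rb
  p3 := by obtain ⟨k, hk, e⟩ := h.p3; exact ⟨k, hk, by linear_combination e⟩

theorem D3.swap45 (h : D3 a b c e f r s t) : D3 a b c f e r s t where
  gd := h.gd.perm' (Equiv.swap 3 4) (fun i => by fin_cases i <;> rfl)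
  s1 := by linear_combination h.s1
  ne := fun i => by
    fin_cases i
    exacts [h.ne 0, h.ne 1, h.ne 2, h.ne 4, h.ne 3]
  ra := h.ra
  rb := h.rb
  rc := h.rc
  p3 := by obtain ⟨k, hk, e⟩ := h.p3; exact ⟨k, hk, by linear_combination e⟩

theorem D3.dege (h : D3 a b c e f r s t) : e.natDegree = 3 := (h.gd.deg 3).resolve_left (h.ne 3)

theorem D3.degf (h : D3 a b c e f r s t) : f.natDegree = 3 := (h.gd.deg 4).resolve_left (h.ne 4)

theorem D3.er (h : D3 a b c e f r s t) : e.eval r ≠ 0 := h.gd.v1 r 0 3 (by decide) h.ra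
theorem D3.es (h : D3 a b c e f r s t) : e.eval s ≠ 0 := h.gd.v1 s 1 3 (by decide) h.rb
theorem D3.et (h : D3 a b c e f r s t) : e.eval t ≠ 0 := h.gd.v1 t 2 3 (by decide) h.rc
theorem D3.fr (h : D3 a b c e f r s t) : f.eval r ≠ 0 := h.swap45.er
theorem D3.fs (h : D3 a b c e f r s t) : f.eval s ≠ 0 := h.swap45.es
theorem D3.ft (h : D3 a b c e f r s t) : f.eval t ≠ 0 := h.swap45.et

theorem D3.rs (h : D3 a b c e f r s t) : r ≠ s := fun e =>
  h.gd.v1 r 0 1 (by decide) h.ra (e ▸ h.rb)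
theorem D3.rt (h : D3 a b c e f r s t) : r ≠ t := h.swap23.rs
theorem D3.st (h : D3 a b c e f r s t) : s ≠ t := h.swap12.rt

theorem D3.cop (h : D3 a b c e f r s t) : IsCoprime e f := by
  refine isCoprime_of_irreducible_dvd (fun h0 => h.ne 3 h0.1) fun π hπ he hf => ?_
  obtain ⟨k, -, hk⟩ := h.p3
  have h1 : a * b * c = C (1 / 3) * (C k * ((X - C r) * (X - C s) * (X - C t)) * e * f - e ^ 3
      - f ^ 3 + (e + f) * (a ^ 2 + b ^ 2 + c ^ 2 - a * b - a * c - b * c)) := by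
    have h3 : C (1 / 3 : ℚ) * 3 = 1 := by rw [← map_ofNat C 3, ← C_mul]; norm_num
    linear_combination C (1 / 3) * hk - (a * b * c) * h3
      - C (1 / 3) * (a ^ 2 + b ^ 2 + c ^ 2 - a * b - a * c - b * c) * h.s1
  have h2 : π ∣ a * b * c := by
    rw [h1]
    exact Dvd.dvd.mul_left (dvd_add (dvd_sub (dvd_sub (Dvd.dvd.mul_left hf _)
      (dvd_pow he (by norm_num))) (dvd_pow hf (by norm_num))) ((dvd_add he hf).mul_right _)) _
  rcases hπ.prime.dvd_or_dvd h2 with h3 | h3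
  · rcases hπ.prime.dvd_or_dvd h3 with h4 | h4
    · exact h.gd.v3 π hπ 0 3 4 (by decide) (by decide) (by decide) h4 he hf
    · exact h.gd.v3 π hπ 1 3 4 (by decide) (by decide) (by decide) h4 he hf
  · exact h.gd.v3 π hπ 2 3 4 (by decide) (by decide) (by decide) h3 he hf

end

/-- Number of the points r, s, t where y vanishes. -/
noncomputable def nz (y : ℚ[X]) (r s t : ℚ) : ℕ :=
  (if y.eval r = 0 then 1 else 0) + (if y.eval s = 0 then 1 else 0) + if y.eval t = 0 then 1 else 0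

/-- Exactly one of four polynomials vanishes at r. -/
def One4 (r : ℚ) (y1 y2 y3 y4 : ℚ[X]) : Prop :=
  (if y1.eval r = 0 then 1 else 0) + (if y2.eval r = 0 then 1 else 0) +
    (if y3.eval r = 0 then 1 else 0) + (if y4.eval r = 0 then 1 else 0) = 1

/-- Two independent polynomials of degree at most 1. -/
def Ind (U W : ℚ[X]) : Prop :=
  U.natDegree ≤ 1 ∧ W.natDegree ≤ 1 ∧ U.coeff 1 * W.coeff 0 - U.coeff 0 * W.coeff 1 ≠ 0

theorem lin_eq {U : ℚ[X]} (h : U.natDegree ≤ 1) : U = C (U.coeff 1) * X + C (U.coeff 0) :=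
  eq_X_add_C_of_natDegree_le_one h

theorem Ind.of_root {U W : ℚ[X]} (hU : U.natDegree ≤ 1) (hW : W.natDegree ≤ 1) (h0 : U ≠ 0) {t : ℚ}
    (h1 : U.eval t = 0) (h2 : W.eval t ≠ 0) : Ind U W := by
  refine ⟨hU, hW, fun h => ?_⟩
  rw [lin_eq hU] at h1 h0
  rw [lin_eq hW] at h2
  simp only [eval_add, eval_mul, eval_C, eval_X] at h1 h2
  have h3 : U.coeff 1 = 0 :=
    (mul_eq_zero.mp (show U.coeff 1 * (W.coeff 1 * t + W.coeff 0) = 0 by
      linear_combination h + W.coeff 1 * h1)).resolve_right h2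
  have h4 : U.coeff 0 = 0 := by rw [h3] at h1; simpa using h1
  exact h0 (by rw [h3, h4]; simp)

theorem Ind.not_both {U W : ℚ[X]} (h : Ind U W) (t : ℚ) (h1 : U.eval t = 0) (h2 : W.eval t = 0) :
    False := by
  rw [lin_eq h.1] at h1
  rw [lin_eq h.2.1] at h2
  simp only [eval_add, eval_mul, eval_C, eval_X] at h1 h2
  exact h.2.2 (by linear_combination U.coeff 1 * h2 - W.coeff 1 * h1)

theorem Ind.basis {U W : ℚ[X]} (h : Ind U W) :
    ∃ p q p' q' : ℚ, X = C p * U + C q * W ∧ 1 = C p' * U + C q' * W := by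
  set Δ := U.coeff 1 * W.coeff 0 - U.coeff 0 * W.coeff 1 with hΔ
  have h0 : Δ ≠ 0 := h.2.2
  refine ⟨W.coeff 0 / Δ, -U.coeff 0 / Δ, -W.coeff 1 / Δ, U.coeff 1 / Δ, ?_, ?_⟩
  · refine Polynomial.funext fun x => ?_
    rw [lin_eq h.1, lin_eq h.2.1]
    simp only [eval_add, eval_mul, eval_C, eval_X, coeff_add, coeff_C_mul, coeff_X_one,
      coeff_X_zero, coeff_C_zero, coeff_C_succ, mul_one, mul_zero, add_zero, zero_add]
    field_simp
    rw [hΔ]; ring
  · refine Polynomial.funext fun x => ?_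
    rw [lin_eq h.1, lin_eq h.2.1]
    simp only [eval_add, eval_mul, eval_C, eval_X, coeff_add, coeff_C_mul, coeff_X_one,
      coeff_X_zero, coeff_C_zero, coeff_C_succ, mul_one, mul_zero, add_zero, zero_add, eval_one]
    field_simp
    rw [hΔ]; ring

theorem Ind.lin {U W : ℚ[X]} (h : Ind U W) {l : ℚ[X]} (hl : l.natDegree ≤ 1) :
    ∃ l0 l1 : ℚ, l = C l0 * U + C l1 * W := by
  obtain ⟨p, q, p', q', e1, e2⟩ := h.basis
  refine ⟨l.coeff 1 * p + l.coeff 0 * p', l.coeff 1 * q + l.coeff 0 * q', ?_⟩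
  simp only [map_add, map_mul]
  linear_combination lin_eq hl + C (l.coeff 1) * e1 + C (l.coeff 0) * e2

theorem Ind.quad {U W : ℚ[X]} (h : Ind U W) {g : ℚ[X]} (hg : g.natDegree ≤ 2) :
    ∃ g0 g1 g2 : ℚ, g = C g0 * U ^ 2 + C g1 * U * W + C g2 * W ^ 2 := by
  obtain ⟨p, q, p', q', e1, e2⟩ := h.basis
  have e3 : g = C (g.coeff 2) * X ^ 2 + C (g.coeff 1) * X + C (g.coeff 0) := by
    conv_lhs => rw [g.as_sum_range_C_mul_X_pow' (n := 3) (by omega)]
    simp [Finset.sum_range_succ]; ring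
  refine ⟨g.coeff 2 * p ^ 2 + g.coeff 1 * p * p' + g.coeff 0 * p' ^ 2,
    2 * g.coeff 2 * p * q + g.coeff 1 * (p * q' + q * p') + 2 * g.coeff 0 * p' * q',
    g.coeff 2 * q ^ 2 + g.coeff 1 * q * q' + g.coeff 0 * q' ^ 2, ?_⟩
  simp only [map_add, map_mul, map_pow, map_ofNat]
  linear_combination e3 + (C (g.coeff 2) * (X + C p * U + C q * W) + C (g.coeff 1)) * e1 +
    (C (g.coeff 1) * (C p * U + C q * W) + C (g.coeff 0) * (1 + C p' * U + C q' * W)) * e2

/-- Transfer to the coordinate U / W. -/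
theorem Ind.transfer {U W : ℚ[X]} (h : Ind U W) {S : ℚ[X]}
    (hS : ∀ t : ℚ, W.eval t ≠ 0 → S.eval (U.eval t / W.eval t) = 0) : S = 0 := by
  refine eq_zero_of_infinite_isRoot S ?_
  have hfin : {x : ℚ | U.coeff 1 - x * W.coeff 1 = 0}.Finite := by
    refine Set.Subsingleton.finite fun x hx y hy => ?_
    simp only [Set.mem_setOf_eq] at hx hy
    by_contra hne
    have h1 : W.coeff 1 = 0 :=
      (mul_eq_zero.mp (show (x - y) * W.coeff 1 = 0 by linear_combination hy - hx)).resolve_left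
        (sub_ne_zero.mpr hne)
    have h2 : U.coeff 1 = 0 := by rw [h1] at hx; simpa using hx
    exact h.2.2 (by rw [h1, h2]; ring)
  refine hfin.infinite_compl.mono fun x hx => ?_
  have hx' : U.coeff 1 - x * W.coeff 1 ≠ 0 := hx
  set t := (x * W.coeff 0 - U.coeff 0) / (U.coeff 1 - x * W.coeff 1) with ht
  have e1 : U.eval t = x * W.eval t := by
    rw [lin_eq h.1, lin_eq h.2.1]
    simp only [eval_add, eval_mul, eval_C, eval_X]
    rw [ht]; field_simp; ring
  have e2 : W.eval t ≠ 0 := fun h0 => h.not_both t (by rw [e1, h0, mul_zero]) h0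
  have := hS t e2
  rwa [e1, mul_div_cancel_right₀ _ e2] at this

theorem Ind.cubic {U W : ℚ[X]} (h : Ind U W) {c0 c1 c2 c3 : ℚ}
    (e : C c0 * U ^ 3 + C c1 * U ^ 2 * W + C c2 * U * W ^ 2 + C c3 * W ^ 3 = 0) :
    c0 = 0 ∧ c1 = 0 ∧ c2 = 0 ∧ c3 = 0 := by
  have h1 : C c0 * X ^ 3 + C c1 * X ^ 2 + C c2 * X + C c3 = 0 := by
    refine h.transfer fun t ht => ?_
    have := congrArg (eval t) e
    simp only [eval_add, eval_mul, eval_pow, eval_C, eval_X, eval_zero] at this ⊢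
    field_simp
    linear_combination this
  have h3 := fun i => congrArg (coeff · i) h1
  refine ⟨?_, ?_, ?_, ?_⟩
  · simpa [coeff_X, coeff_X_pow, coeff_C] using h3 3
  · simpa [coeff_X, coeff_X_pow, coeff_C] using h3 2
  · simpa [coeff_X, coeff_X_pow, coeff_C] using h3 1
  · simpa [coeff_X, coeff_X_pow, coeff_C] using h3 0

/-- Homogeneous evaluation of a list of integer coefficients (constant term first). -/
def hom {T : Type*} [CommRing T] : List ℤ → T → T → T
  | [], _, _ => 0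
  | c :: cs, n, d => (c : T) * d ^ cs.length + n * hom cs n d

theorem hom_cast {T : Type*} [CommRing T] (cs : List ℤ) (n d : ℤ) :
    ((hom cs n d : ℤ) : T) = hom cs (n : T) (d : T) := by
  induction cs with
  | nil => simp [hom]
  | cons c cs ih => simp [hom, ih]

theorem hom_scale (cs : List ℤ) (q d : ℚ) : d * hom cs (q * d) d = d ^ cs.length * hom cs q 1 := by
  induction cs with
  | nil => simp [hom]
  | cons c cs ih =>
    simp only [hom, List.length_cons, one_pow, mul_one]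
    linear_combination q * d * ih

/-- No rational root if there is no projective root modulo a prime. -/
theorem noRat (cs : List ℤ) (p : ℕ) (hp : p ≠ 1)
    (h : ∀ n d : ZMod p, hom cs n d = 0 → n = 0 ∧ d = 0) (q : ℚ) : hom cs q 1 ≠ 0 := by
  intro h0
  have h1 := hom_scale cs q q.den
  rw [h0, mul_zero, Rat.mul_den_eq_num] at h1
  have h2 : hom cs (q.num : ℚ) ((q.den : ℤ) : ℚ) = 0 :=
    (mul_eq_zero.mp h1).resolve_left (by exact_mod_cast q.den_nz)
  rw [← hom_cast] at h2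
  have h3 : hom cs q.num (q.den : ℤ) = 0 := by exact_mod_cast h2
  obtain ⟨h4, h5⟩ := h q.num (q.den : ℤ) (by rw [← hom_cast, h3, Int.cast_zero])
  rw [ZMod.intCast_zmod_eq_zero_iff_dvd] at h4 h5
  have := Nat.dvd_gcd (Int.natCast_dvd.mp h4) (Int.natCast_dvd_natCast.mp h5)
  rw [q.reduced] at this
  exact hp (Nat.dvd_one.mp this)

theorem noRat_ex (q : ℚ) : q ^ 2 + q - 1 ≠ 0 := fun h =>
  noRat [-1, 1, 1] 2 (by norm_num) (by decide) q (by simp only [hom]; push_cast; simp; linarith)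

end Pool.Agent.P.MP_440ce3_nt
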