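import Pool.Agent.P.MP_440ce3_nt.G.Iface

/-! Step BIII of the Fermat quintic project. -/

namespace Pool.Agent.P.MP_440ce3_nt

open Polynomial

namespace BiiiA

theorem one1 {r : ℚ} {y1 y2 y3 y4 : ℚ[X]} (h : One4 r y1 y2 y3 y4) (h1 : y1.eval r = 0) :
    y2.eval r ≠ 0 ∧ y3.eval r ≠ 0 ∧ y4.eval r ≠ 0 := by
  unfold One4 at h
  refine ⟨fun h2 => ?_, fun h2 => ?_, fun h2 => ?_⟩ <;>
  · rw [if_pos h1, if_pos h2] at h
    omega

theorem one2 {r : ℚ} {y1 y2 y3 y4 : ℚ[X]} (h : One4 r y1 y2 y3 y4) (h1 : y2.eval r = 0) :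
    y3.eval r ≠ 0 ∧ y4.eval r ≠ 0 := by
  unfold One4 at h
  refine ⟨fun h2 => ?_, fun h2 => ?_⟩ <;>
  · rw [if_pos h1, if_pos h2] at h
    omega

theorem one3 {r : ℚ} {y1 y2 y3 y4 : ℚ[X]} (h : One4 r y1 y2 y3 y4) (h1 : y3.eval r = 0) :
    y2.eval r ≠ 0 ∧ y4.eval r ≠ 0 := by
  unfold One4 at h
  refine ⟨fun h2 => ?_, fun h2 => ?_⟩ <;>
  · rw [if_pos h1, if_pos h2] at h
    omega

theorem dle {e f u v y : ℚ[X]} (hc : IsCoprime e f) (hu : u ∣ f) (hv : v ∣ e) (h1 : u ∣ y)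
    (h2 : v ∣ y) (hy : y ≠ 0 ∧ y.natDegree = 3) : u.natDegree + v.natDegree ≤ 3 := by
  have h3 : IsCoprime u v :=
    (hc.symm.of_isCoprime_of_dvd_left hu).of_isCoprime_of_dvd_right hv
  have h4 := h3.mul_dvd h1 h2
  have h5 := natDegree_le_of_dvd h4 hy.1
  have h6 := ne_zero_of_dvd_ne_zero hy.1 h4
  rw [natDegree_mul (left_ne_zero_of_mul h6) (right_ne_zero_of_mul h6)] at h5
  omega

theorem unit {u : ℚ[X]} (h0 : u ≠ 0) (h : u.natDegree = 0) : IsUnit u :=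
  isUnit_iff_degree_eq_zero.2 (by rw [degree_eq_natDegree h0, h]; rfl)

theorem dv {u x y z : ℚ[X]} (h1 : u ∣ x) (h2 : u ∣ y) (h : z + x + y = 0) : u ∣ z := by
  rw [show z = -(x + y) by linear_combination h]
  exact (dvd_add h1 h2).neg_right

end BiiiA

open BiiiA in
theorem p_BIII (hFAC : S_FAC) (hTRI : S_TRI) (hT2 : S_T2) (hT3 : S_T3) :
    S_BIII := by
  intro a b c e f r s t h hr hs ht
  obtain ⟨o1, o2, o3, -, u1, u2, u3, hu, du1, du2, du3, pu1, pu2, pu3⟩ := hFAC _ _ _ _ _ _ _ _ h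
  obtain ⟨-, -, -, -, v1, v2, v3, hv, dv1, dv2, dv3, pv1, pv2, pv3⟩ :=
    hFAC _ _ _ _ _ _ _ _ h.swap45
  obtain ⟨r1, r2, r3⟩ := one1 o1 hr
  obtain ⟨s2, s3⟩ := one2 o2 hs
  obtain ⟨t1, t3⟩ := one3 o3 ht
  have hev : ∀ x : ℚ, a.eval x + b.eval x + c.eval x + e.eval x + f.eval x = 0 := fun x => by
    simpa only [eval_add, eval_zero] using congrArg (eval x) h.s1
  have hra := h.ra
  have hrb := h.rb
  have hrc := h.rc
  have fr := h.fr
  have fs := h.fs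
  have ft := h.ft
  have er := hev r
  have es := hev s
  have et := hev t
  have a1 : (f + a).eval r ≠ 0 := by rw [eval_add, hra, add_zero]; exact fr
  have a2 : (f + a).eval s ≠ 0 := fun h0 => s3 (by rw [eval_add] at h0 ⊢; linarith)
  have a3 : (f + a).eval t = 0 := by rw [eval_add] at ht ⊢; linarith
  have b1 : (f + b).eval r ≠ 0 := fun h0 => r3 (by rw [eval_add] at h0 ⊢; linarith)
  have b2 : (f + b).eval s ≠ 0 := by rw [eval_add, hrb, add_zero]; exact fs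
  have b3 : (f + b).eval t ≠ 0 := fun h0 => t1 (by rw [eval_add] at h0 ⊢; linarith)
  have c1 : (f + c).eval r ≠ 0 := fun h0 => r2 (by rw [eval_add] at h0 ⊢; linarith)
  have c2 : (f + c).eval s = 0 := by rw [eval_add] at hs ⊢; linarith
  have c3 : (f + c).eval t ≠ 0 := by rw [eval_add, hrc, add_zero]; exact ft
  have hr' : (f + e).eval r = 0 := by rwa [add_comm]
  rw [nz, if_neg r1, if_pos hs, if_neg t1, Nat.odd_iff] at pu1
  rw [nz, if_neg r2, if_neg s2, if_pos ht, Nat.odd_iff] at pu2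
  rw [nz, if_neg r3, if_neg s3, if_neg t3, Nat.odd_iff] at pu3
  rw [nz, if_neg a1, if_neg a2, if_pos a3, Nat.odd_iff] at pv1
  rw [nz, if_neg b1, if_neg b2, if_neg b3, Nat.odd_iff] at pv2
  rw [nz, if_neg c1, if_pos c2, if_neg c3, Nat.odd_iff] at pv3
  have f0 : u1 * u2 * u3 ≠ 0 := hu ▸ h.ne 4
  have e0 : v1 * v2 * v3 ≠ 0 := hv ▸ h.ne 3
  have n1 := left_ne_zero_of_mul (left_ne_zero_of_mul f0)
  have n2 := right_ne_zero_of_mul (left_ne_zero_of_mul f0)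
  have n3 := right_ne_zero_of_mul f0
  have m1 := left_ne_zero_of_mul (left_ne_zero_of_mul e0)
  have m2 := right_ne_zero_of_mul (left_ne_zero_of_mul e0)
  have m3 := right_ne_zero_of_mul e0
  have df := h.degf
  have de := h.dege
  rw [hu, natDegree_mul (mul_ne_zero n1 n2) n3, natDegree_mul n1 n2] at df
  rw [hv, natDegree_mul (mul_ne_zero m1 m2) m3, natDegree_mul m1 m2] at de
  have fu1 : u1 ∣ f := ⟨u2 * u3, by rw [hu, mul_assoc]⟩
  have fu2 : u2 ∣ f := ⟨u1 * u3, by rw [hu]; ring⟩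
  have fu3 : u3 ∣ f := ⟨u1 * u2, by rw [hu]; ring⟩
  have ev1 : v1 ∣ e := ⟨v2 * v3, by rw [hv, mul_assoc]⟩
  have ev2 : v2 ∣ e := ⟨v1 * v3, by rw [hv]; ring⟩
  have ev3 : v3 ∣ e := ⟨v1 * v2, by rw [hv]; ring⟩
  have l1 := dle (y := b + c) h.cop fu1 ev1 (dv du1 fu1 (by linear_combination h.s1))
    (dv dv1 ev1 (by linear_combination h.s1)) (h.gd.pair 1 2 (by decide))
  have l2 := dle (y := a + c) h.cop fu2 ev2 (dv du2 fu2 (by linear_combination h.s1))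
    (dv dv2 ev2 (by linear_combination h.s1)) (h.gd.pair 0 2 (by decide))
  have l3 := dle (y := a + b) h.cop fu3 ev3 (dv du3 fu3 (by linear_combination h.s1))
    (dv dv3 ev3 (by linear_combination h.s1)) (h.gd.pair 0 1 (by decide))
  have hv' : e = v1 * v3 * v2 := by rw [hv]; ring
  have g1 : (u1 * u2).natDegree = u1.natDegree + u2.natDegree := natDegree_mul n1 n2
  have g2 : (v1 * v3).natDegree = v1.natDegree + v3.natDegree := natDegree_mul m1 m3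
  by_cases k1 : u1.natDegree = 0
  · have i1 := unit n1 k1
    by_cases k2 : u2.natDegree = 0
    · have i2 := unit n2 k2
      have i3 := unit m3 (by omega)
      refine hTRI _ _ _ _ _ _ _ _ h hr hs ht (hu ▸ (i1.mul i2).mul_left_dvd.2 du3) ?_
      by_cases k3 : v1.natDegree = 0
      · exact Or.inl (hv' ▸ ((unit m1 k3).mul i3).mul_left_dvd.2 dv2)
      · exact Or.inr ⟨v1, by omega, ev1, dv1⟩
    · by_cases k3 : v1.natDegree = 0
      · exact hT3 _ _ _ _ _ _ _ _ (u1 * u2) u3 (v1 * v3) v2 h hs ht hu (by omega)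
          (i1.mul_left_dvd.2 du2) du3 hv' (by omega) ((unit m1 k3).mul_left_dvd.2 dv3) dv2
      · exact hT2 _ _ _ _ _ _ _ _ (v1 * v3) v2 (u1 * u2) u3 h.swap45.swap23 hr' a3 hv' (by omega)
          ((unit m3 (by omega)).mul_right_dvd.2 dv1) dv2 hu (by omega) (i1.mul_left_dvd.2 du2)
  · have i2 := unit n2 (by omega)
    have i1 := unit m1 (by omega)
    by_cases k3 : v3.natDegree = 0
    · exact hTRI _ _ _ _ _ _ _ _ h.swap45.swap23 hr' a3 c2
        (hv' ▸ (i1.mul (unit m3 k3)).mul_left_dvd.2 dv2) (Or.inr ⟨u1, by omega, fu1, du1⟩)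
    · exact hT2 _ _ _ _ _ _ _ _ (u1 * u2) u3 (v1 * v3) v2 h hr hs hu (by omega)
        (i2.mul_right_dvd.2 du1) du3 hv' (by omega) (i1.mul_left_dvd.2 dv3)

end Pool.Agent.P.MP_440ce3_nt
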