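import Pool.Agent.P.MP_440ce3_nt.G.Iface

/-! Step HESSE of the Fermat quintic project. -/

namespace Pool.Agent.P.MP_440ce3_nt

open Polynomial

namespace HesseA

/-- The derivative of the cubic form in the first variable. -/
def g {T : Type} [CommRing T] (l m n a b c : T) : T :=
  l * (b * c) - m * (a * b) - m * (b * c) - m * (c * a) - m * ((a + b + c) * (b + c)) -
    n * ((a + b + c) * (a + b + c)) - n * ((a + b + c) * (a + b + c)) -
    n * ((a + b + c) * (a + b + c))

theorem map_g {T T' : Type} [CommRing T] [CommRing T'] (φ : T →+* T') (l m n a b c : T) :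
    φ (g l m n a b c) = g (φ l) (φ m) (φ n) (φ a) (φ b) (φ c) := by
  simp only [g, map_sub, map_mul, map_add]

section

variable {K : Type} [Field K] [CharZero K] {l m n : K} (h1 : l ≠ 0) (h2 : l - 9 * m - 27 * n ≠ 0)
  (h3 : m ^ 3 - l * m ^ 2 - n * l ^ 2 ≠ 0)

include h1 h2 h3

theorem smooth2 {a c : K} (ea : g l m n a a c = 0) (ec : g l m n c a a = 0) : a = 0 ∧ c = 0 := by
  unfold g at ea ec
  by_cases hc : c = a
  · subst hc
    have h4 : c = 0 := pow_eq_zero_iff two_ne_zero |>.1
      ((mul_eq_zero.1 (show (l - 9 * m - 27 * n) * c ^ 2 = 0 by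
        linear_combination ea)).resolve_left h2)
    exact ⟨h4, h4⟩
  have h4 : l * a - m * (a + a + c) = 0 :=
    (mul_eq_zero.1 (show (c - a) * (l * a - m * (a + a + c)) = 0 by
      linear_combination ea - ec)).resolve_left (sub_ne_zero.2 hc)
  have h5 : a + a + c = 0 := pow_eq_zero_iff two_ne_zero |>.1
    ((mul_eq_zero.1 (show 3 * (m ^ 3 - l * m ^ 2 - n * l ^ 2) * (a + a + c) ^ 2 = 0 by
      linear_combination l ^ 2 * ea - (l ^ 2 * (a + a + c) - m * l * (a + a + c) +
        (3 * m - 2 * l) * (l * a + m * (a + a + c))) * h4)).resolve_left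
      (mul_ne_zero three_ne_zero h3))
  rw [h5, mul_zero, sub_zero] at h4
  have h6 := (mul_eq_zero.1 h4).resolve_left h1
  exact ⟨h6, by linear_combination h5 - 2 * h6⟩

theorem smooth {a b c : K} (ea : g l m n a b c = 0) (eb : g l m n b c a = 0)
    (ec : g l m n c a b = 0) : a = 0 ∧ b = 0 ∧ c = 0 := by
  by_cases hab : a = b
  · subst hab
    obtain ⟨h4, h5⟩ := smooth2 h1 h2 h3 ea ec
    exact ⟨h4, h4, h5⟩
  by_cases hbc : b = c
  · subst hbc
    obtain ⟨h4, h5⟩ := smooth2 h1 h2 h3 eb ea
    exact ⟨h5, h4, h4⟩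
  have hca : c = a := by
    unfold g at ea eb ec
    have h4 : l * c - m * (a + b + c) = 0 :=
      (mul_eq_zero.1 (show (a - b) * (l * c - m * (a + b + c)) = 0 by
        linear_combination eb - ea)).resolve_left (sub_ne_zero.2 hab)
    have h5 : l * a - m * (a + b + c) = 0 :=
      (mul_eq_zero.1 (show (b - c) * (l * a - m * (a + b + c)) = 0 by
        linear_combination ec - eb)).resolve_left (sub_ne_zero.2 hbc)
    exact mul_left_cancel₀ h1 (by linear_combination h4 - h5)
  subst hca
  obtain ⟨h4, h5⟩ := smooth2 h1 h2 h3 ec eb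
  exact ⟨h4, h5, h4⟩

end

theorem bez {x y z : ℚ[X]} (h : ∀ π : ℚ[X], Irreducible π → π ∣ x → π ∣ y → π ∣ z → False) :
    ∃ u v w, u * x + v * y + w * z = 1 := by
  have h1 : IsCoprime (EuclideanDomain.gcd x y) z := by
    refine isCoprime_of_irreducible_dvd (fun h0 => ?_) fun π hπ h1 h2 =>
      h π hπ (h1.trans (EuclideanDomain.gcd_dvd_left x y))
        (h1.trans (EuclideanDomain.gcd_dvd_right x y)) h2
    obtain ⟨hx, hy⟩ := EuclideanDomain.gcd_eq_zero_iff.1 h0.1
    exact h X irreducible_X (hx ▸ dvd_zero _) (hy ▸ dvd_zero _) (h0.2 ▸ dvd_zero _)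
  obtain ⟨u, w, h2⟩ := h1
  rw [EuclideanDomain.gcd_eq_gcd_ab] at h2
  exact ⟨u * EuclideanDomain.gcdA x y, u * EuclideanDomain.gcdB x y, w, by linear_combination h2⟩

theorem coeff_g (l m n : ℚ) {a b c : ℚ[X]} {N : ℕ} (ha : a.natDegree ≤ N) (hb : b.natDegree ≤ N)
    (hc : c.natDegree ≤ N) : (g (C l) (C m) (C n) a b c).coeff (N + N) =
      g l m n (a.coeff N) (b.coeff N) (c.coeff N) := by
  have h1 : (b + c).natDegree ≤ N := natDegree_add_le_of_degree_le hb hc
  have h2 : (a + b + c).natDegree ≤ N :=
    natDegree_add_le_of_degree_le (natDegree_add_le_of_degree_le ha hb) hc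
  simp only [g, coeff_sub, coeff_C_mul, coeff_mul_add_eq_of_natDegree_le, ha, hb, hc, h1, h2,
    coeff_add]

theorem wr {b c H G : ℚ[X]} {N : ℕ} (hN : 1 ≤ N) (hb : b.natDegree ≤ N) (hc : c.natDegree ≤ N)
    (hH : H ≠ 0) (e : b * derivative c - derivative b * c = H * G) : G.coeff (N + N) = 0 := by
  by_contra h0
  have h1 : N + N ≤ G.natDegree := le_natDegree_of_ne_zero h0
  have hG : G ≠ 0 := fun h => h0 (by rw [h, coeff_zero])
  have h2 := natDegree_sub_le (b * derivative c) (derivative b * c)
  have h3 := natDegree_mul_le (p := b) (q := derivative c)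
  have h4 := natDegree_mul_le (p := derivative b) (q := c)
  have h5 := natDegree_derivative_le b
  have h6 := natDegree_derivative_le c
  rw [e, natDegree_mul hH hG] at h2
  omega

end HesseA

open HesseA in
theorem p_HESSE :
    S_HESSE := by
  intro l m n a b c h1 h2 h3 hcop e
  by_contra ha0
  have E : a * g (C l) (C m) (C n) a b c + b * g (C l) (C m) (C n) b c a +
      c * g (C l) (C m) (C n) c a b = 0 := by
    unfold g
    linear_combination 3 * e
  have D : derivative a * g (C l) (C m) (C n) a b c + derivative b * g (C l) (C m) (C n) b c a +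
      derivative c * g (C l) (C m) (C n) c a b = 0 := by
    have h4 := congrArg derivative e
    simp only [pow_two, derivative_mul, derivative_add, derivative_C, zero_mul, zero_add] at h4
    unfold g
    linear_combination h4
  obtain ⟨u, v, w, hB⟩ := bez (x := g (C l) (C m) (C n) a b c) (y := g (C l) (C m) (C n) b c a)
    (z := g (C l) (C m) (C n) c a b) fun π hπ e1 e2 e3 => by
      have := Fact.mk hπ
      have : CharZero (AdjoinRoot π) := algebraRat.charZero _
      rw [← AdjoinRoot.mk_eq_zero, map_g] at e1 e2 e3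
      simp only [AdjoinRoot.mk_C] at e1 e2 e3
      obtain ⟨f1, f2, f3⟩ := smooth ((_root_.map_ne_zero (AdjoinRoot.of π)).2 h1)
        (by simpa only [map_sub, map_mul, map_ofNat] using
          (_root_.map_ne_zero (AdjoinRoot.of π)).2 h2)
        (by simpa only [map_sub, map_mul, map_pow] using
          (_root_.map_ne_zero (AdjoinRoot.of π)).2 h3) e1 e2 e3
      exact hcop π hπ (AdjoinRoot.mk_eq_zero.1 f1) (AdjoinRoot.mk_eq_zero.1 f2)
        (AdjoinRoot.mk_eq_zero.1 f3)
  have cg := fun (N : ℕ) (a b c : ℚ[X]) => coeff_g l m n (a := a) (b := b) (c := c) (N := N)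
  set H := u * (b * derivative c - derivative b * c) + v * (c * derivative a - derivative c * a) +
    w * (a * derivative b - derivative a * b) with hH
  have Wa : b * derivative c - derivative b * c = H * g (C l) (C m) (C n) a b c := by
    rw [hH]
    linear_combination (v * derivative c - w * derivative b) * E + (w * b - v * c) * D -
      (b * derivative c - derivative b * c) * hB
  have Wb : c * derivative a - derivative c * a = H * g (C l) (C m) (C n) b c a := by
    rw [hH]
    linear_combination (w * derivative a - u * derivative c) * E + (u * c - w * a) * D -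
      (c * derivative a - derivative c * a) * hB
  have Wc : a * derivative b - derivative a * b = H * g (C l) (C m) (C n) c a b := by
    rw [hH]
    linear_combination (u * derivative b - v * derivative a) * E + (v * a - u * b) * D -
      (a * derivative b - derivative a * b) * hB
  have H0 : H = 0 := by
    by_contra H0
    obtain ⟨N, hN⟩ : ∃ N, N = max a.natDegree (max b.natDegree c.natDegree) := ⟨_, rfl⟩
    have ha : a.natDegree ≤ N := by omega
    have hb : b.natDegree ≤ N := by omega
    have hc : c.natDegree ≤ N := by omega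
    have hN1 : 1 ≤ N := by omega
    have f1 := wr hN1 hb hc H0 Wa
    have f2 := wr hN1 hc ha H0 Wb
    have f3 := wr hN1 ha hb H0 Wc
    rw [cg _ _ _ _ ha hb hc] at f1
    rw [cg _ _ _ _ hb hc ha] at f2
    rw [cg _ _ _ _ hc ha hb] at f3
    obtain ⟨g1, g2, g3⟩ := smooth h1 h2 h3 f1 f2 f3
    have key : ∀ p : ℚ[X], p.coeff N = 0 → p.natDegree ≠ N := fun p hp h => by
      rw [← h, coeff_natDegree, leadingCoeff_eq_zero] at hp
      rw [hp, natDegree_zero] at h
      omega
    have := key a g1
    have := key b g2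
    have := key c g3
    omega
  rw [H0, zero_mul] at Wb Wc
  obtain ⟨u', v', w', hB'⟩ := bez hcop
  have hd : a ∣ derivative a := ⟨u' * derivative a + v' * derivative b + w' * derivative c, by
    linear_combination w' * Wb - v' * Wc - derivative a * hB'⟩
  by_cases hz : derivative a = 0
  · exact ha0 (natDegree_eq_zero_of_derivative_eq_zero hz)
  have := natDegree_le_of_dvd hd hz
  have := natDegree_derivative_le a
  omega

end Pool.Agent.P.MP_440ce3_nt
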