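import Pool.Agent.P.MP_440ce3_nt.G.Basic
import Pool.Agent.P.MP_440ce3_nt.A.Iface

/-! Statements of the geometric part. -/

namespace Pool.Agent.P.MP_440ce3_nt

open Polynomial

-- deps: PT
def S_PP : Prop :=
  (∀ π x y z : ℚ[X], Irreducible π → π.natDegree ≤ 3 → π ∣ x ^ 5 + y ^ 5 + z ^ 5 → π ∣ x + y + z) ∧
    ∀ x y z : ℚ, x ^ 5 + y ^ 5 + z ^ 5 = 0 → x * y * z = 0

-- deps:
def S_NORM : Prop :=
  ∀ x : Fin 5 → ℚ[X], ∑ i, x i ^ 5 = 0 → (∀ i, (x i).natDegree ≤ 3) →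
    (¬ ∃ (p : ℚ[X]) (c : Fin 5 → ℚ), ∀ i, x i = C (c i) * p) → (∀ i j, i ≠ j → x i + x j ≠ 0) →
    ∃ d y, Nm d y

-- deps: PP
def S_VL : Prop := ∀ d x, Nm d x → Gd d x

-- deps: PP
def S_TRIV : Prop :=
  ∀ (x : Fin 5 → ℚ[X]) (i j : Fin 5), ∑ k, x k ^ 5 = 0 → i ≠ j → x i + x j = 0 →
    ∃ σ : Equiv.Perm (Fin 5), σ * σ = 1 ∧ ∀ k, x (σ k) = -x k

-- deps: PP
def S_GEN : Prop := ∀ d x, Gd d x → ∑ i, x i = 0

-- deps: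
def S_HESSE : Prop :=
  ∀ (l m n : ℚ) (a b c : ℚ[X]), l ≠ 0 → l - 9 * m - 27 * n ≠ 0 → m ^ 3 - l * m ^ 2 - n * l ^ 2 ≠ 0 →
    (∀ π : ℚ[X], Irreducible π → π ∣ a → π ∣ b → π ∣ c → False) →
    C l * (a * b * c) = (a + b + c) * (C m * (a * b + b * c + c * a) + C n * (a + b + c) ^ 2) →
    a.natDegree = 0

-- deps:
def S_SPLIT : Prop :=
  ∀ d x, Gd d x → ∑ i, x i = 0 → ∃ a b c e f : ℚ[X],
    (Gd 2 ![a, b, c, e, f] ∧ a + b + c + e + f = 0 ∧ (∀ i, ![a, b, c, e, f] i ≠ 0) ∧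
      ∃ κ : ℚ, a ^ 2 + b ^ 2 + c ^ 2 + e ^ 2 + f ^ 2 = C κ * e * f) ∨
    ∃ r s t : ℚ, D3 a b c e f r s t

-- deps: HESSE
def S_D2 : Prop :=
  ∀ (a b c e f : ℚ[X]) (κ : ℚ), Gd 2 ![a, b, c, e, f] → a + b + c + e + f = 0 →
    (∀ i, ![a, b, c, e, f] i ≠ 0) → a ^ 2 + b ^ 2 + c ^ 2 + e ^ 2 + f ^ 2 = C κ * e * f → False

-- deps: HESSE
def S_DA : Prop :=
  ∀ a b c e f r s t, D3 a b c e f r s t → (e + f).eval r = 0 → (e + f).eval s = 0 →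
    (e + f).eval t = 0 → False

-- deps:
def S_FAC : Prop :=
  ∀ a b c e f r s t, D3 a b c e f r s t →
    One4 r (e + f) (e + a) (e + b) (e + c) ∧ One4 s (e + f) (e + a) (e + b) (e + c) ∧
    One4 t (e + f) (e + a) (e + b) (e + c) ∧ Odd (nz (e + f) r s t) ∧
    ∃ u1 u2 u3 : ℚ[X], f = u1 * u2 * u3 ∧ u1 ∣ e + a ∧ u2 ∣ e + b ∧ u3 ∣ e + c ∧
      Odd (u1.natDegree + nz (e + a) r s t) ∧ Odd (u2.natDegree + nz (e + b) r s t) ∧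
      Odd (u3.natDegree + nz (e + c) r s t)

-- deps:
def S_TRI : Prop :=
  ∀ a b c e f r s t, D3 a b c e f r s t → (e + f).eval r = 0 → (e + a).eval s = 0 →
    (e + b).eval t = 0 → f ∣ e + c →
    (e ∣ f + b ∨ ∃ g : ℚ[X], g.natDegree = 2 ∧ g ∣ e ∧ g ∣ f + a) → False

-- deps:
def S_E1N : Prop :=
  ∀ (ρ η g0 g1 g2 : ℚ) (g h T M : ℚ[X]), g = C g0 * X ^ 2 + C g1 * X + C g2 →
    h = C η * (X ^ 2 - C ρ * X + C ρ ^ 2) → T = C ρ ^ 3 * X → M = 1 + T →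
    (g * X + h * M) ^ 5 + (-(g * X) - h * T) ^ 5 + (g + h * T) ^ 5 + (-(h * M)) ^ 5 + (-g) ^ 5 = 0 →
    ρ ≠ 0 → η ≠ 0 → g2 ≠ 0 → 1 + ρ ^ 3 ≠ 0 → (g * X + h * M).eval 1 = 0 → False

-- deps:
def S_E2N : Prop :=
  ∀ (ρ η α g0 g1 g2 : ℚ) (g h T M : ℚ[X]), g = C g0 * X ^ 2 + C g1 * X + C g2 →
    (h = C η * (X ^ 2 + (1 + C ρ) * X + (1 + C ρ + C ρ ^ 2)) ∨ h = C η * ((1 - X) * (X - C ρ))) →
    α = -((ρ + 1) * (ρ ^ 2 + 1)) → M = -(C α * (1 - X)) → T = M - 1 →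
    (g * X + h * M) ^ 5 + (-(g * X) - h * T) ^ 5 + (g + h * T) ^ 5 + (-(h * M)) ^ 5 + (-g) ^ 5 = 0 →
    ρ ≠ 0 → η ≠ 0 → α ≠ 0 → (g + h * T).eval 0 = 0 → (g * X + h * M).eval ((1 + α) / α) = 0 →
    g.eval ((1 + α) / α) ≠ 0 → False

-- deps:
def S_B1N : Prop :=
  ∀ (β δ φ g0 g1 g2 a0 a1 b0 b1 : ℚ) (g A B : ℚ[X]), g = C g0 * X ^ 2 + C g1 * X + C g2 →
    A = C a0 * X + C a1 → B = C b0 * X + C b1 →
    (g * X - A * B * (1 - X)) ^ 5 + (X * (A - g - A * B)) ^ 5 + (g - X * A + X * A * B) ^ 5 +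
      (A * B * (1 - X)) ^ 5 + (-g) ^ 5 = 0 →
    B.eval β = 0 → B.eval δ = 1 → B.eval φ = φ →
    (X * (A - g - A * B) - g).eval β = 0 → (g * X - A * B * (1 - X)).eval δ = 0 →
    (g - X * A + X * A * B).eval φ = 0 →
    g.eval β ≠ 0 → g.eval δ ≠ 0 → g.eval φ ≠ 0 → β ≠ 0 → δ ≠ 0 → δ ≠ 1 → a1 ≠ 0 → False

-- deps: E1N
def S_T2 : Prop :=
  ∀ a b c e f r s t (g u h v : ℚ[X]), D3 a b c e f r s t → (e + f).eval r = 0 →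
    (e + a).eval s = 0 → f = g * u → g.natDegree = 2 → g ∣ e + a → u ∣ e + c →
    e = h * v → h.natDegree = 2 → h ∣ f + c → False

-- deps: E2N
def S_T3 : Prop :=
  ∀ a b c e f r s t (g u h v : ℚ[X]), D3 a b c e f r s t → (e + a).eval s = 0 →
    (e + b).eval t = 0 → f = g * u → g.natDegree = 2 → g ∣ e + b → u ∣ e + c →
    e = h * v → h.natDegree = 2 → h ∣ f + c → v ∣ f + b → False

-- deps: B1N
def S_B1 : Prop :=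
  ∀ a b c e f r s t (u1 u2 u3 v g : ℚ[X]), D3 a b c e f r s t → (e + f).eval r = 0 →
    (e + a).eval s = 0 → (e + a).eval t = 0 → f = u1 * u2 * u3 → u1.natDegree = 1 →
    u2.natDegree = 1 → u3.natDegree = 1 → u1 ∣ e + a → u2 ∣ e + b → u3 ∣ e + c →
    e = v * g → g.natDegree = 2 → v ∣ f + a → g ∣ f + b → False

-- deps: FAC B1
def S_BI : Prop :=
  ∀ a b c e f r s t, D3 a b c e f r s t → (e + f).eval r = 0 → (e + a).eval s = 0 →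
    (e + a).eval t = 0 → False

-- deps: FAC TRI T2 T3
def S_BIII : Prop :=
  ∀ a b c e f r s t, D3 a b c e f r s t → (e + f).eval r = 0 → (e + a).eval s = 0 →
    (e + b).eval t = 0 → False

-- deps: FAC DA BI BIII
def S_D3 : Prop := ∀ a b c e f r s t, D3 a b c e f r s t → False

-- deps: NORM VL TRIV GEN SPLIT D2 D3
def S_MAIN : Prop :=
  ∀ x : Fin 5 → ℚ[X], ∑ i, x i ^ 5 = 0 → (∀ i, (x i).natDegree ≤ 3) →
    (∃ (p : ℚ[X]) (c : Fin 5 → ℚ), ∀ i, x i = C (c i) * p) ∨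
      ∃ σ : Equiv.Perm (Fin 5), σ * σ = 1 ∧ ∀ k, x (σ k) = -x k

end Pool.Agent.P.MP_440ce3_nt
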