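import Pool.Agent.P.MP_440ce3_nt.G.Iface

/-! Step NORM of the Fermat quintic project. -/

namespace Pool.Agent.P.MP_440ce3_nt

open Polynomial

namespace NormA

theorem reflect_pow {p : ℚ[X]} {d : ℕ} (h : p.natDegree ≤ d) (n : ℕ) :
    reflect (n * d) (p ^ n) = reflect d p ^ n := by
  induction n with
  | zero => simp
  | succ n ih =>
    rw [pow_succ, pow_succ, Nat.succ_mul, reflect_mul _ _ (natDegree_pow_le_of_le n h) h, ih]

theorem deg_reflect {p : ℚ[X]} {d : ℕ} (h : p.natDegree ≤ d) (h0 : p.coeff 0 ≠ 0) :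
    (reflect d p).natDegree = d := by
  refine le_antisymm (natDegree_reflect_le.trans (max_le le_rfl h)) (le_natDegree_of_ne_zero ?_)
  rwa [coeff_reflect, revAt_le le_rfl, Nat.sub_self]

theorem cop {u a : Fin 5 → ℚ[X]} {d : ℕ} (h : ∀ i, (u i).natDegree ≤ d)
    (h1 : ∑ i, a i * u i = 1) {j : Fin 5} (h2 : (u j).coeff d ≠ 0) (π : ℚ[X])
    (hπ : Irreducible π) : ¬ ∀ i, π ∣ reflect d (u i) := by
  intro h3
  have : Fact (Irreducible π) := ⟨hπ⟩
  have h4 : ∀ i, eval₂ (AdjoinRoot.of π) (AdjoinRoot.root π) (reflect d (u i)) = 0 := fun i => by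
    obtain ⟨q, hq⟩ := h3 i
    rw [hq, eval₂_mul, AdjoinRoot.eval₂_root, zero_mul]
  by_cases h0 : AdjoinRoot.root π = 0
  · have h5 := h4 j
    rw [h0, eval₂_at_zero, coeff_reflect, revAt_zero, map_eq_zero] at h5
    exact h2 h5
  · let _ := invertibleOfNonzero (inv_ne_zero h0)
    have h5 : ∀ i, eval₂ (AdjoinRoot.of π) (AdjoinRoot.root π)⁻¹ (u i) = 0 :=
      fun i => (eval₂_reflect_eq_zero_iff _ _ d _ (h i)).1 (by
        rw [invOf_eq_inv, inv_inv]; exact h4 i)
    have h6 := congrArg (eval₂RingHom (AdjoinRoot.of π) (AdjoinRoot.root π)⁻¹) h1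
    rw [map_sum, map_one] at h6
    simp only [map_mul, coe_eval₂RingHom, h5, mul_zero, Finset.sum_const_zero] at h6
    exact zero_ne_one h6

theorem step {u a : Fin 5 → ℚ[X]} (h0 : ∑ i, u i ^ 5 = 0) (h : ∀ i, (u i).natDegree ≤ 3)
    (h1 : ∑ i, a i * u i = 1) (h2 : ∃ i, (u i).natDegree ≠ 0)
    (h3 : ∀ i, u i = 0 ∨ (u i).coeff 0 ≠ 0) (h4 : ∀ i j, i ≠ j → (u i + u j).coeff 0 ≠ 0) :
    ∃ d y, Nm d y := by
  obtain ⟨j, -, hj⟩ := Finset.exists_max_image Finset.univ (fun i => (u i).natDegree)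
    Finset.univ_nonempty
  have h5 : ∀ i, (u i).natDegree ≤ (u j).natDegree := fun i => hj i (Finset.mem_univ i)
  have h6 : 1 ≤ (u j).natDegree := by
    obtain ⟨i, hi⟩ := h2
    have := h5 i
    omega
  refine ⟨(u j).natDegree, fun i => reflect (u j).natDegree (u i), ?_, h6, h j, fun i => ?_,
    fun i k hik => ?_, cop h5 h1 (j := j) ?_⟩
  · simp only [← reflect_pow (h5 _)]
    rw [Fin.sum_univ_five] at h0 ⊢
    simp only [← reflect_add, h0, reflect_zero]
  · rcases h3 i with h7 | h7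
    · exact Or.inl (by rw [h7, reflect_zero])
    · exact Or.inr (deg_reflect (h5 i) h7)
  · rw [← reflect_add]
    refine ⟨fun h7 => h4 i k hik ?_, deg_reflect
      ((natDegree_add_le _ _).trans (max_le (h5 i) (h5 k))) (h4 i k hik)⟩
    rw [reflect_eq_zero_iff.1 h7, coeff_zero]
  · refine leadingCoeff_ne_zero.2 fun h7 => ?_
    rw [h7, natDegree_zero] at h6
    omega

theorem exists_pt {ι : Type} [Finite ι] (p : ι → ℚ[X]) : ∃ t, ∀ i, p i ≠ 0 → (p i).eval t ≠ 0 := by
  have h : (⋃ i, ((p i).roots.toFinset : Set ℚ)).Finite :=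
    Set.finite_iUnion fun i => Finset.finite_toSet _
  obtain ⟨t, ht⟩ := h.exists_notMem
  refine ⟨t, fun i h1 h2 => ht (Set.mem_iUnion.2 ⟨i, ?_⟩)⟩
  rw [Finset.mem_coe, Multiset.mem_toFinset, mem_roots h1]
  exact h2

end NormA

theorem p_NORM :
    S_NORM := by
  intro x h0 h h1 h2
  obtain ⟨g, hg⟩ : (Ideal.span (Set.range x)).IsPrincipal := inferInstance
  have h3 : ∀ i, g ∣ x i := fun i => Ideal.mem_span_singleton.1 (by
    rw [← Ideal.submodule_span_eq, ← hg]
    exact Ideal.subset_span ⟨i, rfl⟩)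
  choose y hy using h3
  obtain ⟨a, ha⟩ := Ideal.mem_span_range_iff_exists_fun.1
    (show g ∈ Ideal.span (Set.range x) from hg ▸ Submodule.mem_span_singleton_self g)
  have hg0 : g ≠ 0 := fun h3 => h2 0 1 (by decide) (by rw [hy, hy, h3]; simp)
  have h4 : ∑ i, a i * y i = 1 := mul_left_cancel₀ hg0 (by
    rw [Finset.mul_sum, mul_one]
    conv_rhs => rw [← ha]
    exact Finset.sum_congr rfl fun i _ => by rw [hy]; ring)
  have h5 : ∑ i, y i ^ 5 = 0 := mul_left_cancel₀ (pow_ne_zero 5 hg0) (by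
    rw [Finset.mul_sum, mul_zero, ← h0]
    exact Finset.sum_congr rfl fun i _ => by rw [hy, mul_pow])
  have h6 : ∀ i, (y i).natDegree ≤ 3 := fun i => by
    by_cases h6 : y i = 0
    · rw [h6, natDegree_zero]; omega
    · have h7 := h i
      rw [hy, natDegree_mul hg0 h6] at h7
      omega
  have h7 : ∃ i, (y i).natDegree ≠ 0 := by
    by_contra h7
    push Not at h7
    exact h1 ⟨g, fun i => (y i).coeff 0, fun i => by
      rw [← eq_C_of_natDegree_eq_zero (h7 i), hy, mul_comm]⟩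
  obtain ⟨t, ht⟩ := NormA.exists_pt (Sum.elim y fun p : Fin 5 × Fin 5 => y p.1 + y p.2)
  refine NormA.step (u := fun i => taylor t (y i)) (a := fun i => taylor t (a i)) ?_ ?_ ?_ ?_
    (fun i => ?_) fun i j hij => ?_
  · simp only [← taylor_pow, ← map_sum, h5, map_zero]
  · simpa only [natDegree_taylor] using h6
  · simp only [← taylor_mul, ← map_sum, h4, taylor_one, C_1]
  · simpa only [natDegree_taylor] using h7
  · by_cases h8 : y i = 0
    · exact Or.inl (by rw [h8, map_zero])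
    · exact Or.inr (by rw [taylor_coeff_zero]; exact ht (Sum.inl i) h8)
  · rw [← map_add, taylor_coeff_zero]
    exact ht (Sum.inr (i, j)) fun h8 => h2 i j hij (by
      rw [hy, hy, ← mul_add, show y i + y j = 0 from h8, mul_zero])

end Pool.Agent.P.MP_440ce3_nt
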